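import Pool.Agent.AAC.OneT

/-!
# AAC-AllT (1.1h)
Union over all coincidences. PLAN. Apply `oneT` with `n + 1 ≥ 2` to all functions `T : Ty → (Fin (n+1) → Bool) × (Fin (n+1) → Bool)` with different components (lists `List.ofFn`, compare `TRS/Exc.lean`): there are `2 ^ (2 (n+1) * 12)` functions, `E` = union of the sets `P`, `E.card ≤ 2 ^ (24 (n+1)) * (n+1) ^ 500 ≤ 2 ^ (24 (n+1)) * 2 ^ (500 (n+1)) ≤ 2 ^ (1048 n)`. If at `x, y, z` for every type `i` there were lists `l ≠ l'` of length `n` with all
coefficients equal, append the letter `true` to both: the coefficients of `wdt i (true :: l)` are obtained from those of `wdt i l` by the same steps (`co_cons`: `co x y z (tw i true ++ w)` depends only on the coefficients of `w`, induction on the prefix), so there are coincidences of length `n + 1` for all types, a contradiction to `oneT`.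
-/

set_option autoImplicit false

namespace AAC

open Matrix Module Polynomial Pool.Agent.Helper72.TV Pool.Agent.Helper72.PT Pool.Agent.Helper72.PF TRS

private theorem allT_ofFn {n : ℕ} (l : List Bool) (h : l.length = n) :
    ∃ f : Fin n → Bool, List.ofFn f = l := by
  subst h
  exact ⟨l.get, List.ofFn_get l⟩

private theorem allT_prefix {R : Type*} [CommRing R] (x y z : R) (w l l' : List (Fin 4))
    (h : co x y z l = co x y z l') : co x y z (w ++ l) = co x y z (w ++ l') := by
  induction w with
  | nil => exact h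
  | cons s w ih =>
    rw [List.cons_append, List.cons_append, co_cons, co_cons, ih]

private theorem allT_pow (n k : ℕ) : (n + 1) ^ k ≤ 2 ^ (k * (n + 1)) := by
  have h2 : n + 1 ≤ 2 ^ (n + 1) := Nat.lt_two_pow_self.le
  calc (n + 1) ^ k ≤ (2 ^ (n + 1)) ^ k := Nat.pow_le_pow_left h2 k
    _ = 2 ^ (k * (n + 1)) := by rw [← pow_mul, mul_comm]

private theorem allT_num (n : ℕ) (hn : 1 ≤ n) :
    2 ^ (24 * (n + 1)) * (n + 1) ^ 500 ≤ 2 ^ (1048 * n) := by
  refine (Nat.mul_le_mul_left _ (allT_pow n 500)).trans ?_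
  rw [← pow_add]
  exact Nat.pow_le_pow_right (by norm_num) (by omega)

theorem allT (n : ℕ) (hn : 1 ≤ n) :
    ∃ E : Finset ℕ, E.card ≤ 2 ^ (1048 * n) ∧
      ∀ {K : Type} [Field K] [IsAlgClosed K] (p : ℕ) [Fact p.Prime] [CharP K p], p ∉ E →
        ∀ x y z : K, nd x y z ≠ 0 →
        ∃ i : Ty, ∀ l l' : List Bool, l.length = n → l'.length = n → l ≠ l' →
          ∃ j : Fin 4, co x y z (wdt i l) j ≠ co x y z (wdt i l') j := by
  classical
  have hgood : ∀ T : Ty → (Fin (n + 1) → Bool) × (Fin (n + 1) → Bool), (∀ i, (T i).1 ≠ (T i).2) →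
      GoodT (n + 1) fun i => (List.ofFn (T i).1, List.ofFn (T i).2) := fun T hT i =>
    ⟨List.length_ofFn, List.length_ofFn, fun h => hT i (List.ofFn_injective h)⟩
  have hex : ∀ T : Ty → (Fin (n + 1) → Bool) × (Fin (n + 1) → Bool),
      ∃ P : Finset ℕ, P.card ≤ (n + 1) ^ 500 ∧ ((∀ i, (T i).1 ≠ (T i).2) →
      ∀ {K : Type} [Field K] [IsAlgClosed K] (p : ℕ) [Fact p.Prime] [CharP K p], p ∉ P →
        ∀ x y z : K, nd x y z ≠ 0 →
        ¬∀ i j, co x y z (wdt i (List.ofFn (T i).1)) j = co x y z (wdt i (List.ofFn (T i).2)) j) := by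
    intro T
    by_cases hT : ∀ i, (T i).1 ≠ (T i).2
    · obtain ⟨P, hP, hP'⟩ := oneT (n + 1) (by omega) _ (hgood T hT)
      exact ⟨P, hP, fun _ => hP'⟩
    · exact ⟨∅, by simp, fun h => absurd h hT⟩
  choose P hP hP' using hex
  refine ⟨Finset.univ.biUnion P, ?_, ?_⟩
  · refine le_trans ?_ (allT_num n hn)
    have h1 := Finset.card_biUnion_le_card_mul
      (Finset.univ : Finset (Ty → (Fin (n + 1) → Bool) × (Fin (n + 1) → Bool))) P _
      (fun T _ => hP T)
    have h2 : (Finset.univ : Finset (Ty → (Fin (n + 1) → Bool) × (Fin (n + 1) → Bool))).card =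
        2 ^ (24 * (n + 1)) := by
      rw [Finset.card_univ]
      simp only [Fintype.card_fun, Fintype.card_fin, Fintype.card_prod, Fintype.card_bool,
        Fintype.card_sum]
      rw [← pow_add, ← pow_mul]
      congr 1
      ring
    rw [h2] at h1
    exact h1
  · intro K _ _ p _ _ hp x y z hnd
    by_contra hcon
    push Not at hcon
    choose l l' h1 h2 h3 h4 using hcon
    choose f hf using fun i => allT_ofFn (n := n + 1) (true :: l i) (by rw [List.length_cons, h1 i])
    choose f' hf' using fun i => allT_ofFn (n := n + 1) (true :: l' i) (by rw [List.length_cons, h2 i])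
    have hT : ∀ i, (f i, f' i).1 ≠ (f i, f' i).2 := by
      intro i h
      have h5 : List.ofFn (f i) = List.ofFn (f' i) := congrArg List.ofFn h
      rw [hf i, hf' i] at h5
      exact h3 i (List.cons_injective h5)
    refine hP' (fun i => (f i, f' i)) hT p ?_ x y z hnd ?_
    · intro h
      exact hp (Finset.mem_biUnion.2 ⟨_, Finset.mem_univ _, h⟩)
    · intro i j
      dsimp only
      rw [hf i, hf' i, wdt_cons, wdt_cons]
      exact congrFun (allT_prefix x y z _ _ _ (funext fun j => h4 i j)) j

end AAC
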