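import Pool.Agent.AAC.Defs
import Pool.Agent.Helper72.PF.EscPoly
import Pool.Agent.Helper72.PF.NonDeg
import Pool.Agent.Helper72.PF.Triple

/-!
# AAC-Esc2 (1.5h)
Short nondegenerate pairs in generating sets. PLAN. See `triple` in `Helper72/PF/Triple.lean`: `escPoly m` gives `N` and a set `A ⊆ Words S N` such that every polynomial function of degree `≤ m` which is nonzero somewhere on `SL₂(F)` is nonzero at some `a ∈ A`; take `m = 40`. First `u ∈ A` with `tr u (tr u² - 1) (tr u² - 4) ≠ 0` (nonzero somewhere since `tr (uu s * vv 1) = 2 + s` takes all values and `|F| ≥ 1000`). For this `u ≠ ±1` (its trace is not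
`±2`) and `x = tr u` the function `v ↦ tr v * κ * (κ + 1) * (x² - κ - 3) * (x² - κ - 4)`, `κ = tr (u v u⁻¹ v⁻¹) - 2` (`tr_comm`), has degree `≤ 1 + 8` and is nonzero at some `v` of the form `uu s * vv t * uu r`: every factor is a nonzero polynomial in `(s, t, r)` of degree at most 2 (4 for the products with `κ`, in each variable 2): `tr v`: coefficient of `t s` is 1; `κ`: `nonDeg` (there is a `g` with `tr [g, b] ≠ 2`); each
`κ - c` with `c ≠ 0` is nonzero at `v = 1`; if `c = 0` it is `κ` again. Choose `s`, then `t`, then `r` as in `quad_ne` in `NonDeg.lean` (nonzero polynomials in one variable of total degree `≤ 2 * 5` have a common non-root as `|F| ≥ 1000`). Regular element: first part of `triple` (take the maximum of the two `N`).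
-/

set_option autoImplicit false

namespace AAC

open Matrix Module Polynomial Pool.Agent.Helper72.TV Pool.Agent.Helper72.PT Pool.Agent.Helper72.PF TRS

/-- polynomial functions of bounded degree -/
private def PFn {F : Type} [Field F] (m : ℕ) (f : SL2 F → F) : Prop :=
  ∃ p : MvPolynomial (Fin 2 × Fin 2) F, p.totalDegree ≤ m ∧ ∀ g : SL2 F,
    MvPolynomial.eval (fun ij => (g : Matrix (Fin 2) (Fin 2) F) ij.1 ij.2) p = f g

private theorem PFn.mono {F : Type} [Field F] {m n : ℕ} {f : SL2 F → F} (h : PFn m f)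
    (hmn : m ≤ n) : PFn n f := by
  obtain ⟨p, h1, h2⟩ := h
  exact ⟨p, h1.trans hmn, h2⟩

private theorem PFn.const {F : Type} [Field F] (c : F) : PFn 0 (fun _ : SL2 F => c) :=
  ⟨MvPolynomial.C c, by rw [MvPolynomial.totalDegree_C], fun g => by rw [MvPolynomial.eval_C]⟩

private theorem PFn.ent {F : Type} [Field F] (i j : Fin 2) :
    PFn 1 (fun g : SL2 F => (g : Matrix (Fin 2) (Fin 2) F) i j) :=
  ⟨MvPolynomial.X (i, j), by rw [MvPolynomial.totalDegree_X],
    fun g => by rw [MvPolynomial.eval_X]⟩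

private theorem PFn.add {F : Type} [Field F] {m : ℕ} {f f' : SL2 F → F} (h : PFn m f)
    (h' : PFn m f') : PFn m (fun g => f g + f' g) := by
  obtain ⟨p, h1, h2⟩ := h
  obtain ⟨q, h3, h4⟩ := h'
  exact ⟨p + q, (MvPolynomial.totalDegree_add _ _).trans (max_le h1 h3),
    fun g => by rw [map_add, h2, h4]⟩

private theorem PFn.mul {F : Type} [Field F] {m n : ℕ} {f f' : SL2 F → F} (h : PFn m f)
    (h' : PFn n f') : PFn (m + n) (fun g => f g * f' g) := by
  obtain ⟨p, h1, h2⟩ := h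
  obtain ⟨q, h3, h4⟩ := h'
  exact ⟨p * q, (MvPolynomial.totalDegree_mul _ _).trans (add_le_add h1 h3),
    fun g => by rw [map_mul, h2, h4]⟩

private theorem PFn.neg {F : Type} [Field F] {m : ℕ} {f : SL2 F → F} (h : PFn m f) :
    PFn m (fun g => -f g) := by
  have h1 := ((PFn.const (-1 : F)).mul h).mono (by omega : 0 + m ≤ m)
  obtain ⟨p, h2, h3⟩ := h1
  exact ⟨p, h2, fun g => by rw [h3]; ring⟩

/-- matrices of polynomial functions -/
private def PMx {F : Type} [Field F] (m : ℕ) (A : SL2 F → Matrix (Fin 2) (Fin 2) F) : Prop :=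
  ∀ i j, PFn m (fun g => A g i j)

private theorem PMx.const {F : Type} [Field F] (M : Matrix (Fin 2) (Fin 2) F) :
    PMx 0 (fun _ : SL2 F => M) := fun i j => PFn.const (M i j)

private theorem PMx.self {F : Type} [Field F] :
    PMx 1 (fun g : SL2 F => (g : Matrix (Fin 2) (Fin 2) F)) := fun i j => PFn.ent i j

private theorem PMx.inv {F : Type} [Field F] :
    PMx 1 (fun g : SL2 F => ((g⁻¹ : SL2 F) : Matrix (Fin 2) (Fin 2) F)) := by
  intro i j
  simp only [inv_coe]
  fin_cases i <;> fin_cases j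
  · exact PFn.ent 1 1
  · exact (PFn.ent 0 1).neg
  · exact (PFn.ent 1 0).neg
  · exact PFn.ent 0 0

private theorem PMx.mul {F : Type} [Field F] {m n : ℕ}
    {A B : SL2 F → Matrix (Fin 2) (Fin 2) F} (hA : PMx m A) (hB : PMx n B) :
    PMx (m + n) (fun g => A g * B g) := by
  intro i j
  have h := ((hA i 0).mul (hB 0 j)).add ((hA i 1).mul (hB 1 j))
  obtain ⟨p, h1, h2⟩ := h
  refine ⟨p, h1, fun g => (h2 g).trans ?_⟩
  show A g i 0 * B g 0 j + A g i 1 * B g 1 j = (A g * B g) i j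
  rw [Matrix.mul_apply, Fin.sum_univ_two]

private theorem PMx.trace {F : Type} [Field F] {m : ℕ}
    {A : SL2 F → Matrix (Fin 2) (Fin 2) F} (hA : PMx m A) : PFn m (fun g => (A g).trace) := by
  have h := (hA 0 0).add (hA 1 1)
  obtain ⟨p, h1, h2⟩ := h
  refine ⟨p, h1, fun g => (h2 g).trans ?_⟩
  show A g 0 0 + A g 1 1 = (A g).trace
  rw [Matrix.trace_fin_two]

private theorem pfn_tr {F : Type} [Field F] : PFn 1 (fun g : SL2 F => tr g) :=
  (PMx.self (F := F)).trace

private theorem pfn_comm {F : Type} [Field F] (b : SL2 F) :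
    PFn 2 (fun g : SL2 F => tr (g * b * g⁻¹ * b⁻¹)) := by
  have h := (((PMx.self.mul (PMx.const (b : Matrix (Fin 2) (Fin 2) F))).mul PMx.inv).mul
    (PMx.const ((b⁻¹ : SL2 F) : Matrix (Fin 2) (Fin 2) F))).trace
  obtain ⟨p, h1, h2⟩ := h
  refine ⟨p, h1, fun g => (h2 g).trans ?_⟩
  show ((g : Matrix (Fin 2) (Fin 2) F) * (b : Matrix (Fin 2) (Fin 2) F) *
    ((g⁻¹ : SL2 F) : Matrix (Fin 2) (Fin 2) F) *
    ((b⁻¹ : SL2 F) : Matrix (Fin 2) (Fin 2) F)).trace = tr (g * b * g⁻¹ * b⁻¹)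
  unfold tr
  rw [Matrix.SpecialLinearGroup.coe_mul, Matrix.SpecialLinearGroup.coe_mul,
    Matrix.SpecialLinearGroup.coe_mul]

/-- functions given by polynomials of degree at most two -/
private def Quad {F : Type} [Field F] (f : F → F) : Prop :=
  ∃ a b c : F, ∀ x, f x = a + b * x + c * x ^ 2

private theorem quad_poly {F : Type} [Field F] {f : F → F} (hf : Quad f) (h : ∃ x, f x ≠ 0) :
    ∃ P : Polynomial F, P ≠ 0 ∧ P.natDegree ≤ 2 ∧ ∀ x, f x = P.eval x := by
  obtain ⟨a, b, c, habc⟩ := hf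
  obtain ⟨x, hx⟩ := h
  refine ⟨Polynomial.C a + Polynomial.C b * Polynomial.X + Polynomial.C c * Polynomial.X ^ 2,
    ?_, ?_, ?_⟩
  · intro h0
    apply hx
    have h1 := congrArg (Polynomial.eval x) h0
    simp only [Polynomial.eval_add, Polynomial.eval_mul, Polynomial.eval_C, Polynomial.eval_X,
      Polynomial.eval_pow, Polynomial.eval_zero] at h1
    rw [habc, h1]
  · compute_degree
  · intro x
    rw [habc]
    simp only [Polynomial.eval_add, Polynomial.eval_mul, Polynomial.eval_C, Polynomial.eval_X,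
      Polynomial.eval_pow]


/-- nonzero functions of degree at most two have a common non-zero -/
private theorem quad_ne {F ι : Type} [Field F] [Finite F] [Fintype ι]
    (hF : 2 * Fintype.card ι < Nat.card F) (f : ι → F → F) (hq : ∀ i, Quad (f i))
    (h : ∀ i, ∃ x, f i x ≠ 0) : ∃ x, ∀ i, f i x ≠ 0 := by
  choose P hP0 hPd hPe using fun i => quad_poly (hq i) (h i)
  have hne : ∏ i, P i ≠ 0 := Finset.prod_ne_zero_iff.2 fun i _ => hP0 i
  have hdeg : (∏ i, P i).natDegree ≤ 2 * Fintype.card ι := by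
    refine (Polynomial.natDegree_prod_le _ _).trans ?_
    refine (Finset.sum_le_card_nsmul _ _ 2 fun i _ => hPd i).trans ?_
    rw [Finset.card_univ, smul_eq_mul, mul_comm]
  obtain ⟨x, hx⟩ := Polynomial.exists_eval_ne_zero_of_natDegree_lt_card _ hne (by
    rw [← Nat.cast_card]
    exact_mod_cast lt_of_le_of_lt hdeg hF)
  rw [Polynomial.eval_prod, Finset.prod_ne_zero_iff] at hx
  exact ⟨x, fun i => by rw [hPe]; exact hx i (Finset.mem_univ i)⟩

private theorem three_ne {F ι : Type} [Field F] [Finite F] [Fintype ι]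
    (hF : 2 * Fintype.card ι < Nat.card F) (G : ι → F → F → F → F)
    (h1 : ∀ i t r, Quad (fun s => G i s t r)) (h2 : ∀ i s r, Quad (fun t => G i s t r))
    (h3 : ∀ i s t, Quad (fun r => G i s t r)) (hn : ∀ i, ∃ s t r, G i s t r ≠ 0) :
    ∃ s t r, ∀ i, G i s t r ≠ 0 := by
  choose s' t' r' hn using hn
  obtain ⟨s, hs⟩ := quad_ne hF (fun i s => G i s (t' i) (r' i)) (fun i => h1 i _ _)
    (fun i => ⟨s' i, hn i⟩)
  obtain ⟨t, ht⟩ := quad_ne hF (fun i t => G i s t (r' i)) (fun i => h2 i _ _)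
    (fun i => ⟨t' i, hs i⟩)
  obtain ⟨r, hr⟩ := quad_ne hF (fun i r => G i s t r) (fun i => h3 i _ _)
    (fun i => ⟨r' i, ht i⟩)
  exact ⟨s, t, r, hr⟩

private theorem Quad.sub_const {F : Type} [Field F] {f : F → F} (h : Quad f) (c : F) :
    Quad (fun x => f x - c) := by
  obtain ⟨a, b, d, h⟩ := h
  refine ⟨a - c, b, d, fun x => ?_⟩
  beta_reduce
  rw [h]
  ring

/-- trace of the commutator of `!![p, q; r, s]` and `!![e, f; c, k]` -/
private def tc {F : Type} [Field F] (e f c k p q r s : F) : F :=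
  (p * e + q * c) * (s * k + q * c) + (p * f + q * k) * (-(r * k) - p * c) +
    (r * e + s * c) * (-(s * f) - q * e) + (r * f + s * k) * (r * f + p * e)

private theorem tc_quad {F : Type} [Field F] (e f c k p0 p1 q0 q1 r0 r1 s0 s1 : F) :
    Quad (fun x => tc e f c k (p0 + p1 * x) (q0 + q1 * x) (r0 + r1 * x) (s0 + s1 * x) - 2) := by
  refine ⟨tc e f c k p0 q0 r0 s0 - 2,
    (p1 * e + q1 * c) * (s0 * k + q0 * c) + (p0 * e + q0 * c) * (s1 * k + q1 * c) +
    (p1 * f + q1 * k) * (-(r0 * k) - p0 * c) + (p0 * f + q0 * k) * (-(r1 * k) - p1 * c) +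
    (r1 * e + s1 * c) * (-(s0 * f) - q0 * e) + (r0 * e + s0 * c) * (-(s1 * f) - q1 * e) +
    (r1 * f + s1 * k) * (r0 * f + p0 * e) + (r0 * f + s0 * k) * (r1 * f + p1 * e),
    tc e f c k p1 q1 r1 s1, fun x => ?_⟩
  unfold tc
  ring

private theorem coe_g {F : Type} [Field F] (s t r : F) :
    ((uu s * vv t * uu r : SL2 F) : Matrix (Fin 2) (Fin 2) F) =
      !![1 + s * t, s + r + s * t * r; t, 1 + t * r] := by
  rw [Matrix.SpecialLinearGroup.coe_mul, Matrix.SpecialLinearGroup.coe_mul, uu_coe, uu_coe, vv_coe,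
    Matrix.mul_fin_two, Matrix.mul_fin_two]
  ext i j
  fin_cases i <;> fin_cases j <;> simp <;> ring

private theorem tr_comm2 {F : Type} [Field F] (b : SL2 F) (s t r : F) :
    tr ((uu s * vv t * uu r) * b * (uu s * vv t * uu r)⁻¹ * b⁻¹) =
      tc ((b : Matrix (Fin 2) (Fin 2) F) 0 0) ((b : Matrix (Fin 2) (Fin 2) F) 0 1)
        ((b : Matrix (Fin 2) (Fin 2) F) 1 0) ((b : Matrix (Fin 2) (Fin 2) F) 1 1)
        (1 + s * t) (s + r + s * t * r) t (1 + t * r) := by
  have hb : (b : Matrix (Fin 2) (Fin 2) F) = !![(b : Matrix (Fin 2) (Fin 2) F) 0 0,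
      (b : Matrix (Fin 2) (Fin 2) F) 0 1; (b : Matrix (Fin 2) (Fin 2) F) 1 0,
      (b : Matrix (Fin 2) (Fin 2) F) 1 1] := Matrix.eta_fin_two _
  generalize (b : Matrix (Fin 2) (Fin 2) F) 0 0 = e at hb
  generalize (b : Matrix (Fin 2) (Fin 2) F) 0 1 = f at hb
  generalize (b : Matrix (Fin 2) (Fin 2) F) 1 0 = c at hb
  generalize (b : Matrix (Fin 2) (Fin 2) F) 1 1 = k at hb
  unfold tr
  rw [Matrix.SpecialLinearGroup.coe_mul, Matrix.SpecialLinearGroup.coe_mul,
    Matrix.SpecialLinearGroup.coe_mul, Matrix.SpecialLinearGroup.coe_inv,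
    Matrix.SpecialLinearGroup.coe_inv, coe_g, hb, Matrix.adjugate_fin_two_of,
    Matrix.adjugate_fin_two_of, Matrix.mul_fin_two, Matrix.mul_fin_two, Matrix.mul_fin_two,
    Matrix.trace_fin_two_of]
  unfold tc
  ring

private theorem exists_good {F : Type} [Field F] [Finite F] (hF : 1000 ≤ Nat.card F) (b : SL2 F)
    (hb1 : (b : Matrix (Fin 2) (Fin 2) F) ≠ 1) (hb2 : (b : Matrix (Fin 2) (Fin 2) F) ≠ -1)
    (cc : Fin 4 → F) :
    ∃ g : SL2 F, tr g ≠ 0 ∧ ∀ j, tr (g * b * g⁻¹ * b⁻¹) - 2 - cc j ≠ 0 := by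
  have hdet := det_eq b
  obtain ⟨e, he⟩ : ∃ e, (b : Matrix (Fin 2) (Fin 2) F) 0 0 = e := ⟨_, rfl⟩
  obtain ⟨f, hf⟩ : ∃ f, (b : Matrix (Fin 2) (Fin 2) F) 0 1 = f := ⟨_, rfl⟩
  obtain ⟨c, hc⟩ : ∃ c, (b : Matrix (Fin 2) (Fin 2) F) 1 0 = c := ⟨_, rfl⟩
  obtain ⟨k, hk⟩ : ∃ k, (b : Matrix (Fin 2) (Fin 2) F) 1 1 = k := ⟨_, rfl⟩
  rw [he, hf, hc, hk] at hdet
  have hbm : (b : Matrix (Fin 2) (Fin 2) F) = !![e, f; c, k] := by
    rw [← he, ← hf, ← hc, ← hk]
    exact Matrix.eta_fin_two _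
  obtain ⟨g2, hg2⟩ : ∃ g2 : F → F → F → F, ∀ s t r, g2 s t r = 2 + t * (s + r) :=
    ⟨_, fun _ _ _ => rfl⟩
  obtain ⟨g3, hg3⟩ : ∃ g3 : F → F → F → F, ∀ s t r, g3 s t r =
      tc e f c k (1 + s * t) (s + r + s * t * r) t (1 + t * r) - 2 := ⟨_, fun _ _ _ => rfl⟩
  have n2 : ∃ s t r, g2 s t r ≠ 0 := by
    by_contra hcon
    push Not at hcon
    have e1 := hcon 0 0 0
    have e2 := hcon 1 1 0
    rw [hg2] at e1 e2
    exact one_ne_zero (by linear_combination e2 - e1 : (1 : F) = 0)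
  have n3 : ∃ s t r, g3 s t r ≠ 0 := by
    by_cases hc0 : c = 0
    · by_cases hf0 : f = 0
      · refine ⟨1, 1, 0, ?_⟩
        rw [hg3]
        unfold tc
        subst hc0
        subst hf0
        have h1 : e - k ≠ 0 := by
          intro h
          have h2 : k = e := by linear_combination -h
          subst h2
          have h3 : (k - 1) * (k + 1) = 0 := by linear_combination hdet
          rcases mul_eq_zero.1 h3 with h4 | h4
          · apply hb1
            rw [hbm]
            have h5 : k = 1 := by linear_combination h4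
            rw [h5, Matrix.one_fin_two]
          · apply hb2
            rw [hbm]
            have h5 : k = -1 := by linear_combination h4
            rw [h5, Matrix.one_fin_two]
            ext i j
            fin_cases i <;> fin_cases j <;> simp
        intro h0
        apply h1
        have h6 : (e - k) ^ 2 = 0 := by linear_combination -h0 + 2 * hdet
        exact pow_eq_zero_iff (two_ne_zero) |>.1 h6
      · refine ⟨0, 1, 0, ?_⟩
        rw [hg3]
        unfold tc
        intro h0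
        apply hf0
        have h6 : f ^ 2 = 0 := by linear_combination h0 - 2 * hdet
        exact pow_eq_zero_iff (two_ne_zero) |>.1 h6
    · refine ⟨1, 0, 0, ?_⟩
      rw [hg3]
      unfold tc
      intro h0
      apply hc0
      have h6 : c ^ 2 = 0 := by linear_combination h0 - 2 * hdet
      exact pow_eq_zero_iff (two_ne_zero) |>.1 h6
  have n4 : ∀ d : F, ∃ s t r, g3 s t r - d ≠ 0 := by
    intro d
    by_cases hd : d = 0
    · obtain ⟨s, t, r, h⟩ := n3
      exact ⟨s, t, r, by rwa [hd, sub_zero]⟩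
    · refine ⟨0, 0, 0, ?_⟩
      rw [hg3]
      unfold tc
      intro h0
      apply hd
      linear_combination -h0 + 2 * hdet
  have q1 : ∀ t r, Quad (fun s => g3 s t r) := by
    intro t r
    have := tc_quad e f c k 1 t r (1 + t * r) t 0 (1 + t * r) 0
    obtain ⟨a, b', c', h⟩ := this
    refine ⟨a, b', c', fun s => ?_⟩
    rw [← h]
    beta_reduce
    rw [hg3]
    unfold tc
    ring
  have q2 : ∀ s r, Quad (fun t => g3 s t r) := by
    intro s r
    have := tc_quad e f c k 1 s (s + r) (s * r) 0 1 1 r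
    obtain ⟨a, b', c', h⟩ := this
    refine ⟨a, b', c', fun t => ?_⟩
    rw [← h]
    beta_reduce
    rw [hg3]
    unfold tc
    ring
  have q3 : ∀ s t, Quad (fun r => g3 s t r) := by
    intro s t
    have := tc_quad e f c k (1 + s * t) 0 s (1 + s * t) t 0 1 t
    obtain ⟨a, b', c', h⟩ := this
    refine ⟨a, b', c', fun r => ?_⟩
    rw [← h]
    beta_reduce
    rw [hg3]
    unfold tc
    ring
  have hcard : 2 * Fintype.card (Option (Fin 4)) < Nat.card F := by
    rw [Fintype.card_option, Fintype.card_fin]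
    omega
  obtain ⟨s, t, r, h⟩ := three_ne hcard
    (fun i s t r => Option.elim i (g2 s t r) (fun j => g3 s t r - cc j))
    (by
      rintro (_ | j) t r
      · exact ⟨2 + t * r, t, 0, fun s => by simp only [Option.elim]; rw [hg2]; ring⟩
      · exact (q1 t r).sub_const (cc j))
    (by
      rintro (_ | j) s r
      · exact ⟨2, s + r, 0, fun t => by simp only [Option.elim]; rw [hg2]; ring⟩
      · exact (q2 s r).sub_const (cc j))
    (by
      rintro (_ | j) s t
      · exact ⟨2 + t * s, t, 0, fun r => by simp only [Option.elim]; rw [hg2]; ring⟩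
      · exact (q3 s t).sub_const (cc j))
    (by
      rintro (_ | j)
      · exact n2
      · exact n4 (cc j))
  refine ⟨uu s * vv t * uu r, ?_, fun j => ?_⟩
  · have h2 := h none
    simp only [Option.elim] at h2
    rw [hg2] at h2
    have htr : tr (uu s * vv t * uu r : SL2 F) = 2 + t * (s + r) := by
      unfold tr
      rw [coe_g, Matrix.trace_fin_two_of]
      ring
    rw [htr]
    exact h2
  · have h2 := h (some j)
    simp only [Option.elim] at h2
    rw [hg3] at h2
    rw [tr_comm2, he, hf, hc, hk]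
    exact h2

private theorem exists_tr {F : Type} [Field F] [Finite F] (hF : 1000 ≤ Nat.card F) :
    ∃ g : SL2 F, tr g * (tr g * tr g + -1) * (tr g * tr g + -4) ≠ 0 := by
  classical
  have := Fintype.ofFinite F
  have h1 : ({0, 1, -1, 2, -2} : Finset F).card < (Finset.univ : Finset F).card := by
    rw [Finset.card_univ, ← Nat.card_eq_fintype_card]
    have := Finset.card_le_five (a := (0 : F)) (b := 1) (c := -1) (d := 2) (e := -2)
    omega
  obtain ⟨y, -, hy⟩ := Finset.exists_mem_notMem_of_card_lt_card h1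
  simp only [Finset.mem_insert, Finset.mem_singleton, not_or] at hy
  obtain ⟨y0, y1, y2, y3, y4⟩ := hy
  refine ⟨uu (y - 2) * vv 1, ?_⟩
  have htr : tr (uu (y - 2) * vv 1 : SL2 F) = y := by
    unfold tr
    rw [Matrix.SpecialLinearGroup.coe_mul, uu_coe, vv_coe, Matrix.mul_fin_two,
      Matrix.trace_fin_two_of]
    ring
  rw [htr]
  have e1 : y * y + -1 = (y - 1) * (y - (-1)) := by ring
  have e2 : y * y + -4 = (y - 2) * (y - (-2)) := by ring
  rw [e1, e2]
  exact mul_ne_zero (mul_ne_zero y0 (mul_ne_zero (sub_ne_zero.2 y1) (sub_ne_zero.2 y2)))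
    (mul_ne_zero (sub_ne_zero.2 y3) (sub_ne_zero.2 y4))

theorem esc2 : ∃ N : ℕ, 1 ≤ N ∧ ∀ (F : Type) [Field F] [Finite F], 1000 ≤ Nat.card F →
    ∀ S : Set (SL2 F), Subgroup.closure S = ⊤ →
      (∃ g ∈ Words S N, tr g ^ 2 ≠ 4) ∧
      ∃ u v : SL2 F, u ∈ Words S N ∧ v ∈ Words S N ∧ nd (tr u) (tr v) (tr (u * v)) ≠ 0 := by
  obtain ⟨N, hN1, hN⟩ := escPoly 40
  refine ⟨N, hN1, ?_⟩
  intro F _ _ hF S hS
  obtain ⟨A, hA, hc, hesc⟩ := hN F S hS
  have hfn : ∀ f : SL2 F → F, PFn 40 f → (∃ g, f g ≠ 0) → ∃ a ∈ A, f a ≠ 0 := by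
    intro f hf hg
    obtain ⟨p, h1, h2⟩ := hf
    obtain ⟨g, hg⟩ := hg
    obtain ⟨a, ha, ha2⟩ := hesc p h1 ⟨g, by rw [h2]; exact hg⟩
    exact ⟨a, ha, by rwa [h2] at ha2⟩
  have hsq : PFn 2 (fun g : SL2 F => tr g * tr g) := pfn_tr.mul pfn_tr
  have hp1 : PFn 40 (fun g : SL2 F => tr g * (tr g * tr g + -1) * (tr g * tr g + -4)) :=
    ((pfn_tr.mul (hsq.add ((PFn.const (-1 : F)).mono (by omega)))).mul
      (hsq.add ((PFn.const (-4 : F)).mono (by omega)))).mono (by omega)
  obtain ⟨u, hu, hu2⟩ := hfn _ hp1 (exists_tr hF)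
  beta_reduce at hu2
  have hx0 : tr u ≠ 0 := left_ne_zero_of_mul (left_ne_zero_of_mul hu2)
  have hx1 : tr u * tr u + -1 ≠ 0 := right_ne_zero_of_mul (left_ne_zero_of_mul hu2)
  have hx4 : tr u * tr u + -4 ≠ 0 := right_ne_zero_of_mul hu2
  have hb1 : (u : Matrix (Fin 2) (Fin 2) F) ≠ 1 := by
    intro h
    apply hx4
    unfold tr
    rw [h, Matrix.trace_one, Fintype.card_fin]
    push_cast
    ring
  have hb2 : (u : Matrix (Fin 2) (Fin 2) F) ≠ -1 := by
    intro h
    apply hx4
    unfold tr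
    rw [h, Matrix.trace_neg, Matrix.trace_one, Fintype.card_fin]
    push_cast
    ring
  refine ⟨⟨u, hA hu, fun h => hx4 (by linear_combination h)⟩, ?_⟩
  obtain ⟨K, hK⟩ : ∃ K : SL2 F → F, ∀ g, K g = tr (g * u * g⁻¹ * u⁻¹) := ⟨_, fun _ => rfl⟩
  have hKp : PFn 2 K := by
    have h := pfn_comm u
    obtain ⟨p, h1, h2⟩ := h
    exact ⟨p, h1, fun g => by rw [h2, hK]⟩
  have hKc : ∀ d : F, PFn 2 (fun g : SL2 F => K g + d) := fun d =>
    hKp.add ((PFn.const d).mono (by omega))
  have hp2 : PFn 40 (fun g : SL2 F => tr g * (K g + (-2)) * (K g + (-1)) *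
      (K g + (-(tr u ^ 2 - 1))) * (K g + (-(tr u ^ 2 - 2)))) :=
    ((((pfn_tr.mul (hKc _)).mul (hKc _)).mul (hKc _)).mul (hKc _)).mono (by omega)
  obtain ⟨g, hg0, hg⟩ := exists_good hF u hb1 hb2 ![0, -1, tr u ^ 2 - 3, tr u ^ 2 - 4]
  obtain ⟨v, hv, hv2⟩ := hfn _ hp2 ⟨g, by
    beta_reduce
    rw [hK]
    have k0 := hg 0
    have k1 := hg 1
    have k2 := hg 2
    have k3 := hg 3
    simp only [Matrix.cons_val_zero, Matrix.cons_val_one, Matrix.cons_val] at k0 k1 k2 k3
    refine mul_ne_zero (mul_ne_zero (mul_ne_zero (mul_ne_zero hg0 ?_) ?_) ?_) ?_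
    · intro h
      apply k0
      linear_combination h
    · intro h
      apply k1
      linear_combination h
    · intro h
      apply k2
      linear_combination h
    · intro h
      apply k3
      linear_combination h⟩
  refine ⟨u, v, hA hu, hA hv, ?_⟩
  beta_reduce at hv2
  have hKv : kp (tr u) (tr v) (tr (u * v)) = K v - 2 := by
    rw [hK, tr_comm, tr_mul_comm v u]
    unfold kp
    ring
  unfold nd
  rw [hKv]
  have h4 := right_ne_zero_of_mul hv2
  have h3 := right_ne_zero_of_mul (left_ne_zero_of_mul hv2)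
  have h2 := right_ne_zero_of_mul (left_ne_zero_of_mul (left_ne_zero_of_mul hv2))
  have h1 := right_ne_zero_of_mul
    (left_ne_zero_of_mul (left_ne_zero_of_mul (left_ne_zero_of_mul hv2)))
  have h0 := left_ne_zero_of_mul
    (left_ne_zero_of_mul (left_ne_zero_of_mul (left_ne_zero_of_mul hv2)))
  refine mul_ne_zero (mul_ne_zero (mul_ne_zero (mul_ne_zero (mul_ne_zero (mul_ne_zero hx0 h0)
    ?_) ?_) ?_) ?_) ?_
  · intro h
    apply hx1
    linear_combination h
  · intro h
    apply h1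
    linear_combination h
  · intro h
    apply h2
    linear_combination h
  · intro h
    apply h3
    linear_combination -h
  · intro h
    apply h4
    linear_combination -h

end AAC
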