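import Pool.Agent.AAC.Defs

/-!
# AAC-Wv (0.8h)
Values and lengths of the test words. PLAN. Lists: `evw_append`, `List.map_reverse`, `List.prod_inv_reverse`; `lt a b (![1, 0, 3, 2] s) = (lt a b s)⁻¹` by `fin_cases s`. `evw_wdt` as `evw_wd` in `Helper72/PF/Defs.lean`. Lengths: `KK_eq`, `(wpow w k).length = k * w.length`, `(winv w).length = w.length`.
-/

set_option autoImplicit false

namespace AAC

open Matrix Module Polynomial Pool.Agent.Helper72.TV Pool.Agent.Helper72.PT Pool.Agent.Helper72.PF TRS

private lemma winv_cons (s : Fin 4) (l : List (Fin 4)) :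
    winv (s :: l) = winv l ++ [(![1, 0, 3, 2] : Fin 4 → Fin 4) s] := by
  unfold winv
  rw [List.map_cons, List.reverse_cons]

private lemma lt_inv {G : Type*} [Group G] (a b : G) (s : Fin 4) :
    lt a b ((![1, 0, 3, 2] : Fin 4 → Fin 4) s) = (lt a b s)⁻¹ := by
  fin_cases s
  · rfl
  · exact (inv_inv a).symm
  · rfl
  · exact (inv_inv b).symm

private lemma evw_one {G : Type*} [Group G] (a b : G) (s : Fin 4) : evw a b [s] = lt a b s := by
  rw [evw_cons, evw_nil, mul_one]

theorem evw_winv {G : Type*} [Group G] (a b : G) (w : List (Fin 4)) :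
    evw a b (winv w) = (evw a b w)⁻¹ := by
  induction w with
  | nil =>
    show evw a b [] = (evw a b [])⁻¹
    rw [evw_nil, inv_one]
  | cons s l ih =>
    rw [winv_cons, evw_append, evw_one, ih, lt_inv, evw_cons, _root_.mul_inv_rev]

private lemma wpow_succ (w : List (Fin 4)) (k : ℕ) : wpow w (k + 1) = w ++ wpow w k := by
  unfold wpow
  rw [List.replicate_succ, List.flatten_cons]

theorem evw_wpow {G : Type*} [Group G] (a b : G) (w : List (Fin 4)) (k : ℕ) :
    evw a b (wpow w k) = (evw a b w) ^ k := by
  induction k with
  | zero =>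
    rw [pow_zero]
    rfl
  | succ k ih => rw [wpow_succ, evw_append, ih, pow_succ']

theorem evw_wdt {G : Type*} [Group G] (a b : G) (i : Ty) (l : List Bool) :
    evw a b (wdt i l) = ev (evw a b (tw i true)) (evw a b (tw i false)) l := by
  induction l with
  | nil => rfl
  | cons s l ih =>
    rw [wdt_cons, evw_append, ih, ev_cons]
    cases s <;> rfl

private lemma wpow_length (w : List (Fin 4)) (k : ℕ) : (wpow w k).length = k * w.length := by
  induction k with
  | zero =>
    rw [Nat.zero_mul]
    rfl
  | succ k ih => rw [wpow_succ, List.length_append, ih, Nat.succ_mul, Nat.add_comm]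

private lemma winv_length (w : List (Fin 4)) : (winv w).length = w.length := by
  unfold winv
  rw [List.length_reverse, List.length_map]

private lemma ww_length (k : Fin 3) : (ww k).length ≤ 4 := by
  fin_cases k <;> decide

private lemma gg_length (k : Fin 3) : (gg k).length = 1 := by
  fin_cases k <;> decide

theorem tw_length (i : Ty) (s : Bool) : (tw i s).length ≤ 3210 := by
  rcases i with i | ⟨k, e⟩
  · show (pw i s).length ≤ 3210
    have := pw_length i s
    omega
  · have h1 := ww_length k
    have h2 := gg_length k
    have h3 : (wpow (ww k) KK).length ≤ 3200 := by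
      rw [wpow_length, KK_eq]
      omega
    have h4 : (wpow (winv (ww k)) KK).length ≤ 3200 := by
      rw [wpow_length, winv_length, KK_eq]
      omega
    cases s
    · show (gg k ++ (bif e then wpow (ww k) KK else wpow (winv (ww k)) KK) ++ winv (gg k)).length ≤ 3210
      rw [List.length_append, List.length_append, winv_length, h2]
      cases e
      · rw [cond_false]
        omega
      · rw [cond_true]
        omega
    · show (wpow (ww k) KK).length ≤ 3210
      omega

theorem wdt_length (i : Ty) (l : List Bool) : (wdt i l).length ≤ 3210 * l.length := by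
  induction l with
  | nil =>
    rw [wdt_nil]
    exact Nat.zero_le _
  | cons s l ih =>
    rw [wdt_cons, List.length_append, List.length_cons]
    have := tw_length i s
    omega

theorem wdt_inl (i : Fin 6) (l : List Bool) : wdt (Sum.inl i) l = wd i l := rfl

theorem evw_tw_true {G : Type*} [Group G] (a b : G) (k : Fin 3) (e : Bool) :
    evw a b (tw (Sum.inr (k, e)) true) = (evw a b (ww k)) ^ KK :=
  evw_wpow a b (ww k) KK

theorem evw_tw_false {G : Type*} [Group G] (a b : G) (k : Fin 3) :
    evw a b (tw (Sum.inr (k, true)) false) =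
        evw a b (gg k) * (evw a b (ww k)) ^ KK * (evw a b (gg k))⁻¹ ∧
      evw a b (tw (Sum.inr (k, false)) false) =
        evw a b (gg k) * ((evw a b (ww k)) ^ KK)⁻¹ * (evw a b (gg k))⁻¹ := by
  constructor
  · show evw a b (gg k ++ wpow (ww k) KK ++ winv (gg k)) = _
    rw [evw_append, evw_append, evw_winv, evw_wpow]
  · show evw a b (gg k ++ wpow (winv (ww k)) KK ++ winv (gg k)) = _
    rw [evw_append, evw_append, evw_winv, evw_wpow, evw_winv, inv_pow]

end AAC
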