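import Pool.Agent.AAC.AllT
import Pool.Agent.AAC.Esc2
import Pool.Agent.AAC.Wv
import Pool.Agent.Helper72.PF.Coef

/-!
# AAC-Bal2 (1.0h)
Growth of balls in almost all characteristics. PLAN. `N₀` from `esc2`, `N = 803 N₀` (`4 * 803 ≥ 3210`), `E` from `allT`. Embed `F` in `K = AlgebraicClosure F` of characteristic `p = ringChar F` (prime, `CharP`). For `u, v` of `esc2` the point `(tr u, tr v, tr (u v))` in `K` has `nd ≠ 0` (`nd_map`); `allT` gives a type `i`. For lists `l ≠ l'` of length `n` the coefficients differ in `K`, so in `F` (`co_map`), so `evw u v (wdt i l) ≠ evw u v (wdt i l')` (`co_of_eq`,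
`tr [u, v] - 2 = kp ≠ 0` from `nd ≠ 0`, `tr_comm`). These `2 ^ n` elements are words of length `≤ 3210 n` in `u, v`, so of length `≤ 3210 n N₀ ≤ 4 N n` in `S` (see `badc_evw`, `badc_coin` in `Helper72/PF/BadCount.lean`).
-/

set_option autoImplicit false

namespace AAC

open Matrix Module Polynomial Pool.Agent.Helper72.TV Pool.Agent.Helper72.PT Pool.Agent.Helper72.PF TRS

private theorem bal2_lt {F : Type} [Field F] {S : Set (SL2 F)} {N : ℕ}
    {a b : SL2 F} (ha : a ∈ Words S N) (hb : b ∈ Words S N) (s : Fin 4) :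
    lt a b s ∈ Words S N := by
  fin_cases s
  · exact ha
  · exact inv_mem_words ha
  · exact hb
  · exact inv_mem_words hb

private theorem bal2_evw {F : Type} [Field F] {S : Set (SL2 F)} {N : ℕ}
    {a b : SL2 F} (ha : a ∈ Words S N) (hb : b ∈ Words S N) (w : List (Fin 4)) {m : ℕ}
    (hw : w.length ≤ m) : evw a b w ∈ Words S (m * N) := by
  have h := prod_mem_words (S := S) (L := N) (w.map (lt a b)) (by
    intro x hx
    rw [List.mem_map] at hx
    obtain ⟨s, _, rfl⟩ := hx
    exact bal2_lt ha hb s)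
  rw [List.length_map] at h
  exact words_mono (Nat.mul_le_mul_right N hw) h

private theorem bal2_ball {F : Type} [Field F] [Finite F] {S : Set (SL2 F)} {N n : ℕ}
    {a b : SL2 F} (ha : a ∈ Words S N) (hb : b ∈ Words S N) (k : Ty)
    (hk : ∀ l l' : List Bool, l.length = n → l'.length = n →
      evw a b (wdt k l) = evw a b (wdt k l') → l = l') :
    2 ^ n ≤ ball S (4 * (803 * N) * n) := by
  have hinj : Function.Injective (fun l : Fin n → Bool => evw a b (wdt k (List.ofFn l))) := by
    intro l l' h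
    exact List.ofFn_injective (hk _ _ List.length_ofFn List.length_ofFn h)
  have hsub : Set.range (fun l : Fin n → Bool => evw a b (wdt k (List.ofFn l))) ⊆
      Words S (4 * (803 * N) * n) := by
    rintro g ⟨l, rfl⟩
    have h1 : (wdt k (List.ofFn l)).length ≤ 3212 * n := by
      have := wdt_length k (List.ofFn l)
      rw [List.length_ofFn] at this
      omega
    have h2 := bal2_evw ha hb (wdt k (List.ofFn l)) h1
    have h3 : 3212 * n * N = 4 * (803 * N) * n := by ring
    rwa [h3] at h2
  have h4 := Set.ncard_le_ncard hsub (Set.toFinite _)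
  have h5 : (Set.range (fun l : Fin n → Bool => evw a b (wdt k (List.ofFn l)))).ncard =
      2 ^ n := by
    rw [Set.ncard_range_of_injective hinj, Nat.card_eq_fintype_card, Fintype.card_fun,
      Fintype.card_bool, Fintype.card_fin]
  rw [h5] at h4
  exact h4

theorem bal2 : ∃ N : ℕ, 1 ≤ N ∧ ∀ n : ℕ, 1 ≤ n → ∃ E : Finset ℕ, E.card ≤ 2 ^ (1048 * n) ∧
    ∀ (F : Type) [Field F] [Finite F], 1000 ≤ Nat.card F → ringChar F ∉ E →
      ∀ S : Set (SL2 F), Subgroup.closure S = ⊤ →
        (∃ g ∈ Words S N, tr g ^ 2 ≠ 4) ∧ 2 ^ n ≤ ball S (4 * N * n) := by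
  obtain ⟨N, hN, hmain⟩ := esc2
  refine ⟨803 * N, by omega, fun n hn => ?_⟩
  obtain ⟨E, hE, hall⟩ := allT n hn
  refine ⟨E, hE, fun F _ _ hF hp S hS => ?_⟩
  obtain ⟨⟨g, hg, hgt⟩, u, v, hu, hv, hnd⟩ := hmain F hF S hS
  refine ⟨⟨g, words_mono (by omega) hg, hgt⟩, ?_⟩
  have hchar : CharP F (ringChar F) := ringChar.charP F
  have hprime : Fact (ringChar F).Prime := ⟨CharP.char_is_prime F (ringChar F)⟩
  have hchK : CharP (AlgebraicClosure F) (ringChar F) :=
    charP_of_injective_algebraMap (algebraMap F (AlgebraicClosure F)).injective (ringChar F)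
  have hcomm : tr (u * v * u⁻¹ * v⁻¹) ≠ 2 := by
    intro h
    apply hnd
    rw [tr_comm] at h
    have h1 : kp (tr u) (tr v) (tr (u * v)) = 0 := by
      unfold kp
      linear_combination h
    unfold nd
    rw [h1]
    ring
  have hndK : nd (algebraMap F (AlgebraicClosure F) (tr u))
      (algebraMap F (AlgebraicClosure F) (tr v))
      (algebraMap F (AlgebraicClosure F) (tr (u * v))) ≠ 0 := by
    rw [← nd_map]
    intro h
    apply hnd
    apply (algebraMap F (AlgebraicClosure F)).injective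
    rw [h, map_zero]
  obtain ⟨i, hi⟩ := hall (K := AlgebraicClosure F) (ringChar F) hp _ _ _ hndK
  refine bal2_ball hu hv i fun l l' hl hl' he => ?_
  by_contra hne
  obtain ⟨j, hj⟩ := hi l l' hl hl' hne
  apply hj
  rw [← co_map, ← co_map, co_of_eq u v hcomm _ _ he j]

end AAC
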