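import Pool.Agent.AAC.L1

/-!
# AAC-BdZ (1.0h)
The predicate `Bd`. PLAN. As `TRS/Deg.lean` together with the norm lemmas. `Bd.det`: `Matrix.det_apply`, `k!` permutations, each product of `k` entries; `l2` of a finite sum is at most the sum of the `l2` (induction), `l2` of a product at most the product; sign is `±1`.
-/

set_option autoImplicit false

namespace AAC

open Matrix Module Polynomial Pool.Agent.Helper72.TV Pool.Agent.Helper72.PT Pool.Agent.Helper72.PF TRS

private theorem bz_det {R : Type*} [CommRing R] {D k : ℕ} (M : Matrix (Fin k) (Fin k) R[X])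
    (h : ∀ i j, (M i j).natDegree ≤ D) : M.det.natDegree ≤ k * D := by
  classical
  rw [Matrix.det_apply]
  refine Polynomial.natDegree_sum_le_of_forall_le _ _ fun σ _ => ?_
  have hprod : (∏ i, M (σ i) i).natDegree ≤ k * D := by
    refine (Polynomial.natDegree_prod_le _ _).trans ?_
    refine (Finset.sum_le_sum fun i _ => h (σ i) i).trans ?_
    rw [Finset.sum_const, Finset.card_univ, Fintype.card_fin, smul_eq_mul]
  rcases Int.units_eq_one_or (Equiv.Perm.sign σ) with hs | hs
  · rw [hs, one_smul]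
    exact hprod
  · rw [hs, Units.neg_smul, one_smul, Polynomial.natDegree_neg]
    exact hprod

private theorem bz_sum {ι : Type*} (s : Finset ι) (f : ι → ℤ[X][X]) :
    l2 (∑ i ∈ s, f i) ≤ ∑ i ∈ s, l2 (f i) := by
  classical
  induction s using Finset.induction_on with
  | empty => rw [Finset.sum_empty, Finset.sum_empty, l2_zero]
  | insert a s ha ih =>
    rw [Finset.sum_insert ha, Finset.sum_insert ha]
    exact (l2_add _ _).trans (Nat.add_le_add_left ih _)

private theorem bz_prod {ι : Type*} (s : Finset ι) (f : ι → ℤ[X][X]) :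
    l2 (∏ i ∈ s, f i) ≤ ∏ i ∈ s, l2 (f i) := by
  classical
  induction s using Finset.induction_on with
  | empty => rw [Finset.prod_empty, Finset.prod_empty, l2_one]
  | insert a s ha ih =>
    rw [Finset.prod_insert ha, Finset.prod_insert ha]
    exact (l2_mul _ _).trans (Nat.mul_le_mul_left _ ih)

private theorem bz_l2det {H k : ℕ} (M : Matrix (Fin k) (Fin k) ℤ[X][X])
    (h : ∀ i j, l2 (M i j) ≤ H) : l2 M.det ≤ k.factorial * H ^ k := by
  classical
  rw [Matrix.det_apply]
  refine (bz_sum _ _).trans ?_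
  have h1 : ∀ σ ∈ (Finset.univ : Finset (Equiv.Perm (Fin k))),
      l2 (Equiv.Perm.sign σ • ∏ i, M (σ i) i) ≤ H ^ k := by
    intro σ _
    have hprod : l2 (∏ i, M (σ i) i) ≤ H ^ k := by
      refine (bz_prod _ _).trans ?_
      refine (Finset.prod_le_prod' fun i _ => h (σ i) i).trans ?_
      rw [Finset.prod_const, Finset.card_univ, Fintype.card_fin]
    rcases Int.units_eq_one_or (Equiv.Perm.sign σ) with hs | hs
    · rw [hs, one_smul]
      exact hprod
    · rw [hs, Units.neg_smul, one_smul, l2_neg]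
      exact hprod
  refine (Finset.sum_le_card_nsmul _ _ _ h1).trans ?_
  rw [Finset.card_univ, Fintype.card_perm, Fintype.card_fin, smul_eq_mul]

theorem Bd.mono {D H D' H' : ℕ} {r : ℤ[X][X]} (h : Bd D H r) (h1 : D ≤ D') (h2 : H ≤ H') :
    Bd D' H' r := by
  exact ⟨h.1.trans h1, h.2.1.trans h1, h.2.2.trans h2⟩

theorem bd_zero (D H : ℕ) : Bd D H 0 := by
  refine ⟨?_, ?_, ?_⟩
  · rw [natDegree_zero]
    exact Nat.zero_le D
  · rw [map_zero, natDegree_zero]
    exact Nat.zero_le D
  · rw [l2_zero]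
    exact Nat.zero_le H

theorem bd_one (D H : ℕ) (hH : 1 ≤ H) : Bd D H 1 := by
  refine ⟨?_, ?_, ?_⟩
  · rw [natDegree_one]
    exact Nat.zero_le D
  · rw [map_one, natDegree_one]
    exact Nat.zero_le D
  · rw [l2_one]
    exact hH

theorem Bd.add {D H H' : ℕ} {r s : ℤ[X][X]} (h : Bd D H r) (h' : Bd D H' s) :
    Bd D (H + H') (r + s) := by
  refine ⟨natDegree_add_le_of_degree_le h.1 h'.1, ?_,
    (l2_add _ _).trans (Nat.add_le_add h.2.2 h'.2.2)⟩
  rw [map_add]
  exact natDegree_add_le_of_degree_le h.2.1 h'.2.1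

theorem Bd.neg {D H : ℕ} {r : ℤ[X][X]} (h : Bd D H r) : Bd D H (-r) := by
  refine ⟨?_, ?_, ?_⟩
  · rw [natDegree_neg]
    exact h.1
  · rw [map_neg, natDegree_neg]
    exact h.2.1
  · rw [l2_neg]
    exact h.2.2

theorem Bd.mul {D H D' H' : ℕ} {r s : ℤ[X][X]} (h : Bd D H r) (h' : Bd D' H' s) :
    Bd (D + D') (H * H') (r * s) := by
  refine ⟨natDegree_mul_le.trans (Nat.add_le_add h.1 h'.1), ?_,
    (l2_mul _ _).trans (Nat.mul_le_mul h.2.2 h'.2.2)⟩
  rw [map_mul]
  exact natDegree_mul_le.trans (Nat.add_le_add h.2.1 h'.2.1)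

theorem Bd.det {D H k : ℕ} (M : Matrix (Fin k) (Fin k) ℤ[X][X]) (h : ∀ i j, Bd D H (M i j)) :
    Bd (k * D) (k.factorial * H ^ k) M.det := by
  refine ⟨bz_det M fun i j => (h i j).1, ?_, bz_l2det M fun i j => (h i j).2.2⟩
  have h1 : Bivariate.swap M.det = (M.map (Bivariate.swap (R := ℤ))).det :=
    RingHom.map_det (Bivariate.swap (R := ℤ)).toRingEquiv.toRingHom M
  rw [h1]
  exact bz_det _ fun i j => (h i j).2.1

theorem Bd.swap {D H : ℕ} {r : ℤ[X][X]} (h : Bd D H r) : Bd D H (Bivariate.swap r) := by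
  refine ⟨h.2.1, ?_, ?_⟩
  · rw [Bivariate.swap_swap_apply]
    exact h.1
  · rw [l2_swap]
    exact h.2.2

end AAC
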