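import Pool.Agent.AAC.Defs

/-!
# AAC-Tht (1.5h)
Reduction of algebraic integers and lifting of roots. PLAN. `exists_theta`: `ZB` is integral over `ℤ`; a prime `P` of `ZB` over `(p)` (`Ideal.exists_ideal_over_prime_of_isIntegral` or `Ideal.exists_ideal_over_maximal_of_isIntegral`; lying over), `ZB ⧸ P` is an integral domain, algebraic over `ZMod p` (quotient of an integral extension), embed it (its fraction field, or directly `IsAlgClosed.lift` for algebraic domains) into `K`, an algebraically
closed `ZMod p`-algebra. `liftRoot`: `N = integralNormalization R` is monic over `ℤ` (`Polynomial.monic_integralNormalization`), splits over `AlgebraicClosure ℚ`: `N.map = ∏ (X - C α)` over the multiset of roots, all `α` integral over `ℤ`, so in `ZB`: `N.map (algebraMap ℤ ZB) = ∏ (X - C α)` in `ZB[X]` (injectivity of `ZB → AlgebraicClosure ℚ`); apply `θ`: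
`N.map = ∏ (X - C (θ α))` over `K`. `a * x` (`a` the leading coefficient) is a root of `N` over `K` (`integralNormalization_eval₂_eq_zero_of_commute` or `integralNormalization_aeval_eq_zero`; if `natDegree R = 0` the hypotheses contradict each other), so `a x = θ α` for some root `α`; and `α / a` is a root of `R` (the converse relation between `R` and `N` over the field
`AlgebraicClosure ℚ`: `N (a t) = a ^ (d-1) * R t`, prove it once for a general field or use the Mathlib lemma on `eval₂ integralNormalization`).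
-/

set_option autoImplicit false

namespace AAC

open Matrix Module Polynomial Pool.Agent.Helper72.TV Pool.Agent.Helper72.PT Pool.Agent.Helper72.PF TRS

theorem exists_theta (p : ℕ) [Fact p.Prime] (K : Type) [Field K] [IsAlgClosed K] [CharP K p] :
    Nonempty (ZB →+* K) := by
  have hp : p.Prime := Fact.out
  let P : Ideal ℤ := Ideal.span {(p : ℤ)}
  have hP : P.IsPrime := by
    rw [Ideal.span_singleton_prime (by exact_mod_cast hp.ne_zero)]
    exact Nat.prime_iff_prime_int.1 hp
  have hinj : Function.Injective (algebraMap ℤ ZB) := by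
    intro a b h
    have h1 : (algebraMap ℤ ZB a : AlgebraicClosure ℚ) = algebraMap ℤ ZB b := by rw [h]
    have h2 : ((a : ℤ) : AlgebraicClosure ℚ) = (b : ℤ) := by simpa using h1
    exact_mod_cast h2
  have hint : Algebra.IsIntegral ℤ ZB := inferInstance
  obtain ⟨Q, -, hQ, hQP⟩ := Ideal.exists_ideal_over_prime_of_isIntegral (S := ZB) P ⊥ (by
    intro x hx
    rw [Ideal.mem_comap, Ideal.mem_bot] at hx
    have : x = 0 := hinj (by rw [hx, map_zero])
    rw [this]
    exact P.zero_mem)
  have hpQ : ((p : ℕ) : ZB ⧸ Q) = 0 := by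
    have h1 : (p : ℤ) ∈ Q.comap (algebraMap ℤ ZB) := by
      rw [hQP]
      exact Ideal.mem_span_singleton_self _
    have h2 : algebraMap ℤ ZB (p : ℤ) ∈ Q := h1
    have h3 : Ideal.Quotient.mk Q (algebraMap ℤ ZB (p : ℤ)) = 0 :=
      Ideal.Quotient.eq_zero_iff_mem.2 h2
    rw [map_natCast, map_natCast] at h3
    exact h3
  have hne : Nontrivial (ZB ⧸ Q) := Ideal.Quotient.nontrivial_iff.2 hQ.ne_top
  have hch : CharP (ZB ⧸ Q) p := (CharP.charP_iff_prime_eq_zero hp).2 hpQ
  have hdom : IsDomain (ZB ⧸ Q) := Ideal.Quotient.isDomain Q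
  letI : Algebra (ZMod p) (ZB ⧸ Q) := ZMod.algebra (ZB ⧸ Q) p
  letI : Algebra (ZMod p) K := ZMod.algebra K p
  have halg : Algebra.IsAlgebraic (ZMod p) (ZB ⧸ Q) := by
    refine ⟨fun y => ?_⟩
    obtain ⟨x, rfl⟩ := Ideal.Quotient.mk_surjective y
    have h1 : IsIntegral ℤ x := hint.isIntegral x
    have h2 : IsIntegral ℤ (Ideal.Quotient.mk Q x) := h1.map (Ideal.Quotient.mkₐ ℤ Q)
    exact (h2.tower_top (A := ZMod p)).isAlgebraic
  exact ⟨((IsAlgClosed.lift : (ZB ⧸ Q) →ₐ[ZMod p] K) : (ZB ⧸ Q) →+* K).comp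
    (Ideal.Quotient.mk Q)⟩

theorem liftRoot {K : Type} [Field K] (θ : ZB →+* K) (R : ℤ[X]) (hR : R ≠ 0)
    (ha : (R.leadingCoeff : K) ≠ 0) (x : K) (hx : R.eval₂ (Int.castRingHom K) x = 0) :
    ∃ α : ZB, θ α = R.leadingCoeff * x ∧
      R.eval₂ (Int.castRingHom (AlgebraicClosure ℚ))
        ((α : AlgebraicClosure ℚ) / R.leadingCoeff) = 0 := by
  have hd : 1 ≤ R.natDegree := by
    by_contra h
    have h0 : R.natDegree = 0 := by omega
    rw [eq_C_of_natDegree_eq_zero h0, eval₂_C] at hx
    apply ha
    rw [Polynomial.leadingCoeff, h0]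
    exact hx
  obtain ⟨N, hN⟩ : ∃ N, N = R.integralNormalization := ⟨_, rfl⟩
  have hNm : N.Monic := by
    rw [hN]
    exact monic_integralNormalization hR
  have hmap : (N.map (Int.castRingHom (AlgebraicClosure ℚ))) =
      ((N.map (Int.castRingHom (AlgebraicClosure ℚ))).roots.map fun a => X - C a).prod :=
    (IsAlgClosed.splits _).eq_prod_roots_of_monic (hNm.map _)
  obtain ⟨s, hs⟩ : ∃ s, s = (N.map (Int.castRingHom (AlgebraicClosure ℚ))).roots := ⟨_, rfl⟩
  rw [← hs] at hmap
  have hroot : ∀ α ∈ s, N.eval₂ (Int.castRingHom (AlgebraicClosure ℚ)) α = 0 := by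
    intro α hα
    rw [hs, mem_roots (hNm.map _).ne_zero, IsRoot.def, eval_map] at hα
    exact hα
  have hin : ∀ α ∈ s, α ∈ ZB := by
    intro α hα
    exact ⟨N, hNm, hroot α hα⟩
  obtain ⟨s', hs'⟩ : ∃ s' : Multiset ZB,
      Multiset.map (fun α : ZB => (α : AlgebraicClosure ℚ)) s' = s := by
    refine ⟨s.attach.map fun α => ⟨α.1, hin α.1 α.2⟩, ?_⟩
    rw [Multiset.map_map]
    exact Multiset.attach_map_val s
  -- the factorization over the algebraic integers
  have hfac : N.map (Int.castRingHom ZB) = (s'.map fun a => X - C a).prod := by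
    have hinj : Function.Injective (algebraMap ZB (AlgebraicClosure ℚ)) :=
      Subtype.coe_injective
    apply Polynomial.map_injective _ hinj
    rw [Polynomial.map_map, Polynomial.map_multiset_prod, Multiset.map_map]
    have h1 : (algebraMap ZB (AlgebraicClosure ℚ)).comp (Int.castRingHom ZB) =
        Int.castRingHom (AlgebraicClosure ℚ) := RingHom.ext_int _ _
    rw [h1, hmap, ← hs', Multiset.map_map]
    congr 1
    refine Multiset.map_congr rfl fun α _ => ?_
    simp only [Function.comp_apply, Polynomial.map_sub, map_X, map_C]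
    rfl
  have hfacK : N.map (Int.castRingHom K) = (s'.map fun a => X - C (θ a)).prod := by
    have h1 : θ.comp (Int.castRingHom ZB) = Int.castRingHom K := RingHom.ext_int _ _
    rw [← h1, ← Polynomial.map_map, hfac, Polynomial.map_multiset_prod, Multiset.map_map]
    congr 1
    refine Multiset.map_congr rfl fun α _ => ?_
    simp only [Function.comp_apply, Polynomial.map_sub, map_X, map_C]
  have hNx : N.eval₂ (Int.castRingHom K) ((R.leadingCoeff : K) * x) = 0 := by
    have h1 := integralNormalization_eval₂_leadingCoeff_mul hd (Int.castRingHom K) x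
    rw [hx, mul_zero, ← hN] at h1
    simpa using h1
  rw [← eval_map, hfacK, eval_multiset_prod, Multiset.map_map, Multiset.prod_eq_zero_iff,
    Multiset.mem_map] at hNx
  obtain ⟨α, hα, h0⟩ := hNx
  simp only [Function.comp_apply, eval_sub, eval_X, eval_C] at h0
  refine ⟨α, (sub_eq_zero.1 h0).symm, ?_⟩
  have hαs : (α : AlgebraicClosure ℚ) ∈ s := by
    rw [← hs']
    exact Multiset.mem_map_of_mem _ hα
  have hL : (Int.castRingHom (AlgebraicClosure ℚ)) R.leadingCoeff ≠ 0 := by
    rw [eq_intCast]
    exact_mod_cast leadingCoeff_ne_zero.2 hR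
  have h1 := integralNormalization_eval₂_leadingCoeff_mul hd
    (Int.castRingHom (AlgebraicClosure ℚ)) ((α : AlgebraicClosure ℚ) / R.leadingCoeff)
  have h2 : (Int.castRingHom (AlgebraicClosure ℚ)) R.leadingCoeff *
      ((α : AlgebraicClosure ℚ) / R.leadingCoeff) = α := by
    rw [eq_intCast] at hL ⊢
    field_simp
  rw [h2, ← hN, hroot _ hαs] at h1
  have h3 := mul_eq_zero.1 h1.symm
  exact h3.resolve_left (pow_ne_zero _ hL)

end AAC
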