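import Pool.Agent.AAC.PtO
import Pool.Agent.AAC.Tht

/-!
# AAC-Pt
All closed points with coordinates roots of `R, R2`: product over pairs of roots.
-/

set_option autoImplicit false

namespace AAC

open Matrix Module Polynomial Pool.Agent.Helper72.TV Pool.Agent.Helper72.PT Pool.Agent.Helper72.PF TRS

private theorem lead_le (R : ℤ[X]) (hR : R ≠ 0) : R.leadingCoeff.natAbs ≤ l1 R := by
  unfold l1
  rw [Polynomial.sum_def]
  exact Finset.single_le_sum (f := fun i => (R.coeff i).natAbs) (fun _ _ => Nat.zero_le _)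
    (Polynomial.natDegree_mem_support_of_nonzero hR)

private theorem exists_rt (R : ℤ[X]) (hR : R ≠ 0) : ∃ s : Finset (AlgebraicClosure ℚ),
    s.card ≤ R.natDegree ∧
    ∀ ξ, R.eval₂ (Int.castRingHom (AlgebraicClosure ℚ)) ξ = 0 → ξ ∈ s := by
  classical
  refine ⟨(R.map (Int.castRingHom (AlgebraicClosure ℚ))).roots.toFinset, ?_, ?_⟩
  · exact (Multiset.toFinset_card_le _).trans
      ((Polynomial.card_roots' _).trans Polynomial.natDegree_map_le)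
  · intro ξ h
    rw [Multiset.mem_toFinset, Polynomial.mem_roots', Polynomial.IsRoot, Polynomial.eval_map]
    exact ⟨(Polynomial.map_ne_zero_iff (RingHom.injective_int _)).2 hR, h⟩

private theorem eval_CR {K : Type} [Field K] (ψ : ℤ[X][X] →+* K) (R : ℤ[X]) :
    R.eval₂ (Int.castRingHom K) (ψ (C X)) = ψ (C R) := by
  have h1 : (Int.castRingHom K) = (ψ.comp C).comp C := RingHom.ext_int _ _
  have h2 := Polynomial.hom_eval₂ R (C : ℤ →+* ℤ[X]) (ψ.comp C) X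
  rw [Polynomial.eval₂_C_X] at h2
  rw [h1]
  exact h2.symm

private theorem eval_RC {K : Type} [Field K] (ψ : ℤ[X][X] →+* K) (R : ℤ[X]) :
    R.eval₂ (Int.castRingHom K) (ψ X) = ψ (R.map C) := by
  have h1 : (Int.castRingHom K) = ψ.comp ((C : ℤ[X] →+* ℤ[X][X]).comp C) := RingHom.ext_int _ _
  have h2 := Polynomial.hom_eval₂ R ((C : ℤ[X] →+* ℤ[X][X]).comp (C : ℤ →+* ℤ[X])) ψ X
  rw [h1]
  exact h2.symm

private theorem arith {n : ℕ} (hn : 2 ≤ n) {A B M c : ℕ} (hA : A ≤ 2 ^ n ^ 120)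
    (hB : B ≤ 2 ^ n ^ 120) (hM : M ≤ (2 ^ n ^ 308) ^ c) (hc : c ≤ n ^ 74 * n ^ 74) :
    A * B * M ≤ 2 ^ n ^ 460 := by
  have h1 : (2 ^ n ^ 308) ^ c ≤ 2 ^ n ^ 456 := by
    rw [← pow_mul]
    refine Nat.pow_le_pow_right (by norm_num) ?_
    calc n ^ 308 * c ≤ n ^ 308 * (n ^ 74 * n ^ 74) := Nat.mul_le_mul_left _ hc
      _ = n ^ (308 + (74 + 74)) := by rw [← pow_add, ← pow_add]
      _ = n ^ 456 := by rw [show 308 + (74 + 74) = 456 from rfl]
  have h2 : n ^ 120 ≤ n ^ 456 := Nat.pow_le_pow_right (by omega) (by norm_num)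
  have h3 : 3 * n ^ 456 ≤ n ^ 460 := by
    have h4 : 3 ≤ n ^ 4 := by
      calc 3 ≤ 2 ^ 4 := by norm_num
        _ ≤ n ^ 4 := Nat.pow_le_pow_left hn 4
    calc 3 * n ^ 456 ≤ n ^ 4 * n ^ 456 := Nat.mul_le_mul_right _ h4
      _ = n ^ 460 := by rw [← pow_add]
  calc A * B * M ≤ 2 ^ n ^ 120 * 2 ^ n ^ 120 * 2 ^ n ^ 456 :=
        Nat.mul_le_mul (Nat.mul_le_mul hA hB) (hM.trans h1)
    _ = 2 ^ (n ^ 120 + n ^ 120 + n ^ 456) := by rw [← pow_add, ← pow_add]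
    _ ≤ 2 ^ n ^ 460 := Nat.pow_le_pow_right (by norm_num) (by omega)

theorem pt (n : ℕ) (hn : 2 ≤ n) (T : Ty → List Bool × List Bool) (hT : GoodT n T)
    (R R2 : ℤ[X]) (hR : R ≠ 0) (hR2 : R2 ≠ 0) (d1 : R.natDegree ≤ n ^ 74)
    (d2 : R2.natDegree ≤ n ^ 74) (e1 : l1 R ≤ 2 ^ n ^ 120) (e2 : l1 R2 ≤ 2 ^ n ^ 120) :
    ∃ m : ℤ, m ≠ 0 ∧ m.natAbs ≤ 2 ^ n ^ 460 ∧
      ∀ {K : Type} [Field K] [IsAlgClosed K] (p : ℕ) [Fact p.Prime] [CharP K p]
        (ψ : ℤ[X][X] →+* K) (z : K), ψ (C R) = 0 → ψ (R2.map C) = 0 →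
        nd (ψ (C X)) (ψ X) z ≠ 0 →
        (∀ i j, co (ψ (C X)) (ψ X) z (wdt i (T i).1) j =
          co (ψ (C X)) (ψ X) z (wdt i (T i).2) j) → (m : K) = 0 := by
  have ha : R.leadingCoeff ≠ 0 := Polynomial.leadingCoeff_ne_zero.2 hR
  have hb : R2.leadingCoeff ≠ 0 := Polynomial.leadingCoeff_ne_zero.2 hR2
  have haC : (R.leadingCoeff : AlgebraicClosure ℚ) ≠ 0 := by exact_mod_cast ha
  have hbC : (R2.leadingCoeff : AlgebraicClosure ℚ) ≠ 0 := by exact_mod_cast hb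
  have hm : ∀ x : AlgebraicClosure ℚ × AlgebraicClosure ℚ, ∃ m : ℤ, m ≠ 0 ∧
      m.natAbs ≤ 2 ^ n ^ 308 ∧ ∀ α β : ZB,
        (α : AlgebraicClosure ℚ) / R.leadingCoeff = x.1 →
        (β : AlgebraicClosure ℚ) / R2.leadingCoeff = x.2 →
        R.eval₂ (Int.castRingHom (AlgebraicClosure ℚ))
          ((α : AlgebraicClosure ℚ) / R.leadingCoeff) = 0 →
        R2.eval₂ (Int.castRingHom (AlgebraicClosure ℚ))
          ((β : AlgebraicClosure ℚ) / R2.leadingCoeff) = 0 →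
        ∀ {K : Type} [Field K] (θ : ZB →+* K) (ψ : ℤ[X][X] →+* K) (z : K),
        (R.leadingCoeff : K) ≠ 0 → (R2.leadingCoeff : K) ≠ 0 →
        θ α = R.leadingCoeff * ψ (C X) → θ β = R2.leadingCoeff * ψ X →
        nd (ψ (C X)) (ψ X) z ≠ 0 →
        (∀ i j, co (ψ (C X)) (ψ X) z (wdt i (T i).1) j =
          co (ψ (C X)) (ψ X) z (wdt i (T i).2) j) → (m : K) = 0 := by
    rintro ⟨ξ, η⟩
    by_cases hex : ∃ α β : ZB, (α : AlgebraicClosure ℚ) / R.leadingCoeff = ξ ∧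
        (β : AlgebraicClosure ℚ) / R2.leadingCoeff = η ∧
        R.eval₂ (Int.castRingHom (AlgebraicClosure ℚ))
          ((α : AlgebraicClosure ℚ) / R.leadingCoeff) = 0 ∧
        R2.eval₂ (Int.castRingHom (AlgebraicClosure ℚ))
          ((β : AlgebraicClosure ℚ) / R2.leadingCoeff) = 0
    · obtain ⟨α, β, hα, hβ, h1, h2⟩ := hex
      obtain ⟨m, hm0, hm1, hm2⟩ := ptO n hn T hT R R2 hR hR2 d1 d2 e1 e2 α β h1 h2
      refine ⟨m, hm0, hm1, ?_⟩
      intro α' β' hα' hβ' _ _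
      have hαα : α' = α := by
        apply Subtype.ext
        rw [← hα] at hα'
        simp only at hα'
        rwa [div_left_inj' haC] at hα'
      have hββ : β' = β := by
        apply Subtype.ext
        rw [← hβ] at hβ'
        simp only at hβ'
        rwa [div_left_inj' hbC] at hβ'
      subst hαα
      subst hββ
      intro K _ θ ψ z
      exact hm2 θ ψ z
    · refine ⟨1, one_ne_zero, ?_, ?_⟩
      · rw [Int.natAbs_one]
        exact Nat.one_le_two_pow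
      · intro α β hα hβ h1 h2
        exact absurd ⟨α, β, hα, hβ, h1, h2⟩ hex
  choose m hm0 hm1 hm2 using hm
  obtain ⟨s1, hs1, hs1'⟩ := exists_rt R hR
  obtain ⟨s2, hs2, hs2'⟩ := exists_rt R2 hR2
  refine ⟨R.leadingCoeff * R2.leadingCoeff * ∏ x ∈ s1 ×ˢ s2, m x,
    mul_ne_zero (mul_ne_zero ha hb) (Finset.prod_ne_zero_iff.2 fun x _ => hm0 x), ?_, ?_⟩
  · rw [Int.natAbs_mul, Int.natAbs_mul]
    refine arith hn ((lead_le R hR).trans e1) ((lead_le R2 hR2).trans e2)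
      (c := (s1 ×ˢ s2).card) ?_ ?_
    · have h5 : (∏ x ∈ s1 ×ˢ s2, m x).natAbs = ∏ x ∈ s1 ×ˢ s2, (m x).natAbs :=
        map_prod Int.natAbsHom m (s1 ×ˢ s2)
      rw [h5]
      exact Finset.prod_le_pow_card _ _ _ fun x _ => hm1 x
    · rw [Finset.card_product]
      exact Nat.mul_le_mul (hs1.trans d1) (hs2.trans d2)
  · intro K _ _ p _ _ ψ z h1 h2 hnd hco
    by_cases haK : (R.leadingCoeff : K) = 0
    · push_cast
      rw [haK, zero_mul, zero_mul]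
    by_cases hbK : (R2.leadingCoeff : K) = 0
    · push_cast
      rw [hbK, mul_zero, zero_mul]
    obtain ⟨θ⟩ := exists_theta p K
    obtain ⟨α, hα, hα'⟩ := liftRoot θ R hR haK (ψ (C X)) (by rw [eval_CR]; exact h1)
    obtain ⟨β, hβ, hβ'⟩ := liftRoot θ R2 hR2 hbK (ψ X) (by rw [eval_RC]; exact h2)
    have h3 := hm2 ((α : AlgebraicClosure ℚ) / R.leadingCoeff,
      (β : AlgebraicClosure ℚ) / R2.leadingCoeff) α β rfl rfl hα' hβ' θ ψ z haK hbK hα hβ hnd hco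
    have h4 : ((α : AlgebraicClosure ℚ) / R.leadingCoeff,
        (β : AlgebraicClosure ℚ) / R2.leadingCoeff) ∈ s1 ×ˢ s2 :=
      Finset.mem_product.2 ⟨hs1' _ hα', hs2' _ hβ'⟩
    rw [Int.cast_mul, Int.cast_prod, Finset.prod_eq_zero h4 h3, mul_zero]

end AAC
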