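import Pool.Agent.AAC.BdZ

/-!
# AAC-ResZ (1.5h)
Resultants over `ℤ`. PLAN. Copy the finished `Helper72/PF/Bez.lean` (fields) for `ℤ`. If `natDegree h = 0`, `h = C u`, take `R = u ≠ 0` (`l2_C`, `natDegree u ≤ D` from the swap). Otherwise `h` is primitive (`Irreducible.isPrimitive`), irreducible over the fraction field of `ℤ[X]`, coprime to `f` there, `R = resultant h f ≠ 0`; Sylvester matrix of size `natDegree h + natDegree f ≤ 2 D` with entries zero or
coefficients of `h, f`, of degree `≤ D` and `l1 ≤ H` (`l1_coeff_le`): `natDegree R ≤ 2 D * D`, `l1 R ≤ (2 D)! * H ^ (2 D)` (determinant: sum over permutations; monotone in the size as `H ≥ 1`, which follows from `l2_pos`). `exists_mul_add_mul_eq_C_resultant`: `C R = h p + f q`, so `ψ (C R) = 0`. `resZ'`: apply `resZ` to `swap h`, `swap f` and `ψ ∘ swap` (swap is a ring isomorphism, `swap (C R) = R.map C`,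
`Bd.swap`, irreducibility and divisibility are preserved by isomorphisms).
-/

set_option autoImplicit false

namespace AAC

open Matrix Module Polynomial Pool.Agent.Helper72.TV Pool.Agent.Helper72.PT Pool.Agent.Helper72.PF TRS

private theorem rz_coeff_swap (p : ℤ[X][X]) (i j : ℕ) :
    ((Bivariate.swap p).coeff j).coeff i = (p.coeff i).coeff j := by
  induction p using Polynomial.induction_on' with
  | add p q hp hq => rw [map_add, coeff_add, coeff_add, coeff_add, coeff_add, hp, hq]
  | monomial n a =>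
    induction a using Polynomial.induction_on' with
    | add a b ha hb =>
      rw [map_add (monomial n), map_add, coeff_add, coeff_add, coeff_add, coeff_add, ha, hb]
    | monomial m r =>
      rw [Bivariate.swap_monomial_monomial, coeff_monomial, coeff_monomial]
      by_cases h1 : m = j <;> by_cases h2 : n = i <;> simp [h1, h2, coeff_monomial]

private theorem rz_coeff_deg (p : ℤ[X][X]) (i : ℕ) :
    (p.coeff i).natDegree ≤ (Bivariate.swap p).natDegree := by
  rw [natDegree_le_iff_coeff_eq_zero]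
  intro j hj
  rw [← rz_coeff_swap, coeff_eq_zero_of_natDegree_lt hj, coeff_zero]

private theorem rz_bdC {D H : ℕ} {p : ℤ[X][X]} (h : Bd D H p) (i : ℕ) :
    Bd D H (C (p.coeff i)) := by
  refine ⟨?_, ?_, ?_⟩
  · rw [natDegree_C]
    exact Nat.zero_le _
  · rw [Bivariate.swap_C]
    exact natDegree_map_le.trans ((rz_coeff_deg p i).trans h.2.1)
  · rw [l2_C]
    exact (l1_coeff_le p i).trans h.2.2

private theorem rz_res {D H : ℕ} (h f : ℤ[X][X]) (hH : 1 ≤ H) (b1 : Bd D H h) (b2 : Bd D H f) :
    (Polynomial.resultant h f h.natDegree f.natDegree).natDegree ≤ 2 * D ^ 2 ∧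
      l1 (Polynomial.resultant h f h.natDegree f.natDegree) ≤
        (2 * D).factorial * H ^ (2 * D) := by
  classical
  have hent : ∀ i j, Bd D H (C (Polynomial.sylvester h f h.natDegree f.natDegree i j)) := by
    intro i j
    refine Fin.addCases (fun j => ?_) (fun j => ?_) j
    · simp only [Polynomial.sylvester, Matrix.of_apply, Fin.addCases_left]
      split_ifs
      · exact rz_bdC b2 _
      · rw [C_0]
        exact bd_zero D H
    · simp only [Polynomial.sylvester, Matrix.of_apply, Fin.addCases_right]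
      split_ifs
      · exact rz_bdC b1 _
      · rw [C_0]
        exact bd_zero D H
  have h1 := Bd.det (D := D) (H := H)
    ((C : ℤ[X] →+* ℤ[X][X]).mapMatrix (Polynomial.sylvester h f h.natDegree f.natDegree))
    (fun i j => hent i j)
  rw [← RingHom.map_det] at h1
  have h2 : (C : ℤ[X] →+* ℤ[X][X])
      (Polynomial.sylvester h f h.natDegree f.natDegree).det =
      C (Polynomial.resultant h f h.natDegree f.natDegree) := rfl
  rw [h2] at h1
  obtain ⟨-, h3, h4⟩ := h1
  rw [Bivariate.swap_C, natDegree_map_eq_of_injective C_injective] at h3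
  rw [l2_C] at h4
  have hk : h.natDegree + f.natDegree ≤ 2 * D := by
    have := b1.1
    have := b2.1
    omega
  refine ⟨h3.trans ?_, h4.trans ?_⟩
  · calc (h.natDegree + f.natDegree) * D ≤ 2 * D * D := Nat.mul_le_mul hk le_rfl
      _ = 2 * D ^ 2 := by ring
  · exact Nat.mul_le_mul (Nat.factorial_le hk) (Nat.pow_le_pow_right hH hk)

theorem resZ (D H : ℕ) (h f : ℤ[X][X]) (hh : Irreducible h)
    (hnc : 1 ≤ h.natDegree + (Bivariate.swap h).natDegree) (hf : ¬ h ∣ f) (hD : 1 ≤ D)
    (b1 : Bd D H h) (b2 : Bd D H f) :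
    ∃ R : ℤ[X], R ≠ 0 ∧ R.natDegree ≤ 2 * D ^ 2 ∧ l1 R ≤ (2 * D).factorial * H ^ (2 * D) ∧
      ∀ {K : Type} [Field K] (ψ : ℤ[X][X] →+* K), ψ h = 0 → ψ f = 0 → ψ (C R) = 0 := by
  classical
  have hH : 1 ≤ H := (l2_pos hh.ne_zero).trans b1.2.2
  by_cases hd : h.natDegree = 0
  · obtain ⟨u, rfl⟩ := Polynomial.natDegree_eq_zero.1 hd
    refine ⟨u, ?_, ?_, ?_, fun ψ h1 _ => h1⟩
    · rintro rfl
      exact hh.ne_zero C_0
    · have h1 := b1.2.1
      rw [Bivariate.swap_C, natDegree_map_eq_of_injective C_injective] at h1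
      nlinarith
    · have h1 := b1.2.2
      rw [l2_C] at h1
      have h2 : 1 ≤ (2 * D).factorial := Nat.factorial_pos _
      have h3 : H ^ 1 ≤ H ^ (2 * D) := Nat.pow_le_pow_right hH (by omega)
      rw [pow_one] at h3
      exact h1.trans (h3.trans (Nat.le_mul_of_pos_left _ h2))
  · have hprim : h.IsPrimitive := hh.isPrimitive hd
    have hinj : Function.Injective (algebraMap ℤ[X] (FractionRing ℤ[X])) :=
      IsFractionRing.injective _ _
    have hirr : Irreducible (h.map (algebraMap ℤ[X] (FractionRing ℤ[X]))) :=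
      hprim.irreducible_iff_irreducible_map_fraction_map.1 hh
    have hnd : ¬ h.map (algebraMap ℤ[X] (FractionRing ℤ[X])) ∣
        f.map (algebraMap ℤ[X] (FractionRing ℤ[X])) := fun hdv =>
      hf (hprim.dvd_of_fraction_map_dvd_fraction_map hdv)
    have hcop := hirr.coprime_iff_not_dvd.2 hnd
    have hres := Polynomial.resultant_ne_zero _ _ hcop
    rw [Polynomial.resultant_map_map, Polynomial.natDegree_map_eq_of_injective hinj,
      Polynomial.natDegree_map_eq_of_injective hinj] at hres
    have hR : Polynomial.resultant h f h.natDegree f.natDegree ≠ 0 := by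
      intro h0
      rw [h0, map_zero] at hres
      exact hres rfl
    obtain ⟨p, q, -, -, hpq⟩ := Polynomial.exists_mul_add_mul_eq_C_resultant h f
      (m := h.natDegree) (n := f.natDegree) le_rfl le_rfl (Or.inl hd)
    obtain ⟨h1, h2⟩ := rz_res h f hH b1 b2
    refine ⟨_, hR, h1, h2, fun ψ h3 h4 => ?_⟩
    rw [← hpq, map_add, map_mul, map_mul, h3, h4, zero_mul, zero_mul, add_zero]

theorem resZ' (D H : ℕ) (h f : ℤ[X][X]) (hh : Irreducible h)
    (hnc : 1 ≤ h.natDegree + (Bivariate.swap h).natDegree) (hf : ¬ h ∣ f) (hD : 1 ≤ D)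
    (b1 : Bd D H h) (b2 : Bd D H f) :
    ∃ R : ℤ[X], R ≠ 0 ∧ R.natDegree ≤ 2 * D ^ 2 ∧ l1 R ≤ (2 * D).factorial * H ^ (2 * D) ∧
      ∀ {K : Type} [Field K] (ψ : ℤ[X][X] →+* K), ψ h = 0 → ψ f = 0 → ψ (R.map C) = 0 := by
  obtain ⟨R, h1, h2, h3, h4⟩ := resZ D H (Bivariate.swap h) (Bivariate.swap f)
    ((MulEquiv.irreducible_iff (Bivariate.swap (R := ℤ))).2 hh)
    (by rw [Bivariate.swap_swap_apply, add_comm]; exact hnc)
    (fun hdv => hf ((map_dvd_iff (Bivariate.swap (R := ℤ))).1 hdv)) hD b1.swap b2.swap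
  refine ⟨R, h1, h2, h3, fun ψ h5 h6 => ?_⟩
  have h7 := h4 (ψ.comp (Bivariate.swap (R := ℤ)).toRingHom)
    (by
      show ψ (Bivariate.swap (Bivariate.swap h)) = 0
      rw [Bivariate.swap_swap_apply]
      exact h5)
    (by
      show ψ (Bivariate.swap (Bivariate.swap f)) = 0
      rw [Bivariate.swap_swap_apply]
      exact h6)
  have h8 : ψ (Bivariate.swap (C R)) = 0 := h7
  rwa [Bivariate.swap_C] at h8

end AAC
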