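import Pool.Agent.AAC.CutZ
import Pool.Agent.AAC.ResZ
import Pool.Agent.AAC.Pt

/-!
# AAC-Chn (1.4h)
One irreducible nonconstant `h`. PLAN. `φ : ℤ[X][X] → L = FractionRing (ℤ[X][X] ⧸ span {h})`, kernel `(h)` (as in `Helper72/PF/GenPt.lean`), `L` has characteristic zero: a nonzero integer `q` is not divisible by `h` (degrees: a divisor of `C (C q)` has both degrees zero). `cutZ` gives `Δ`, `h ∤ Δ`, `Bd (n^36) (2^n^36) Δ`. `resZ`, `resZ'` for `h, Δ` with `D = n ^ 36`, `H = 2 ^ n ^ 80`: `R, R2` with degree `≤ 2 n^72 ≤ n^74` and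
norm `≤ (2 n^36)! * 2 ^ (2 n^116) ≤ 2 ^ n ^ 120` (`k! ≤ 2 ^ (k * k)`). `pt` gives `m`. Given a bad `ψ, z` with `ψ h = 0`: the kernel of `φ` is in the kernel of `ψ`, so `ψ Δ = 0` by `cutZ`, so `ψ (C R) = 0 = ψ (R2.map C)`, so `(m : K) = 0`.
-/

set_option autoImplicit false

namespace AAC

open Matrix Module Polynomial Pool.Agent.Helper72.TV Pool.Agent.Helper72.PT Pool.Agent.Helper72.PF TRS

private theorem ch_fac (k : ℕ) : k.factorial ≤ 2 ^ (k * k) := by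
  refine (Nat.factorial_le_pow k).trans ?_
  rw [pow_mul]
  exact Nat.pow_le_pow_left (Nat.lt_two_pow_self).le k

private theorem ch_deg {n : ℕ} (hn : 2 ≤ n) : 2 * (n ^ 36) ^ 2 ≤ n ^ 74 := by
  have e : n ^ 74 = n ^ 2 * (n ^ 36) ^ 2 := by
    rw [← pow_mul, ← pow_add]
  rw [e]
  exact Nat.mul_le_mul_right _ (by nlinarith)

private theorem ch_nrm {n : ℕ} (hn : 2 ≤ n) :
    (2 * n ^ 36).factorial * (2 ^ n ^ 80) ^ (2 * n ^ 36) ≤ 2 ^ n ^ 120 := by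
  refine (Nat.mul_le_mul_right _ (ch_fac _)).trans ?_
  rw [← pow_mul, ← pow_add]
  refine Nat.pow_le_pow_right (by norm_num) ?_
  have e1 : 2 * n ^ 36 * (2 * n ^ 36) = 4 * n ^ 72 := by
    have : n ^ 72 = n ^ 36 * n ^ 36 := by rw [← pow_add]
    rw [this]
    ring
  have e2 : n ^ 80 * (2 * n ^ 36) = 2 * n ^ 116 := by
    have : n ^ 116 = n ^ 80 * n ^ 36 := by rw [← pow_add]
    rw [this]
    ring
  have e3 : n ^ 120 = n ^ 4 * n ^ 116 := by rw [← pow_add]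
  have h1 : n ^ 72 ≤ n ^ 116 := Nat.pow_le_pow_right (by omega) (by norm_num)
  have h2 : 2 ^ 4 ≤ n ^ 4 := Nat.pow_le_pow_left hn 4
  have h3 : 2 ^ 4 * n ^ 116 ≤ n ^ 4 * n ^ 116 := Nat.mul_le_mul_right _ h2
  rw [e1, e2, e3]
  omega

private theorem ch_aux {Q : Type} [CommRing Q] [IsDomain Q] (h : ℤ[X][X])
    (hnc : 1 ≤ h.natDegree + (Bivariate.swap h).natDegree)
    (ψ : ℤ[X][X] →+* Q) (hψ : ∀ f, ψ f = 0 ↔ h ∣ f) :
    ∃ (L : Type) (_ : Field L) (_ : CharZero L) (φ : ℤ[X][X] →+* L), ∀ f, φ f = 0 ↔ h ∣ f := by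
  obtain ⟨φ, hφ⟩ : ∃ φ : ℤ[X][X] →+* FractionRing Q, ∀ f, φ f = 0 ↔ h ∣ f := by
    refine ⟨(algebraMap Q (FractionRing Q)).comp ψ, fun f => ?_⟩
    rw [RingHom.comp_apply, map_eq_zero_iff _ (IsFractionRing.injective Q (FractionRing Q)), hψ]
  refine ⟨FractionRing Q, inferInstance, ?_, φ, hφ⟩
  refine charZero_of_inj_zero fun k hk => ?_
  by_contra hk0
  have h1 : h ∣ (k : ℤ[X][X]) := (hφ _).1 (by rw [map_natCast]; exact hk)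
  have hk1 : (k : ℤ[X][X]) ≠ 0 := Nat.cast_ne_zero.2 hk0
  have h2 := natDegree_le_of_dvd h1 hk1
  have h3 : Bivariate.swap h ∣ (k : ℤ[X][X]) := by
    have h4 := map_dvd (Bivariate.swap (R := ℤ)) h1
    rwa [map_natCast] at h4
  have h5 := natDegree_le_of_dvd h3 hk1
  rw [natDegree_natCast] at h2 h5
  omega

private theorem ch_gen (h : ℤ[X][X]) (hh : Irreducible h)
    (hnc : 1 ≤ h.natDegree + (Bivariate.swap h).natDegree) :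
    ∃ (L : Type) (_ : Field L) (_ : CharZero L) (φ : ℤ[X][X] →+* L), ∀ f, φ f = 0 ↔ h ∣ f := by
  have hp : Prime h := hh.prime
  have hI : (Ideal.span {h} : Ideal ℤ[X][X]).IsPrime := (Ideal.span_singleton_prime hp.ne_zero).2 hp
  refine ch_aux (Q := ℤ[X][X] ⧸ (Ideal.span {h} : Ideal ℤ[X][X])) h hnc
    (Ideal.Quotient.mk (Ideal.span {h} : Ideal ℤ[X][X])) fun f => ?_
  rw [Ideal.Quotient.eq_zero_iff_mem, Ideal.mem_span_singleton]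

theorem chn (n : ℕ) (hn : 2 ≤ n) (T : Ty → List Bool × List Bool) (hT : GoodT n T)
    (h : ℤ[X][X]) (hh : Irreducible h) (hnc : 1 ≤ h.natDegree + (Bivariate.swap h).natDegree)
    (hb : Bd (n ^ 36) (2 ^ n ^ 80) h) :
    ∃ m : ℤ, m ≠ 0 ∧ m.natAbs ≤ 2 ^ n ^ 460 ∧
      ∀ {K : Type} [Field K] [IsAlgClosed K] (p : ℕ) [Fact p.Prime] [CharP K p]
        (ψ : ℤ[X][X] →+* K) (z : K), ψ h = 0 → nd (ψ (C X)) (ψ X) z ≠ 0 →
        (∀ i j, co (ψ (C X)) (ψ X) z (wdt i (T i).1) j =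
          co (ψ (C X)) (ψ X) z (wdt i (T i).2) j) → (m : K) = 0 := by
  obtain ⟨L, _, _, φ, hφ⟩ := ch_gen h hh hnc
  obtain ⟨Δ, bΔ, hΔ, hcut⟩ := cutZ φ n hn T hT
  have hf : ¬ h ∣ Δ := fun h1 => hΔ ((hφ Δ).2 h1)
  have hD : 1 ≤ n ^ 36 := Nat.one_le_pow _ _ (by omega)
  have bΔ' : Bd (n ^ 36) (2 ^ n ^ 80) Δ := bΔ.mono le_rfl
    (Nat.pow_le_pow_right (by norm_num) (Nat.pow_le_pow_right (by omega) (by norm_num)))
  obtain ⟨R, hR, dR, eR, hRψ⟩ := resZ (n ^ 36) (2 ^ n ^ 80) h Δ hh hnc hf hD hb bΔ'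
  obtain ⟨R2, hR2, dR2, eR2, hR2ψ⟩ := resZ' (n ^ 36) (2 ^ n ^ 80) h Δ hh hnc hf hD hb bΔ'
  obtain ⟨m, hm0, hm1, hm⟩ := pt n hn T hT R R2 hR hR2 (dR.trans (ch_deg hn)) (dR2.trans (ch_deg hn))
    (eR.trans (ch_nrm hn)) (eR2.trans (ch_nrm hn))
  refine ⟨m, hm0, hm1, ?_⟩
  intro K _ _ p _ _ ψ z hψh hz hco
  have hker : ∀ r, φ r = 0 → ψ r = 0 := by
    intro r hr
    obtain ⟨s, rfl⟩ := (hφ r).1 hr
    rw [map_mul, hψh, zero_mul]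
  have hψΔ := hcut ψ hker z hz hco
  exact hm p ψ z (hRψ ψ hψh hψΔ) (hR2ψ ψ hψh hψΔ) hz hco

end AAC
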