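import Pool.Agent.AAC.IdZ
import Pool.Agent.TRS.Elim

/-!
# AAC-CutZ (1.3h)
For every homomorphism of `ℤ[X][X]` to a field of characteristic zero there is an integer polynomial of controlled size outside its kernel that vanishes at all bad points over it. PLAN. If `satZ.map φ = 0`: `Δ = 1`, the last statement is vacuous by `satZ_map`. Otherwise `idZ` and `TRS.elim` with `f = fZ T`, `g = satZ ^ (3210 n)`, `D = 3210 n`, `E = 8 * (3210 n)` (`natDegree_pow_le`, `satZ_natDegree`)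
give a matrix `M` of size `k ≤ 9 * 3210 n + 1`, entries zero or coefficients (`fZ_coeff`, `bd_zero`), `Δ = M.det`, `Bd.det`: degrees `≤ k * 3210 n`, norm `≤ k! * (2 * 6 ^ (3210 n)) ^ k`. Numbers: `k ≤ 2 ^ 15 n`, `3210 ≤ 2 ^ 12`, `k! ≤ k ^ k ≤ 2 ^ (k * k)` (`k < 2 ^ k`), `6 ≤ 2 ^ 3`; everything is at most
`2 ^ 34 n ^ 2 ≤ n ^ 36` resp. `2 ^ (2 ^ 34 n ^ 2)` for `n ≥ 2`. The last statement: `fZ_eval` and the hypothesis give `eval₂ = 0`, `satZ_eval`: `ψ Δ * (nd ..) ^ (3210 n) = 0`.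
-/

set_option autoImplicit false

namespace AAC

open Matrix Module Polynomial Pool.Agent.Helper72.TV Pool.Agent.Helper72.PT Pool.Agent.Helper72.PF TRS

private theorem deg_le {n k : ℕ} (hn : 2 ≤ n) (hk : k ≤ 2 ^ 15 * n) :
    k * (3210 * n) ≤ n ^ 36 := by
  calc k * (3210 * n) ≤ (2 ^ 15 * n) * (2 ^ 12 * n) :=
        Nat.mul_le_mul hk (Nat.mul_le_mul_right _ (by norm_num))
    _ = 2 ^ 27 * n ^ 2 := by ring
    _ ≤ n ^ 27 * n ^ 2 := Nat.mul_le_mul_right _ (Nat.pow_le_pow_left hn 27)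
    _ = n ^ 29 := by ring
    _ ≤ n ^ 36 := Nat.pow_le_pow_right (by omega) (by norm_num)

private theorem norm_le {n k : ℕ} (hn : 2 ≤ n) (hk : k ≤ 2 ^ 15 * n) :
    k.factorial * (2 * 6 ^ (3210 * n)) ^ k ≤ 2 ^ n ^ 36 := by
  have h1 : k.factorial ≤ 2 ^ (k * k) := by
    calc k.factorial ≤ k ^ k := Nat.factorial_le_pow k
      _ ≤ (2 ^ k) ^ k := Nat.pow_le_pow_left Nat.lt_two_pow_self.le k
      _ = 2 ^ (k * k) := (pow_mul 2 k k).symm
  have h2 : (2 * 6 ^ (3210 * n)) ^ k ≤ 2 ^ ((3 * (3210 * n) + 1) * k) := by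
    rw [pow_mul 2 (3 * (3210 * n) + 1) k]
    refine Nat.pow_le_pow_left ?_ k
    rw [pow_succ, mul_comm, pow_mul 2 3]
    exact Nat.mul_le_mul_right _ (Nat.pow_le_pow_left (by norm_num) _)
  have h3 : k * k + (3 * (3210 * n) + 1) * k ≤ n ^ 36 := by
    have h4 : k * k ≤ (2 ^ 15 * n) * (2 ^ 15 * n) := Nat.mul_le_mul hk hk
    have h5 : (3 * (3210 * n) + 1) * k ≤ (2 ^ 14 * n) * (2 ^ 15 * n) := by
      refine Nat.mul_le_mul ?_ hk
      norm_num
      omega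
    calc k * k + (3 * (3210 * n) + 1) * k
        ≤ (2 ^ 15 * n) * (2 ^ 15 * n) + (2 ^ 14 * n) * (2 ^ 15 * n) := Nat.add_le_add h4 h5
      _ = (2 ^ 30 + 2 ^ 29) * n ^ 2 := by ring
      _ ≤ 2 ^ 31 * n ^ 2 := Nat.mul_le_mul_right _ (by norm_num)
      _ ≤ n ^ 31 * n ^ 2 := Nat.mul_le_mul_right _ (Nat.pow_le_pow_left hn 31)
      _ = n ^ 33 := by ring
      _ ≤ n ^ 36 := Nat.pow_le_pow_right (by omega) (by norm_num)
  calc k.factorial * (2 * 6 ^ (3210 * n)) ^ k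
      ≤ 2 ^ (k * k) * 2 ^ ((3 * (3210 * n) + 1) * k) := Nat.mul_le_mul h1 h2
    _ = 2 ^ (k * k + (3 * (3210 * n) + 1) * k) := (pow_add 2 _ _).symm
    _ ≤ 2 ^ n ^ 36 := Nat.pow_le_pow_right (by norm_num) h3

theorem cutZ {L : Type} [Field L] [CharZero L] (φ : ℤ[X][X] →+* L) (n : ℕ) (hn : 2 ≤ n)
    (T : Ty → List Bool × List Bool) (hT : GoodT n T) :
    ∃ Δ : ℤ[X][X], Bd (n ^ 36) (2 ^ n ^ 36) Δ ∧ φ Δ ≠ 0 ∧
      ∀ {K : Type} [Field K] (ψ : ℤ[X][X] →+* K), (∀ r, φ r = 0 → ψ r = 0) → ∀ z : K,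
        nd (ψ (C X)) (ψ X) z ≠ 0 →
        (∀ i j, co (ψ (C X)) (ψ X) z (wdt i (T i).1) j =
          co (ψ (C X)) (ψ X) z (wdt i (T i).2) j) → ψ Δ = 0 := by
  by_cases hs : satZ.map φ = 0
  · refine ⟨1, bd_one _ _ Nat.one_le_two_pow, ?_, ?_⟩
    · rw [map_one]
      exact one_ne_zero
    · intro K _ ψ hψ z hz _
      exact absurd (satZ_map φ ψ hψ hs z) hz
  · obtain ⟨c, hc, hcg⟩ := idZ φ n (by omega) T hT hs
    have hg : (satZ ^ (3210 * n)).natDegree ≤ 3210 * n + 8 * (3210 * n) := by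
      refine natDegree_pow_le.trans ?_
      have h1 := Nat.mul_le_mul_left (3210 * n) satZ_natDegree
      omega
    obtain ⟨k, M, hk, hM, hdet, hcr⟩ := TRS.elim φ (fZ T) (satZ ^ (3210 * n)) (3210 * n)
      (8 * (3210 * n)) (fun p => fZ_natDegree n T hT p) hg c hc hcg
    have hk' : k ≤ 2 ^ 15 * n := by
      norm_num
      omega
    have hB : ∀ i j, Bd (3210 * n) (2 * 6 ^ (3210 * n)) (M i j) := by
      intro i j
      rcases hM i j with h | ⟨p, t, h⟩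
      · rw [h]
        exact bd_zero _ _
      · rw [h]
        exact fZ_coeff n T hT p t
    refine ⟨M.det, (Bd.det M hB).mono (deg_le hn hk') (norm_le hn hk'), hdet, ?_⟩
    intro K _ ψ hψ z hz hco
    have h1 := hcr ψ z hψ (fun p => by
      rw [fZ_eval, sub_eq_zero]
      exact hco p.1 p.2)
    rw [eval₂_pow, satZ_eval] at h1
    exact (mul_eq_zero.1 h1).resolve_right (pow_ne_zero _ hz)

end AAC
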