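import Pool.Agent.TRS.Defs

/-! # AAC: all generating sets in almost all characteristics, definitions

`SL2 F`, `tr`, `Words S L`, `ball S n`: `Helper72.PT.Defs`, `Helper72.TV.Defs`. Letters `0, 1, 2, 3 : Fin 4` are `a, a⁻¹, b, b⁻¹`
(`lt`), `evw a b w` is the value of a word, `ev u v l` the value of a positive word, `pw` the six old pairs of test words, `co x y z w` the
coefficients of a word in the basis `1, a, b, a b` (`Helper72.PF.Defs`, `co_eval`, `co_map`, `co_of_eq`, `tr_comm` in `Helper72.PF.Coef`). -/

set_option autoImplicit false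

namespace AAC

open Matrix Module Polynomial Pool.Agent.Helper72.TV Pool.Agent.Helper72.PT Pool.Agent.Helper72.PF TRS

/-- the inverse word -/
def winv (w : List (Fin 4)) : List (Fin 4) := (w.map ![1, 0, 3, 2]).reverse

/-- powers of words -/
def wpow (w : List (Fin 4)) (k : ℕ) : List (Fin 4) := (List.replicate k w).flatten

/-- the exponent `800` -/
@[irreducible] def KK : ℕ := 800

theorem KK_eq : KK = 800 := by
  unfold KK
  rfl

/-- the words `a`, `a b a⁻¹ b⁻¹`, `a b a b⁻¹` -/
def ww : Fin 3 → List (Fin 4) := ![[0], [0, 2, 1, 3], [0, 2, 0, 3]]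

/-- the conjugating words `b`, `a`, `a` -/
def gg : Fin 3 → List (Fin 4) := ![[2], [0], [0]]

/-- the types of test words: the six old ones and `(w^KK, g w^KK g⁻¹)`, `(w^KK, g w^(-KK) g⁻¹)` -/
abbrev Ty := Fin 6 ⊕ (Fin 3 × Bool)

/-- the pairs of test words -/
def tw : Ty → Bool → List (Fin 4)
  | Sum.inl i => pw i
  | Sum.inr (k, e) => fun s => bif s then wpow (ww k) KK else
      gg k ++ (bif e then wpow (ww k) KK else wpow (winv (ww k)) KK) ++ winv (gg k)

/-- substitution of the test words of type `i` in a positive word -/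
def wdt (i : Ty) (l : List Bool) : List (Fin 4) := (l.map (tw i)).flatten

/-- the saturating polynomial: at its nonzeros no degeneration happens -/
def nd {R : Type*} [CommRing R] (x y z : R) : R :=
  x * y * (x ^ 2 - 1) * kp x y z * (kp x y z + 1) * (x ^ 2 - kp x y z - 3) *
    (x ^ 2 - kp x y z - 4)

/-- `T` consists of a pair of different lists of length `n` for each type -/
def GoodT (n : ℕ) (T : Ty → List Bool × List Bool) : Prop :=
  ∀ i, (T i).1.length = n ∧ (T i).2.length = n ∧ (T i).1 ≠ (T i).2

/-- sum of the absolute values of the coefficients, one variable -/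
noncomputable def l1 (p : ℤ[X]) : ℕ := p.sum fun _ a => a.natAbs

/-- sum of the absolute values of the coefficients, two variables -/
noncomputable def l2 (p : ℤ[X][X]) : ℕ := p.sum fun _ q => l1 q

/-- partial degrees at most `D`, sum of the absolute values of the coefficients at most `H` -/
def Bd (D H : ℕ) (r : ℤ[X][X]) : Prop :=
  r.natDegree ≤ D ∧ (Bivariate.swap r).natDegree ≤ D ∧ l2 r ≤ H

/-- coefficients of a word as integer polynomials: `x = C (C X)`, `y = C X`, `z = X` -/
noncomputable def polZ (l : List (Fin 4)) : Fin 4 → Polynomial ℤ[X][X] :=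
  co (C (C X) : Polynomial ℤ[X][X]) (C X) X l

/-- the saturating polynomial as a polynomial over `ℤ` -/
noncomputable def satZ : Polynomial ℤ[X][X] := nd (C (C X) : Polynomial ℤ[X][X]) (C X) X

/-- the coincidence polynomials of the lists `T i` -/
noncomputable def fZ (T : Ty → List Bool × List Bool) : Ty × Fin 4 → Polynomial ℤ[X][X] :=
  fun p => polZ (wdt p.1 (T p.1).1) p.2 - polZ (wdt p.1 (T p.1).2) p.2

/-- all algebraic integers -/
noncomputable abbrev ZB := integralClosure ℤ (AlgebraicClosure ℚ)

theorem nd_map {R R' : Type*} [CommRing R] [CommRing R'] (f : R →+* R') (x y z : R) :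
    f (nd x y z) = nd (f x) (f y) (f z) := by
  unfold nd
  simp only [map_sub, map_add, map_mul, map_pow, map_ofNat, kp_map, map_one]

theorem wdt_nil (i : Ty) : wdt i [] = [] := rfl

theorem wdt_cons (i : Ty) (s : Bool) (l : List Bool) : wdt i (s :: l) = tw i s ++ wdt i l := by
  unfold wdt
  rw [List.map_cons, List.flatten_cons]

end AAC
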