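import Pool.Agent.AAC.BdZ

/-!
# AAC-FacZ (1.5h)
Norms of factors (Mahler measure and Kronecker substitution). PLAN. Degrees of a divisor: degrees are additive on products in `ℤ[X][X]` in both variables (as `dvd_deg`). Let `m = D + 1`, `κ : ℤ[X][X] →+* ℤ[X]` the homomorphism `eval (X ^ m)` (outer variable ↦ `X ^ m`): for `p` with inner degree `≤ D` the coefficient of `κ p` at `j + m i` (`j ≤ D`) is `(p.coeff i).coeff j`, all coefficients are of this form, so `κ p ≠ 0` if
`p ≠ 0`, `natDegree (κ p) ≤ D + m D < (D + 1)²`, and the sum of the absolute values of the coefficients of `κ p` is `≤ l2 p` (`= l2 p`). For `p = h q`: `κ p = κ h * κ q`; over `ℂ`: `mahlerMeasure (κ h) ≤ mahlerMeasure (κ p)` because `1 ≤ mahlerMeasure (κ q)` (`Polynomial.one_le_mahlerMeasure_of_ne_zero`, `mahlerMeasure_mul`),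
`mahlerMeasure (κ p) ≤ l2 p` (`mahlerMeasure_le_sum_norm_coeff`), every coefficient of `κ h` is `≤ 2 ^ ((D+1)²) * mahlerMeasure (κ h)` (`norm_coeff_le_choose_mul_mahlerMeasure`, `Nat.choose_le_two_pow`); `l2_le_of_coeff`: `l2 h ≤ (D+1)² * 2 ^ ((D+1)²) * H ≤ 4 ^ ((D+1)²) * H`.
-/

set_option autoImplicit false

namespace AAC

open Matrix Module Polynomial Pool.Agent.Helper72.TV Pool.Agent.Helper72.PT Pool.Agent.Helper72.PF TRS

private lemma fz_swap_coeff (p : ℤ[X][X]) (i j : ℕ) :
    ((Bivariate.swap p).coeff j).coeff i = (p.coeff i).coeff j := by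
  induction p using Polynomial.induction_on' with
  | add p q hp hq => rw [map_add, coeff_add, coeff_add, hp, hq, coeff_add, coeff_add]
  | monomial n a =>
    induction a using Polynomial.induction_on' with
    | add a b ha hb =>
      rw [map_add (monomial n), map_add, coeff_add, coeff_add, ha, hb, coeff_add, coeff_add]
    | monomial m r =>
      rw [Bivariate.swap_monomial_monomial, coeff_monomial, coeff_monomial]
      by_cases h1 : m = j
      · by_cases h2 : n = i
        · rw [if_pos h1, if_pos h2, coeff_monomial, coeff_monomial, if_pos h1, if_pos h2]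
        · rw [if_pos h1, if_neg h2, coeff_monomial, if_neg h2, coeff_zero]
      · by_cases h2 : n = i
        · rw [if_neg h1, if_pos h2, coeff_zero, coeff_monomial, if_neg h1]
        · rw [if_neg h1, if_neg h2, coeff_zero, coeff_zero]

private lemma fz_inner {D : ℕ} {p : ℤ[X][X]} (h : (Bivariate.swap p).natDegree ≤ D) (i j : ℕ)
    (hj : D < j) : (p.coeff i).coeff j = 0 := by
  rw [← fz_swap_coeff, coeff_eq_zero_of_natDegree_lt (lt_of_le_of_lt h hj), coeff_zero]

private noncomputable def kap (m : ℕ) : ℤ[X][X] →+* ℤ[X] := evalRingHom (X ^ m)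

private lemma kap_sum (m : ℕ) (p : ℤ[X][X]) :
    kap m p = ∑ i ∈ Finset.range (p.natDegree + 1), p.coeff i * X ^ (m * i) := by
  unfold kap
  rw [coe_evalRingHom, eval_eq_sum_range]
  apply Finset.sum_congr rfl
  intro i _
  rw [pow_mul]

private lemma kap_coeff {D : ℕ} {p : ℤ[X][X]} (h : (Bivariate.swap p).natDegree ≤ D) (i j : ℕ)
    (hj : j ≤ D) : (kap (D + 1) p).coeff (j + (D + 1) * i) = (p.coeff i).coeff j := by
  rw [kap_sum, finset_sum_coeff]
  by_cases hi : i ∈ Finset.range (p.natDegree + 1)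
  · rw [Finset.sum_eq_single_of_mem i hi]
    · rw [coeff_mul_X_pow']
      rw [if_pos (Nat.le_add_left _ _), Nat.add_sub_cancel]
    · intro k _ hk
      rw [coeff_mul_X_pow']
      split_ifs with hle
      · apply fz_inner h
        have hki : k < i := by
          by_contra hcon
          have h1 : i + 1 ≤ k := by omega
          have h2 : (D + 1) * (i + 1) ≤ (D + 1) * k := Nat.mul_le_mul_left _ h1
          have h3 : (D + 1) * (i + 1) = (D + 1) * i + (D + 1) := by ring
          omega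
        have h2 : (D + 1) * (k + 1) ≤ (D + 1) * i := Nat.mul_le_mul_left _ hki
        have h3 : (D + 1) * (k + 1) = (D + 1) * k + (D + 1) := by ring
        omega
      · rfl
  · have hpi : p.coeff i = 0 := by
      apply coeff_eq_zero_of_natDegree_lt
      rw [Finset.mem_range] at hi
      omega
    rw [hpi, coeff_zero]
    apply Finset.sum_eq_zero
    intro k hk
    rw [coeff_mul_X_pow']
    split_ifs with hle
    · apply fz_inner h
      have hki : k < i := by
        rw [Finset.mem_range] at hi hk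
        omega
      have h2 : (D + 1) * (k + 1) ≤ (D + 1) * i := Nat.mul_le_mul_left _ hki
      have h3 : (D + 1) * (k + 1) = (D + 1) * k + (D + 1) := by ring
      omega
    · rfl

private lemma kap_ne {D : ℕ} {p : ℤ[X][X]} (h : (Bivariate.swap p).natDegree ≤ D) (hp : p ≠ 0) :
    kap (D + 1) p ≠ 0 := by
  intro h0
  apply hp
  ext i j
  rw [coeff_zero, coeff_zero]
  by_cases hj : j ≤ D
  · rw [← kap_coeff h i j hj, h0, coeff_zero]
  · exact fz_inner h i j (by omega)

private lemma kap_deg {D : ℕ} {p : ℤ[X][X]} (h1 : p.natDegree ≤ D)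
    (h : (Bivariate.swap p).natDegree ≤ D) : (kap (D + 1) p).natDegree ≤ D + (D + 1) * D := by
  rw [kap_sum]
  apply natDegree_sum_le_of_forall_le
  intro i hi
  have hiD : i ≤ D := by
    rw [Finset.mem_range] at hi
    omega
  refine natDegree_mul_le.trans ?_
  rw [natDegree_X_pow]
  apply Nat.add_le_add
  · rw [natDegree_le_iff_coeff_eq_zero]
    intro j hj
    exact fz_inner h i j hj
  · exact Nat.mul_le_mul_left _ hiD

private lemma l1_Xpow (k : ℕ) : l1 (X ^ k : ℤ[X]) ≤ 1 := by
  have h : l1 (X : ℤ[X]) ≤ 1 := by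
    rw [← l2_C, l2_CX]
  induction k with
  | zero => rw [pow_zero, l1_one]
  | succ k ih =>
    rw [pow_succ]
    exact (l1_mul _ _).trans (by simpa using Nat.mul_le_mul ih h)

private lemma l1_sum' {ι : Type*} (s : Finset ι) (f : ι → ℤ[X]) :
    l1 (∑ i ∈ s, f i) ≤ ∑ i ∈ s, l1 (f i) := by
  classical
  induction s using Finset.induction_on with
  | empty => rw [Finset.sum_empty, Finset.sum_empty, l1_zero]
  | insert a s ha ih =>
    rw [Finset.sum_insert ha, Finset.sum_insert ha]
    exact (l1_add _ _).trans (Nat.add_le_add_left ih _)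

private lemma kap_l1 (m : ℕ) (p : ℤ[X][X]) : l1 (kap m p) ≤ l2 p := by
  rw [kap_sum]
  refine (l1_sum' _ _).trans ?_
  have h1 : l2 p = ∑ i ∈ Finset.range (p.natDegree + 1), l1 (p.coeff i) := by
    unfold l2
    rw [sum_over_range]
    exact fun _ => l1_zero
  rw [h1]
  apply Finset.sum_le_sum
  intro i _
  refine (l1_mul _ _).trans ?_
  calc l1 (p.coeff i) * l1 (X ^ (m * i)) ≤ l1 (p.coeff i) * 1 := Nat.mul_le_mul_left _ (l1_Xpow _)
    _ = l1 (p.coeff i) := by rw [mul_one]

private lemma mahler_le (q : ℤ[X]) : (q.map (Int.castRingHom ℂ)).mahlerMeasure ≤ (l1 q : ℝ) := by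
  refine (mahlerMeasure_le_sum_norm_coeff _).trans ?_
  apply le_of_eq
  have h1 : (q.map (Int.castRingHom ℂ)).sum (fun _ a => ‖a‖)
      = ∑ i ∈ Finset.range (q.natDegree + 1), ‖(q.map (Int.castRingHom ℂ)).coeff i‖ := by
    apply sum_over_range' _ (fun _ => norm_zero) (q.natDegree + 1)
    exact lt_of_le_of_lt (natDegree_map_le) (Nat.lt_succ_self _)
  have h2 : l1 q = ∑ i ∈ Finset.range (q.natDegree + 1), (q.coeff i).natAbs := by
    unfold l1
    rw [sum_over_range]
    exact fun _ => Int.natAbs_zero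
  rw [h1, h2, Nat.cast_sum]
  apply Finset.sum_congr rfl
  intro i _
  rw [coeff_map, eq_intCast, Nat.cast_natAbs, Complex.norm_intCast, Int.cast_abs]

theorem facZ (D H : ℕ) (p h : ℤ[X][X]) (hp : p ≠ 0) (hd : h ∣ p) (hb : Bd D H p) :
    Bd D (4 ^ (D + 1) ^ 2 * H) h := by
  obtain ⟨q, hq⟩ := hd
  have hh0 : h ≠ 0 := by
    rintro rfl
    rw [zero_mul] at hq
    exact hp hq
  have hq0 : q ≠ 0 := by
    rintro rfl
    rw [mul_zero] at hq
    exact hp hq
  have hd1 : h.natDegree ≤ D := (natDegree_le_of_dvd ⟨q, hq⟩ hp).trans hb.1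
  have hsw0 : ∀ r : ℤ[X][X], r ≠ 0 → Bivariate.swap r ≠ 0 := by
    intro r hr h0
    apply hr
    rw [← Bivariate.swap_swap_apply r, h0, map_zero]
  have hswq : Bivariate.swap p = Bivariate.swap h * Bivariate.swap q := by
    rw [hq, map_mul]
  have hd2 : (Bivariate.swap h).natDegree ≤ D :=
    (natDegree_le_of_dvd ⟨_, hswq⟩ (hsw0 p hp)).trans hb.2.1
  have hd3 : (Bivariate.swap q).natDegree ≤ D :=
    (natDegree_le_of_dvd ⟨_, by rw [hswq, mul_comm]⟩ (hsw0 p hp)).trans hb.2.1
  refine ⟨hd1, hd2, ?_⟩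
  have hκ : kap (D + 1) p = kap (D + 1) h * kap (D + 1) q := by rw [hq, map_mul]
  have hκq : kap (D + 1) q ≠ 0 := kap_ne hd3 hq0
  set Mh := ((kap (D + 1) h).map (Int.castRingHom ℂ)).mahlerMeasure with hMh
  have hMh0 : 0 ≤ Mh := mahlerMeasure_nonneg _
  have hM : Mh ≤ (H : ℝ) := by
    have h1 : ((kap (D + 1) p).map (Int.castRingHom ℂ)).mahlerMeasure
        = Mh * ((kap (D + 1) q).map (Int.castRingHom ℂ)).mahlerMeasure := by
      rw [hκ, Polynomial.map_mul, mahlerMeasure_mul]
    have h2 : 1 ≤ ((kap (D + 1) q).map (Int.castRingHom ℂ)).mahlerMeasure :=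
      one_le_mahlerMeasure_of_ne_zero hκq
    have h3 : ((kap (D + 1) p).map (Int.castRingHom ℂ)).mahlerMeasure ≤ (H : ℝ) := by
      refine (mahler_le _).trans ?_
      have h4 : l1 (kap (D + 1) p) ≤ H := (kap_l1 _ _).trans hb.2.2
      exact_mod_cast h4
    nlinarith
  have hcoef : ∀ i j, ((h.coeff i).coeff j).natAbs ≤ 2 ^ (D + (D + 1) * D) * H := by
    intro i j
    by_cases hj : j ≤ D
    · rw [← kap_coeff hd2 i j hj]
      set n := j + (D + 1) * i
      have h1 := norm_coeff_le_choose_mul_mahlerMeasure n ((kap (D + 1) h).map (Int.castRingHom ℂ))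
      have h2 : ‖((kap (D + 1) h).map (Int.castRingHom ℂ)).coeff n‖
          = (((kap (D + 1) h).coeff n).natAbs : ℝ) := by
        rw [coeff_map, eq_intCast, Nat.cast_natAbs, Complex.norm_intCast, Int.cast_abs]
      rw [h2] at h1
      have h3 : (((kap (D + 1) h).map (Int.castRingHom ℂ)).natDegree.choose n : ℝ)
          ≤ (2 : ℝ) ^ (D + (D + 1) * D) := by
        have h4 : ((kap (D + 1) h).map (Int.castRingHom ℂ)).natDegree.choose n
            ≤ 2 ^ (D + (D + 1) * D) := by
          refine (Nat.choose_le_two_pow _ _).trans ?_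
          apply Nat.pow_le_pow_right (by norm_num)
          exact natDegree_map_le.trans (kap_deg hd1 hd2)
        exact_mod_cast h4
      have h5 : (((kap (D + 1) h).coeff n).natAbs : ℝ) ≤ (2 : ℝ) ^ (D + (D + 1) * D) * (H : ℝ) :=
        h1.trans (mul_le_mul h3 hM hMh0 (by positivity))
      exact_mod_cast h5
    · rw [fz_inner hd2 i j (by omega)]
      simp
  refine (l2_le_of_coeff D _ h hd1 hd2 hcoef).trans ?_
  have h1 : (D + 1) ^ 2 ≤ 2 ^ ((D + 1) ^ 2) := Nat.lt_two_pow_self.le
  have h2 : 2 ^ (D + (D + 1) * D) ≤ 2 ^ ((D + 1) ^ 2) := by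
    apply Nat.pow_le_pow_right (by norm_num)
    nlinarith
  calc (D + 1) ^ 2 * (2 ^ (D + (D + 1) * D) * H) ≤ 2 ^ ((D + 1) ^ 2) * (2 ^ ((D + 1) ^ 2) * H) :=
        Nat.mul_le_mul h1 (Nat.mul_le_mul_right _ h2)
    _ = 4 ^ (D + 1) ^ 2 * H := by
        rw [← mul_assoc, ← mul_pow]
        norm_num

end AAC
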