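import Pool.Agent.AAC.BdZ

/-!
# AAC-Facs
Nonconstant irreducible factors of a bivariate integer polynomial.
-/

set_option autoImplicit false

namespace AAC

open Matrix Module Polynomial Pool.Agent.Helper72.TV Pool.Agent.Helper72.PT Pool.Agent.Helper72.PF TRS

private theorem fcs_coeff_swap (p : ℤ[X][X]) (i j : ℕ) :
    ((Bivariate.swap p).coeff j).coeff i = (p.coeff i).coeff j := by
  induction p using Polynomial.induction_on' with
  | add p q hp hq => rw [map_add, coeff_add, coeff_add, coeff_add, coeff_add, hp, hq]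
  | monomial n a =>
    induction a using Polynomial.induction_on' with
    | add a b ha hb =>
      rw [map_add (monomial n), map_add, coeff_add, coeff_add, coeff_add, coeff_add, ha, hb]
    | monomial m r =>
      rw [Bivariate.swap_monomial_monomial, coeff_monomial, coeff_monomial]
      by_cases h1 : m = j <;> by_cases h2 : n = i <;> simp [h1, h2, coeff_monomial]

private theorem fcs_swap_ne {p : ℤ[X][X]} (hp : p ≠ 0) : Bivariate.swap p ≠ 0 := by
  intro h
  exact hp ((map_eq_zero_iff _ (Bivariate.swap (R := ℤ)).injective).1 h)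

/-- a polynomial which is constant in both variables -/
private theorem fcs_const {h : ℤ[X][X]} (h1 : h.natDegree = 0)
    (h2 : (Bivariate.swap h).natDegree = 0) : ∃ q : ℤ, h = C (C q) := by
  obtain ⟨a, ha⟩ := natDegree_eq_zero.1 h1
  have h3 : a.natDegree = 0 := by
    rw [← Nat.le_zero, natDegree_le_iff_coeff_eq_zero]
    intro j hj
    have e := fcs_coeff_swap h 0 j
    rw [← ha, coeff_C_zero] at e
    rw [← e, ha, coeff_eq_zero_of_natDegree_lt (p := Bivariate.swap h) (by omega), coeff_zero]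
  obtain ⟨c, hc⟩ := natDegree_eq_zero.1 h3
  exact ⟨c, by rw [hc, ha]⟩

private theorem fcs_dvd {h p : ℤ[X][X]} (hp : p ≠ 0) (hd : h ∣ p) :
    h.natDegree ≤ p.natDegree ∧ (Bivariate.swap h).natDegree ≤ (Bivariate.swap p).natDegree := by
  refine ⟨natDegree_le_of_dvd hd hp, ?_⟩
  obtain ⟨q, rfl⟩ := hd
  have hh : h ≠ 0 := left_ne_zero_of_mul hp
  have hq : q ≠ 0 := right_ne_zero_of_mul hp
  rw [map_mul, natDegree_mul (fcs_swap_ne hh) (fcs_swap_ne hq)]
  exact Nat.le_add_right _ _

private theorem fcs_card (s : Multiset ℤ[X][X]) (hs : ∀ h ∈ s, h ≠ 0) :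
    s.prod ≠ 0 ∧ Multiset.card (s.filter fun h => 1 ≤ h.natDegree + (Bivariate.swap h).natDegree) ≤
      s.prod.natDegree + (Bivariate.swap s.prod).natDegree := by
  induction s using Multiset.induction_on with
  | empty =>
    refine ⟨?_, ?_⟩
    · rw [Multiset.prod_zero]
      exact one_ne_zero
    · rw [Multiset.filter_zero, Multiset.card_zero]
      exact Nat.zero_le _
  | cons a s ih =>
    obtain ⟨h1, h2⟩ := ih fun h hh => hs h (Multiset.mem_cons_of_mem hh)
    have ha := hs a (Multiset.mem_cons_self a s)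
    refine ⟨?_, ?_⟩
    · rw [Multiset.prod_cons]
      exact mul_ne_zero ha h1
    · rw [Multiset.prod_cons, natDegree_mul ha h1, map_mul,
        natDegree_mul (fcs_swap_ne ha) (fcs_swap_ne h1), Multiset.filter_cons]
      by_cases hd : 1 ≤ a.natDegree + (Bivariate.swap a).natDegree
      · rw [if_pos hd, Multiset.card_add, Multiset.card_singleton]
        omega
      · rw [if_neg hd, zero_add]
        omega

open UniqueFactorizationMonoid in
theorem facs (D : ℕ) (p : ℤ[X][X]) (hp : p ≠ 0) (h1 : p.natDegree ≤ D)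
    (h2 : (Bivariate.swap p).natDegree ≤ D) :
    ∃ S : Finset ℤ[X][X], S.card ≤ 2 * D ∧
      (∀ h ∈ S, Irreducible h ∧ h ∣ p ∧ 1 ≤ h.natDegree + (Bivariate.swap h).natDegree) ∧
      ∃ m : ℤ, m ≠ 0 ∧ m.natAbs ≤ l2 p ∧
        ∀ {K : Type} [Field K] (ψ : ℤ[X][X] →+* K), ψ p = 0 →
          ((m : K) = 0 ∨ ∃ h ∈ S, ψ h = 0) := by
  classical
  have hirr : ∀ h ∈ factors p, Irreducible h := fun h hh => irreducible_of_factor h hh
  obtain ⟨hc0, hc⟩ := fcs_card (factors p) fun h hh => (hirr h hh).ne_zero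
  have hass : Associated (factors p).prod p := factors_prod hp
  have hdvd : ∀ h ∈ factors p, h ∣ p := fun h hh => (Multiset.dvd_prod hh).trans hass.dvd
  obtain ⟨hd1, hd2⟩ := fcs_dvd hp hass.dvd
  obtain ⟨i, hi⟩ : ∃ i, p.coeff i ≠ 0 := by
    by_contra hcon
    push Not at hcon
    exact hp (Polynomial.ext fun i => by rw [hcon i, coeff_zero])
  obtain ⟨j, hj⟩ : ∃ j, (p.coeff i).coeff j ≠ 0 := by
    by_contra hcon
    push Not at hcon
    exact hi (Polynomial.ext fun j => by rw [hcon j, coeff_zero])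
  refine ⟨((factors p).filter fun h => 1 ≤ h.natDegree + (Bivariate.swap h).natDegree).toFinset,
    ?_, ?_, (p.coeff i).coeff j, hj, (natAbs_coeff_le _ j).trans (l1_coeff_le p i), ?_⟩
  · refine (Multiset.toFinset_card_le _).trans ?_
    omega
  · intro h hh
    rw [Multiset.mem_toFinset, Multiset.mem_filter] at hh
    exact ⟨hirr h hh.1, hdvd h hh.1, hh.2⟩
  · intro K _ ψ hψ
    have h3 : ψ (factors p).prod = 0 := by
      obtain ⟨u, hu⟩ := hass
      rw [← hu, map_mul] at hψ
      rcases mul_eq_zero.1 hψ with h4 | h4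
      · exact h4
      · exact absurd h4 ((u.isUnit.map ψ).ne_zero)
    rw [map_multiset_prod, Multiset.prod_eq_zero_iff, Multiset.mem_map] at h3
    obtain ⟨h, hh, hh0⟩ := h3
    by_cases hd : 1 ≤ h.natDegree + (Bivariate.swap h).natDegree
    · right
      exact ⟨h, Multiset.mem_toFinset.2 (Multiset.mem_filter.2 ⟨hh, hd⟩), hh0⟩
    · left
      obtain ⟨q, hq⟩ := fcs_const (h := h) (by omega) (by omega)
      obtain ⟨r, hr⟩ := hdvd h hh
      have h5 : (q : K) = 0 := by
        have h6 : ((ψ.comp C).comp C) q = (q : K) := eq_intCast _ q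
        rw [← h6, RingHom.comp_apply, RingHom.comp_apply, ← hq]
        exact hh0
      have h7 : (p.coeff i).coeff j = q * (r.coeff i).coeff j := by
        rw [hr, hq, coeff_C_mul, coeff_C_mul]
      rw [h7, Int.cast_mul, h5, zero_mul]

end AAC
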