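import Mathlib

/-!
# AAC-Far
A trace at distance more than `1/50` from `[-2, 2]` has a large eigenvalue.
-/

set_option autoImplicit false

namespace AAC

private theorem exists_nu (τ : ℂ) : ∃ ν : ℂ, ν ≠ 0 ∧ τ = ν + ν⁻¹ ∧ 1 ≤ ‖ν‖ := by
  obtain ⟨s, hs⟩ := IsAlgClosed.exists_pow_nat_eq (τ ^ 2 - 4) (n := 2) (by norm_num)
  have h2 : ((τ + s) / 2) * (τ - (τ + s) / 2) = 1 := by
    linear_combination (-1 / 4) * hs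
  obtain ⟨μ, hμ⟩ : ∃ μ, μ = (τ + s) / 2 := ⟨_, rfl⟩
  rw [← hμ] at h2
  have h0 : μ ≠ 0 := by
    intro h0
    rw [h0, zero_mul] at h2
    exact zero_ne_one h2
  have h3 : τ - μ = μ⁻¹ := eq_inv_of_mul_eq_one_right h2
  by_cases h1 : 1 ≤ ‖μ‖
  · exact ⟨μ, h0, by rw [← h3]; ring, h1⟩
  · refine ⟨μ⁻¹, inv_ne_zero h0, ?_, ?_⟩
    · rw [inv_inv, ← h3]
      ring
    · rw [norm_inv]
      push Not at h1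
      exact (one_le_inv₀ (norm_pos_iff.2 h0)).2 h1.le

theorem far (τ : ℂ) (h : ∀ u : ℝ, -2 ≤ u → u ≤ 2 → 1 / 50 < ‖τ - u‖) :
    ∃ ν : ℂ, ν ≠ 0 ∧ τ = ν + ν⁻¹ ∧ 1 + 1 / 200 ≤ ‖ν‖ := by
  obtain ⟨ν, hν0, hτ, hν1⟩ := exists_nu τ
  refine ⟨ν, hν0, hτ, ?_⟩
  by_contra hlt
  push Not at hlt
  have hρ0 : 0 < ‖ν‖ := norm_pos_iff.2 hν0
  have hre := abs_le.1 (Complex.abs_re_le_norm ν)
  have hu := h (2 * ν.re / ‖ν‖) (by rw [le_div_iff₀ hρ0]; linarith [hre.1])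
    (by rw [div_le_iff₀ hρ0]; linarith [hre.2])
  have hρC : (‖ν‖ : ℂ) ≠ 0 := by exact_mod_cast hρ0.ne'
  have hconj : ν * (starRingEnd ℂ) ν = (‖ν‖ : ℂ) ^ 2 := by
    rw [Complex.mul_conj, Complex.normSq_eq_norm_sq]
    push_cast
    rfl
  have hsum : ν + (starRingEnd ℂ) ν = 2 * (ν.re : ℂ) := by
    rw [Complex.add_conj]
    push_cast
    rfl
  have hinv : ν⁻¹ = (starRingEnd ℂ) ν * ((‖ν‖ : ℂ)⁻¹) ^ 2 := by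
    have h1 : ν⁻¹ * (ν * (starRingEnd ℂ) ν) = (starRingEnd ℂ) ν := by
      rw [← mul_assoc, inv_mul_cancel₀ hν0, one_mul]
    rw [hconj] at h1
    rw [← h1]
    field_simp
  have key : τ - ((2 * ν.re / ‖ν‖ : ℝ) : ℂ) = ν * ((1 - ‖ν‖⁻¹ : ℝ) : ℂ) +
      (starRingEnd ℂ) ν * ((‖ν‖⁻¹ ^ 2 - ‖ν‖⁻¹ : ℝ) : ℂ) := by
    rw [hτ, hinv]
    push_cast
    rw [← hsum]
    ring
  have hi1 : ‖ν‖⁻¹ ≤ 1 := inv_le_one_of_one_le₀ hν1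
  have hi0 : 0 < ‖ν‖⁻¹ := inv_pos.2 hρ0
  have hm : ‖ν‖ * ‖ν‖⁻¹ = 1 := mul_inv_cancel₀ hρ0.ne'
  have n1 : ‖ν * ((1 - ‖ν‖⁻¹ : ℝ) : ℂ)‖ = ‖ν‖ - 1 := by
    rw [norm_mul, Complex.norm_real, Real.norm_of_nonneg (by linarith), mul_sub, hm, mul_one]
  have n2 : ‖(starRingEnd ℂ) ν * ((‖ν‖⁻¹ ^ 2 - ‖ν‖⁻¹ : ℝ) : ℂ)‖ = 1 - ‖ν‖⁻¹ := by
    have h3 : ‖ν‖⁻¹ ^ 2 - ‖ν‖⁻¹ ≤ 0 := by nlinarith
    rw [norm_mul, Complex.norm_real, RCLike.norm_conj, Real.norm_of_nonpos h3]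
    calc ‖ν‖ * -(‖ν‖⁻¹ ^ 2 - ‖ν‖⁻¹) = ‖ν‖ * ‖ν‖⁻¹ - (‖ν‖ * ‖ν‖⁻¹) * ‖ν‖⁻¹ := by ring
      _ = 1 - ‖ν‖⁻¹ := by rw [hm, one_mul]
  have h5 : ‖τ - ((2 * ν.re / ‖ν‖ : ℝ) : ℂ)‖ ≤ (‖ν‖ - 1) + (1 - ‖ν‖⁻¹) := by
    rw [key]
    refine (norm_add_le _ _).trans ?_
    rw [n1, n2]
  have h6 : 2 - ‖ν‖ ≤ ‖ν‖⁻¹ := by
    nlinarith [sq_nonneg (‖ν‖ - 1), mul_nonneg hi0.le (sq_nonneg (‖ν‖ - 1))]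
  linarith

end AAC
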