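import Pool.Agent.AAC.Bal2
import Pool.Agent.TRS.Star
import Pool.Agent.TRS.Dia

/-! # AAC-Fin: all generating sets in almost all characteristics, final form -/

set_option autoImplicit false

namespace AAC

open Matrix Module Pool.Agent.Helper72.TV Pool.Agent.Helper72.PT Pool.Agent.Helper72.PF TRS
open scoped MatrixGroups

private theorem one_le_log (F : Type) [Field F] [Fintype F] :
    1 ≤ Real.log (Nat.card (SL2 F)) := by
  have h1 := sl_ge F
  have h2 : 2 ≤ Fintype.card F := Fintype.one_lt_card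
  have h3 : 2 ^ 3 ≤ Fintype.card F ^ 3 := Nat.pow_le_pow_left h2 3
  have h4 : (3 : ℝ) ≤ Nat.card (SL2 F) := by exact_mod_cast (by omega : 3 ≤ Nat.card (SL2 F))
  rw [Real.le_log_iff_exp_le (by linarith)]
  have := Real.exp_one_lt_d9
  linarith

private theorem short_mono {G : Type} [Group G] {S : Set G} {L L' : ℝ} (h : Short S L)
    (hL : L ≤ L') : Short S L' := by
  intro g
  obtain ⟨m, hm, hle⟩ := h g
  exact ⟨m, hm, hle.trans hL⟩

private theorem log_small (F : Type) [Field F] [Fintype F] (h : Nat.card F < 1000) (n : ℕ)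
    (hn : (n : ℝ) ≤ Real.log (Nat.card (SL2 F))) : (n : ℝ) + 1 ≤ 41 := by
  have h1 := card_sl_le (F := F)
  rw [Nat.card_eq_fintype_card] at h
  have h2 : Fintype.card F ^ 4 ≤ 1000 ^ 4 := Nat.pow_le_pow_left h.le 4
  have h3 : (1000 : ℕ) ^ 4 ≤ 2 ^ 40 := by norm_num
  have h4 : (Nat.card (SL2 F) : ℝ) ≤ 2 ^ 40 := by exact_mod_cast h1.trans (h2.trans h3)
  have h5 := sl_ge F
  have h6 : 2 ≤ Fintype.card F := Fintype.one_lt_card
  have h7 : 2 ^ 3 ≤ Fintype.card F ^ 3 := Nat.pow_le_pow_left h6 3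
  have h8 : (0 : ℝ) < Nat.card (SL2 F) := by exact_mod_cast (by omega : 0 < Nat.card (SL2 F))
  have h9 := Real.log_le_log h8 h4
  rw [Real.log_pow] at h9
  have h10 := Real.log_two_lt_d9
  push_cast at h9
  linarith

theorem aacS : ∃ C : ℝ, 0 < C ∧ ∀ n : ℕ, ∃ E : Finset ℕ, E.card < 2 ^ (1049 * n) ∧
    ∀ (F : Type) [Field F] [Fintype F], ringChar F ∉ E →
      (n : ℝ) ≤ Real.log (Nat.card (SL2 F)) →
      ∀ S : Set (SL2 F), Subgroup.closure S = ⊤ →
        Short S (C * (Real.log (Nat.card (SL2 F)) ^ 9 / ((n : ℝ) + 1) ^ 8)) := by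
  obtain ⟨C1, hC1, h1⟩ := finalE
  obtain ⟨N, hN, h2⟩ := bal2
  obtain ⟨C2, hC2, h3⟩ := dia N hN
  refine ⟨C1 * 41 ^ 8 + 256 * C2, by positivity, ?_⟩
  intro n
  rcases Nat.eq_zero_or_pos n with rfl | hn1
  · refine ⟨∅, by simp, ?_⟩
    intro F _ _ _ _ S hS g
    have hΛ := one_le_log F
    have hΛ9 : 0 ≤ Real.log (Nat.card (SL2 F)) ^ 9 := by positivity
    obtain ⟨m, hm, hle⟩ := h1 F S hS g
    refine ⟨m, hm, hle.trans ?_⟩
    simp only [Nat.cast_zero, zero_add, one_pow, div_one]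
    apply mul_le_mul_of_nonneg_right _ hΛ9
    nlinarith
  · obtain ⟨E, hE, h4⟩ := h2 n hn1
    refine ⟨E, lt_of_le_of_lt hE (Nat.pow_lt_pow_right (by norm_num) (by omega)), ?_⟩
    intro F _ _ hFE hn S hS g
    have hΛ := one_le_log F
    have hΛ9 : 0 ≤ Real.log (Nat.card (SL2 F)) ^ 9 := by positivity
    have h8 : 0 ≤ Real.log (Nat.card (SL2 F)) ^ 9 / ((n : ℝ) + 1) ^ 8 := by positivity
    by_cases hF : Nat.card F < 1000
    · obtain ⟨m, hm, hle⟩ := h1 F S hS g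
      refine ⟨m, hm, hle.trans ?_⟩
      have h5 : ((n : ℝ) + 1) ^ 8 ≤ 41 ^ 8 :=
        pow_le_pow_left₀ (by positivity) (log_small F hF n hn) 8
      calc C1 * Real.log (Nat.card (SL2 F)) ^ 9
          = C1 * (((n : ℝ) + 1) ^ 8 *
              (Real.log (Nat.card (SL2 F)) ^ 9 / ((n : ℝ) + 1) ^ 8)) := by
            congr 1
            field_simp
        _ ≤ C1 * (41 ^ 8 * (Real.log (Nat.card (SL2 F)) ^ 9 / ((n : ℝ) + 1) ^ 8)) := by
            apply mul_le_mul_of_nonneg_left _ hC1.le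
            exact mul_le_mul_of_nonneg_right h5 h8
        _ = C1 * 41 ^ 8 * (Real.log (Nat.card (SL2 F)) ^ 9 / ((n : ℝ) + 1) ^ 8) := by ring
        _ ≤ _ := by
            apply mul_le_mul_of_nonneg_right _ h8
            nlinarith
    · push Not at hF
      obtain ⟨h5, h6⟩ := h4 F hF hFE S hS
      obtain ⟨m, hm, hle⟩ := h3 F S hS h5 n hn1 hn h6 g
      refine ⟨m, hm, hle.trans ?_⟩
      have hn' : (1 : ℝ) ≤ n := by exact_mod_cast hn1
      have h7 : Real.log (Nat.card (SL2 F)) ^ 9 / (n : ℝ) ^ 8 ≤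
          256 * (Real.log (Nat.card (SL2 F)) ^ 9 / ((n : ℝ) + 1) ^ 8) := by
        rw [← mul_div_assoc, div_le_div_iff₀ (by positivity) (by positivity)]
        have h6 : ((n : ℝ) + 1) ^ 8 ≤ (2 * n) ^ 8 :=
          pow_le_pow_left₀ (by positivity) (by linarith) 8
        have h7 : ((2 : ℝ) * n) ^ 8 = 256 * (n : ℝ) ^ 8 := by ring
        calc Real.log (Nat.card (SL2 F)) ^ 9 * ((n : ℝ) + 1) ^ 8 ≤
            Real.log (Nat.card (SL2 F)) ^ 9 * (256 * (n : ℝ) ^ 8) := by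
              apply mul_le_mul_of_nonneg_left _ hΛ9
              rw [← h7]
              exact h6
          _ = _ := by ring
      calc C2 * (Real.log (Nat.card (SL2 F)) ^ 9 / (n : ℝ) ^ 8) ≤
          C2 * (256 * (Real.log (Nat.card (SL2 F)) ^ 9 / ((n : ℝ) + 1) ^ 8)) :=
            mul_le_mul_of_nonneg_left h7 hC2.le
        _ = 256 * C2 * (Real.log (Nat.card (SL2 F)) ^ 9 / ((n : ℝ) + 1) ^ 8) := by ring
        _ ≤ _ := by
          apply mul_le_mul_of_nonneg_right _ h8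
          have : 0 ≤ C1 * 41 ^ 8 := by positivity
          linarith

/-- from `SL₂(F)` to `PGL₂(F)` -/
private theorem pgl_of (F : Type) [Field F] [Fintype F] (n : ℕ) (C : ℝ) (hC : 0 < C)
    (hn : (n : ℝ) ≤ Real.log (Nat.card (SL2 F)))
    (h : ∀ S : Set (SL2 F), Subgroup.closure S = ⊤ →
        Short S (C * (Real.log (Nat.card (SL2 F)) ^ 9 / ((n : ℝ) + 1) ^ 8)))
    (S : Set PGL(2, F)) (hS : Subgroup.closure S = ⊤) :
    Short S ((3 * C + 256) * (Real.log (Nat.card (SL2 F)) ^ 9 / ((n : ℝ) + 1) ^ 8)) := by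
  intro g
  have hΛ := one_le_log F
  have hΛ9 : 0 ≤ Real.log (Nat.card (SL2 F)) ^ 9 := by positivity
  have hn0 : (0 : ℝ) ≤ n := Nat.cast_nonneg n
  have h1 : 1 ≤ 256 * (Real.log (Nat.card (SL2 F)) ^ 9 / ((n : ℝ) + 1) ^ 8) := by
    rw [← mul_div_assoc, le_div_iff₀ (by positivity), one_mul]
    calc ((n : ℝ) + 1) ^ 8 ≤ (2 * Real.log (Nat.card (SL2 F))) ^ 8 :=
          pow_le_pow_left₀ (by positivity) (by linarith) 8
      _ = 256 * Real.log (Nat.card (SL2 F)) ^ 8 := by ring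
      _ ≤ 256 * Real.log (Nat.card (SL2 F)) ^ 9 := by
        apply mul_le_mul_of_nonneg_left _ (by norm_num)
        exact pow_le_pow_right₀ hΛ (by norm_num)
  have key : ∀ x : SL2 F, ∃ m : ℕ, Matrix.SpecialLinearGroup.toPGL x ∈ Words S m ∧
      (m : ℝ) ≤ 3 * C * (Real.log (Nat.card (SL2 F)) ^ 9 / ((n : ℝ) + 1) ^ 8) := by
    intro x
    obtain ⟨m, hm, hle⟩ := h _ (sch S hS) x
    refine ⟨m * 3, map_mem_words Matrix.SpecialLinearGroup.toPGL (fun z hz => hz) hm, ?_⟩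
    push_cast
    linarith
  rcases sch2 S hS g with ⟨x, rfl⟩ | ⟨s, hs, x, hx⟩
  · obtain ⟨m, hm, hle⟩ := key x
    exact ⟨m, hm, by linarith⟩
  · obtain ⟨m, hm, hle⟩ := key x
    refine ⟨1 + m, ?_, ?_⟩
    · have h1 := mul_mem_words (inv_mem_words (mem_words_one hs)) hm
      rw [hx, inv_mul_cancel_left] at h1
      exact h1
    · push_cast
      linarith

/-- the theorem on almost all characteristics, for both groups -/
theorem aac : ∃ C : ℝ, 0 < C ∧ ∀ n : ℕ, ∃ E : Finset ℕ, E.card < 2 ^ (1049 * n) ∧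
    ∀ (F : Type) [Field F] [Fintype F], ringChar F ∉ E →
      ((n : ℝ) ≤ Real.log (Nat.card (SL2 F)) →
        ∀ S : Set (SL2 F), Subgroup.closure S = ⊤ →
          Short S (C * (Real.log (Nat.card (SL2 F)) ^ 9 / ((n : ℝ) + 1) ^ 8))) ∧
      ((n : ℝ) ≤ Real.log (Nat.card PGL(2, F)) →
        ∀ S : Set PGL(2, F), Subgroup.closure S = ⊤ →
          Short S (C * (Real.log (Nat.card PGL(2, F)) ^ 9 / ((n : ℝ) + 1) ^ 8))) := by
  obtain ⟨C, hC, h⟩ := aacS
  refine ⟨3 * C + 256, by positivity, ?_⟩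
  intro n
  obtain ⟨E, hE, h⟩ := h n
  refine ⟨E, hE, ?_⟩
  intro F _ _ hF
  have h8 : 0 ≤ Real.log (Nat.card (SL2 F)) ^ 9 / ((n : ℝ) + 1) ^ 8 := by
    have : 0 ≤ Real.log (Nat.card (SL2 F)) := Real.log_natCast_nonneg _
    positivity
  constructor
  · intro hn S hS
    refine short_mono (h F hF hn S hS) ?_
    apply mul_le_mul_of_nonneg_right _ h8
    linarith
  · rw [card_pgl]
    intro hn S hS
    exact pgl_of F n C hC hn (fun S hS => h F hF hn S hS) S hS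

end AAC
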