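import Pool.Agent.AAC.Ineq

/-!
# AAC-NT (1.2h)
Three algebraic integers with sum 4 cannot all have all their conjugates near `[0, 4]`. PLAN. Suppose not: for all embeddings `σ` and all `i` some `u ∈ [0, 4]` has `‖σ (t i) - u‖ ≤ 1/50`. `cplxIneq` for `σ (t i)` (nonzero and `≠ 1` by injectivity of `σ`). Sum over the `d = [K : ℚ]` embeddings and over `i`:
`∑ σ, ∑ i, re (σ (t i)) = re (∑ σ, σ (t 0 + t 1 + t 2)) = 4 d`, and `∑ σ, log ‖σ (t i)‖ = log |norm (t i)| ≥ 0` since the norm of a nonzero algebraic integer is a nonzero integer (`Algebra.norm_eq_prod_embeddings`, `Algebra.isIntegral_norm`, `IsIntegrallyClosed`/`Int` rational integral is an integer: `Rat` version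
`IsIntegrallyClosed.isIntegral_iff`), the same for `t i - 1`. So `4 d ≥ 3 d (4/3 + 1/100)`, absurd as `d ≥ 1` (the number of `σ : K →+* ℂ` is `Module.finrank ℚ K`, `NumberField.Embeddings.card`).
-/

set_option autoImplicit false

namespace AAC



private theorem log_norm {K : Type} [Field K] [NumberField K] (x : K) (hx : IsIntegral ℤ x)
    (h0 : x ≠ 0) : 0 ≤ ∑ σ : K →ₐ[ℚ] ℂ, Real.log ‖σ x‖ := by
  have h1 := Algebra.norm_eq_prod_embeddings ℚ ℂ x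
  have h2 : IsIntegral ℤ (Algebra.norm ℚ x) := Algebra.isIntegral_norm ℚ hx
  obtain ⟨y, hy⟩ := IsIntegrallyClosed.isIntegral_iff.1 h2
  have h3 : Algebra.norm ℚ x ≠ 0 := Algebra.norm_ne_zero_iff.2 h0
  have hy0 : y ≠ 0 := by
    rintro rfl
    rw [map_zero] at hy
    exact h3 hy.symm
  have h4 : (1 : ℝ) ≤ ‖∏ σ : K →ₐ[ℚ] ℂ, σ x‖ := by
    rw [← h1, ← hy]
    have e : (algebraMap ℚ ℂ) ((algebraMap ℤ ℚ) y) = (y : ℂ) := by simp
    rw [e, Complex.norm_intCast]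
    exact_mod_cast Int.one_le_abs hy0
  have h5 : ∑ σ : K →ₐ[ℚ] ℂ, Real.log ‖σ x‖ = Real.log ‖∏ σ : K →ₐ[ℚ] ℂ, σ x‖ := by
    rw [norm_prod, Real.log_prod]
    intro σ _
    exact norm_ne_zero_iff.2 ((map_ne_zero σ).2 h0)
  rw [h5]
  exact Real.log_nonneg h4

theorem nt {K : Type} [Field K] [NumberField K] (t : Fin 3 → K) (hint : ∀ i, IsIntegral ℤ (t i))
    (hsum : t 0 + t 1 + t 2 = 4) (h0 : ∀ i, t i ≠ 0) (h1 : ∀ i, t i ≠ 1) :
    ∃ σ : K →+* ℂ, ∃ i, ∀ u : ℝ, 0 ≤ u → u ≤ 4 → 1 / 50 < ‖σ (t i) - u‖ := by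
  by_contra hcon
  push Not at hcon
  have key : ∀ (σ : K →ₐ[ℚ] ℂ) (i : Fin 3), 4 / 3 + 1 / 100 ≤
      (σ (t i)).re - 3 / 4 * Real.log ‖σ (t i)‖ - 3 / 4 * Real.log ‖σ (t i - 1)‖ := by
    intro σ i
    have h2 := cplxIneq (σ (t i)) ((map_ne_zero σ).2 (h0 i)) ?_ (hcon σ.toRingHom i)
    · rw [map_sub, map_one]
      exact h2
    · intro h
      rw [← map_one σ] at h
      exact h1 i (σ.injective h)
  have hs : ∀ σ : K →ₐ[ℚ] ℂ, (σ (t 0)).re + (σ (t 1)).re + (σ (t 2)).re = 4 := by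
    intro σ
    have h2 : σ (t 0) + σ (t 1) + σ (t 2) = 4 := by
      rw [← map_add, ← map_add, hsum, map_ofNat]
    have h3 := congrArg Complex.re h2
    rw [Complex.add_re, Complex.add_re] at h3
    rw [h3]
    norm_num
  have hl : ∀ i, 0 ≤ ∑ σ : K →ₐ[ℚ] ℂ, Real.log ‖σ (t i)‖ := fun i => log_norm (t i) (hint i) (h0 i)
  have hl' : ∀ i, 0 ≤ ∑ σ : K →ₐ[ℚ] ℂ, Real.log ‖σ (t i - 1)‖ := fun i =>
    log_norm (t i - 1) ((hint i).sub isIntegral_one) (sub_ne_zero.2 (h1 i))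
  have h2 : ∑ σ : K →ₐ[ℚ] ℂ, (4 + 3 / 100 : ℝ) ≤ ∑ σ : K →ₐ[ℚ] ℂ, (4 -
      3 / 4 * (Real.log ‖σ (t 0)‖ + Real.log ‖σ (t 1)‖ + Real.log ‖σ (t 2)‖ +
        (Real.log ‖σ (t 0 - 1)‖ + Real.log ‖σ (t 1 - 1)‖ + Real.log ‖σ (t 2 - 1)‖))) := by
    refine Finset.sum_le_sum fun σ _ => ?_
    have a0 := key σ 0
    have a1 := key σ 1
    have a2 := key σ 2
    have a3 := hs σ
    linarith
  rw [Finset.sum_sub_distrib, ← Finset.mul_sum, Finset.sum_add_distrib, Finset.sum_add_distrib,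
    Finset.sum_add_distrib, Finset.sum_add_distrib, Finset.sum_add_distrib, Finset.sum_const,
    Finset.sum_const, nsmul_eq_mul, nsmul_eq_mul, Finset.sum_add_distrib] at h2
  have hc : (0 : ℝ) < ((Finset.univ : Finset (K →ₐ[ℚ] ℂ)).card : ℝ) := by
    have h3 : (Finset.univ : Finset (K →ₐ[ℚ] ℂ)).card = Module.finrank ℚ K := by
      rw [Finset.card_univ]
      exact AlgHom.card ℚ K ℂ
    rw [h3]
    exact_mod_cast (Module.finrank_pos : 0 < Module.finrank ℚ K)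
  have b0 := hl 0
  have b1 := hl 1
  have b2 := hl 2
  have c0 := hl' 0
  have c1 := hl' 1
  have c2 := hl' 2
  linarith

end AAC
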