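import Pool.Agent.AAC.GapC
import Pool.Agent.AAC.NT
import Pool.Agent.Helper72.PF.Trip
import Pool.Agent.Helper72.PF.Val

/-!
# AAC-Gap (1.6h)
The gap theorem: over an algebraically closed field of characteristic zero, at every point where `nd ≠ 0` one of the 12 types of test words is free. PLAN. (0) For any algebraically closed field and `x, y, z` there are `A, B ∈ SL₂` with `tr A = x`, `tr B = y`, `tr (A B) = z` (`genPt_aux` in `Helper72/PF/GenPt.lean`: `s² - z s + 1 = 0`, `A = !![x, -1; 1, 0]`,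
`B = !![0, s; -s⁻¹, y]`), `tr [A, B] - 2 = kp x y z ≠ 0`. (1) If one of `x, y, z` is not integral over `ℤ`, there is a valuation with value `> 1` on it (copy `exists_val` with the subring `integralClosure ℤ L`: `Subring.exists_le_valuationSubring_of_isIntegrallyClosedIn`), and `trip` (`x ≠ 0`, `y ≠ 0`) gives an old type: `wdt_inl`; conclude with `co_eval` as in `genPt_aux`.
(2) Otherwise `x, y, z` are algebraic integers; `K = IntermediateField.adjoin ℚ {x, y, z} ⊆ L` (or `Algebra.adjoin`/`Subfield`; `L` is a `ℚ`-algebra by `CharZero`; note that `K` must have type `Type`: `L : Type`) is a number field (finitely many algebraic generators: `IntermediateField.finiteDimensional_adjoin` ...). Put `t = ![x², 4 - x² + κ, -κ]`, integral, sum `4`; `nd ≠ 0`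
says exactly that no `t i` is `0` or `1` (`x ≠ 0`, `x² ≠ 1`, `x² - κ ≠ 4, 3`, `κ ≠ 0, -1`). `nt` gives `σ : K →+* ℂ` and `i` with `σ (t i)` far from `[0, 4]`. Take `A, B ∈ SL₂(ℂ)` with traces `σ x, σ y, σ z`; `nd (σ x) (σ y) (σ z) = σ (nd x y z) ≠ 0`; `gapC` gives a new type `p`. If `l ≠ l'` (equal length) had equal coefficients `co x y z (wdt p l) j` in `L`, so in `K`
(`co_map` for `K → L`, injective) then their images under `σ` agree (`co_map`), so `evw A B` agree (`co_eval`), contradiction.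
-/

set_option autoImplicit false

namespace AAC

open Matrix Module Polynomial Pool.Agent.Helper72.TV Pool.Agent.Helper72.PT Pool.Agent.Helper72.PF TRS

/-- matrices with given traces -/
private theorem exists_AB {L : Type*} [Field L] [IsAlgClosed L] (x y z : L) :
    ∃ A B : SL2 L, tr A = x ∧ tr B = y ∧ tr (A * B) = z := by
  obtain ⟨s, hs⟩ : ∃ s : L, s ^ 2 - z * s + 1 = 0 := by
    have hdeg : (X ^ 2 - C z * X + 1 : L[X]).degree = 2 := by
      have e1 : (X ^ 2 - C z * X + 1 : L[X]) = C 1 * X ^ 2 + C (-z) * X + C 1 := by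
        simp
        ring
      rw [e1]
      exact degree_quadratic one_ne_zero
    obtain ⟨s, hs⟩ := IsAlgClosed.exists_root (X ^ 2 - C z * X + 1 : L[X]) (by
      rw [hdeg]
      norm_num)
    refine ⟨s, ?_⟩
    simpa [IsRoot] using hs
  have hs0 : s ≠ 0 := by
    intro h0
    rw [h0] at hs
    simp at hs
  have hsz : s⁻¹ + s = z := by
    field_simp
    linear_combination hs
  obtain ⟨A, hA⟩ : ∃ A : SL2 L, (A : Matrix (Fin 2) (Fin 2) L) = !![x, -1; 1, 0] :=
    ⟨⟨!![x, -1; 1, 0], by rw [det_fin_two_of]; ring⟩, rfl⟩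
  obtain ⟨B, hB⟩ : ∃ B : SL2 L, (B : Matrix (Fin 2) (Fin 2) L) = !![0, s; -s⁻¹, y] :=
    ⟨⟨!![0, s; -s⁻¹, y], by rw [det_fin_two_of]; field_simp; ring⟩, rfl⟩
  refine ⟨A, B, ?_, ?_, ?_⟩
  · unfold tr
    rw [hA, trace_fin_two_of]
    ring
  · unfold tr
    rw [hB, trace_fin_two_of]
    ring
  · unfold tr
    have e1 : ((A * B : SL2 L) : Matrix (Fin 2) (Fin 2) L) = (A : Matrix (Fin 2) (Fin 2) L) * B :=
      rfl
    rw [e1, hA, hB, trace_fin_two]
    simp only [Matrix.mul_apply, Fin.sum_univ_two, Matrix.of_apply, Matrix.cons_val',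
      Matrix.cons_val_zero, Matrix.cons_val_one, Matrix.cons_val_fin_one]
    rw [← hsz]
    ring

/-- equal coefficients give equal values -/
private theorem evw_eq {L : Type*} [Field L] (A B : SL2 L) (l l' : List (Fin 4))
    (h : ∀ j, co (tr A) (tr B) (tr (A * B)) l j = co (tr A) (tr B) (tr (A * B)) l' j) :
    evw A B l = evw A B l' := by
  apply Subtype.ext
  have e1 := co_eval A B l
  have e2 := co_eval A B l'
  rw [h 0, h 1, h 2, h 3] at e1
  exact e1.trans e2.symm

/-- an element which is not integral over the integers is large for some valuation -/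
private theorem exists_valZ {L : Type*} [Field L] (y : L) (hy : ¬ IsIntegral ℤ y) :
    ∃ V : ValuationSubring L, 1 < V.valuation y := by
  have hyR : y ∉ (integralClosure ℤ L).toSubring := hy
  obtain ⟨V, -, hV⟩ := Subring.exists_le_valuationSubring_of_isIntegrallyClosedIn hyR
  refine ⟨V, ?_⟩
  rw [← not_le, V.valuation_le_one_iff]
  exact hV

private theorem gap_val {L : Type} [Field L] [IsAlgClosed L] (x y z : L) (hx : x ≠ 0) (hy : y ≠ 0)
    (hk : kp x y z ≠ 0)
    (hV : ∃ V : ValuationSubring L, 1 < V.valuation x ∨ 1 < V.valuation y ∨ 1 < V.valuation z) :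
    ∃ i : Ty, ∀ l l' : List Bool, l.length = l'.length → l ≠ l' →
      ∃ j : Fin 4, co x y z (wdt i l) j ≠ co x y z (wdt i l') j := by
  obtain ⟨V, hV⟩ := hV
  obtain ⟨A, B, hA, hB, hAB⟩ := exists_AB x y z
  have h1 : tr (A * B * A⁻¹ * B⁻¹) ≠ 2 := by
    rw [tr_comm, hA, hB, hAB]
    intro h0
    apply hk
    unfold kp
    linear_combination h0
  obtain ⟨i, hi⟩ := trip V.valuation A B (by rw [hA, hB, hAB]; exact hV) h1
    (by rw [hA]; exact fun h0 => hx h0.1) (by rw [hA]; exact fun h0 => hx h0.1)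
    (by rw [hB]; exact fun h0 => hy h0.1)
  refine ⟨Sum.inl i, fun l l' hl hne => ?_⟩
  by_contra hcon
  push Not at hcon
  apply hne
  apply hi l l' hl
  rw [wdt_inl, wdt_inl] at hcon
  apply evw_eq
  rw [hA, hB, hAB]
  exact hcon

private theorem gap_nf {K : Type} [Field K] [NumberField K] (x y z : K) (hx : IsIntegral ℤ x)
    (hy : IsIntegral ℤ y) (hz : IsIntegral ℤ z) (hnd : nd x y z ≠ 0) :
    ∃ i : Ty, ∀ l l' : List Bool, l.length = l'.length → l ≠ l' →
      ∃ j : Fin 4, co x y z (wdt i l) j ≠ co x y z (wdt i l') j := by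
  have h4 : IsIntegral ℤ (4 : K) := by
    have := isIntegral_algebraMap (R := ℤ) (A := K) (x := 4)
    rwa [map_ofNat] at this
  have hκ : IsIntegral ℤ (kp x y z) := by
    unfold kp
    exact ((((hx.pow 2).add (hy.pow 2)).add (hz.pow 2)).sub ((hx.mul hy).mul hz)).sub h4
  have hnd' := hnd
  unfold nd at hnd'
  simp only [mul_ne_zero_iff] at hnd'
  obtain ⟨⟨⟨⟨⟨⟨n1, n2⟩, n3⟩, n4⟩, n5⟩, n6⟩, n7⟩ := hnd'
  obtain ⟨σ, i, hσ⟩ := nt ![x ^ 2, 4 - x ^ 2 + kp x y z, -kp x y z]
    (by
      intro i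
      fin_cases i
      · exact hx.pow 2
      · exact (h4.sub (hx.pow 2)).add hκ
      · exact hκ.neg)
    (by
      change x ^ 2 + (4 - x ^ 2 + kp x y z) + -kp x y z = 4
      ring)
    (by
      intro i
      fin_cases i
      · exact pow_ne_zero 2 n1
      · change 4 - x ^ 2 + kp x y z ≠ 0
        intro h0
        apply n7
        linear_combination -h0
      · exact neg_ne_zero.2 n4)
    (by
      intro i
      fin_cases i
      · change x ^ 2 ≠ 1
        intro h0
        apply n3
        linear_combination h0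
      · change 4 - x ^ 2 + kp x y z ≠ 1
        intro h0
        apply n6
        linear_combination -h0
      · change -kp x y z ≠ 1
        intro h0
        apply n5
        linear_combination -h0)
  obtain ⟨A, B, hA, hB, hAB⟩ := exists_AB (σ x) (σ y) (σ z)
  have hnd2 : nd (tr A) (tr B) (tr (A * B)) ≠ 0 := by
    rw [hA, hB, hAB, ← nd_map]
    exact (_root_.map_ne_zero σ).2 hnd
  obtain ⟨p, hp⟩ := gapC A B hnd2 (by
    rw [hA, hB, hAB, ← kp_map]
    fin_cases i
    · left
      intro u hu hu'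
      have h := hσ u hu hu'
      have e : σ ((![x ^ 2, 4 - x ^ 2 + kp x y z, -kp x y z] : Fin 3 → K) 0) = σ x ^ 2 :=
        map_pow σ x 2
      have h' : 1 / 50 < ‖σ ((![x ^ 2, 4 - x ^ 2 + kp x y z, -kp x y z] : Fin 3 → K) 0) - u‖ := h
      rw [e] at h'
      exact h'
    · right
      left
      intro u hu hu'
      have h := hσ u hu hu'
      have e : σ ((![x ^ 2, 4 - x ^ 2 + kp x y z, -kp x y z] : Fin 3 → K) 1) =
          4 - σ x ^ 2 + σ (kp x y z) := by
        change σ (4 - x ^ 2 + kp x y z) = _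
        rw [map_add, map_sub, map_pow, map_ofNat]
      have h' : 1 / 50 < ‖σ ((![x ^ 2, 4 - x ^ 2 + kp x y z, -kp x y z] : Fin 3 → K) 1) - u‖ := h
      rw [e] at h'
      exact h'
    · right
      right
      intro u hu hu'
      have h := hσ u hu hu'
      have e : σ ((![x ^ 2, 4 - x ^ 2 + kp x y z, -kp x y z] : Fin 3 → K) 2) =
          -σ (kp x y z) := map_neg σ _
      have h' : 1 / 50 < ‖σ ((![x ^ 2, 4 - x ^ 2 + kp x y z, -kp x y z] : Fin 3 → K) 2) - u‖ := h
      rw [e] at h'
      exact h')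
  refine ⟨Sum.inr p, fun l l' hl hne => ?_⟩
  by_contra hcon
  push Not at hcon
  apply hne
  apply hp l l' hl
  apply evw_eq
  rw [hA, hB, hAB]
  intro j
  rw [← co_map, ← co_map, hcon j]

theorem gap {L : Type} [Field L] [IsAlgClosed L] [CharZero L] (x y z : L) (hnd : nd x y z ≠ 0) :
    ∃ i : Ty, ∀ l l' : List Bool, l.length = l'.length → l ≠ l' →
      ∃ j : Fin 4, co x y z (wdt i l) j ≠ co x y z (wdt i l') j := by
  have hnd' := hnd
  unfold nd at hnd'
  simp only [mul_ne_zero_iff] at hnd'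
  obtain ⟨⟨⟨⟨⟨⟨n1, n2⟩, n3⟩, n4⟩, n5⟩, n6⟩, n7⟩ := hnd'
  by_cases hx : IsIntegral ℤ x
  swap
  · obtain ⟨V, hV⟩ := exists_valZ x hx
    exact gap_val x y z n1 n2 n4 ⟨V, Or.inl hV⟩
  by_cases hy : IsIntegral ℤ y
  swap
  · obtain ⟨V, hV⟩ := exists_valZ y hy
    exact gap_val x y z n1 n2 n4 ⟨V, Or.inr (Or.inl hV)⟩
  by_cases hz : IsIntegral ℤ z
  swap
  · obtain ⟨V, hV⟩ := exists_valZ z hz
    exact gap_val x y z n1 n2 n4 ⟨V, Or.inr (Or.inr hV)⟩
  have hfin : FiniteDimensional ℚ (IntermediateField.adjoin ℚ ({x, y, z} : Set L)) := by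
    have : Finite ({x, y, z} : Set L) := Set.toFinite _
    refine IntermediateField.finiteDimensional_adjoin fun w hw => ?_
    have hw' : IsIntegral ℤ w := by
      rcases hw with rfl | rfl | rfl
      · exact hx
      · exact hy
      · exact hz
    exact hw'.tower_top
  have hNF : NumberField (IntermediateField.adjoin ℚ ({x, y, z} : Set L)) :=
    { to_charZero := inferInstance
      to_finiteDimensional := hfin }
  have mx : x ∈ IntermediateField.adjoin ℚ ({x, y, z} : Set L) :=
    IntermediateField.subset_adjoin _ _ (by simp)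
  have my : y ∈ IntermediateField.adjoin ℚ ({x, y, z} : Set L) :=
    IntermediateField.subset_adjoin _ _ (by simp)
  have mz : z ∈ IntermediateField.adjoin ℚ ({x, y, z} : Set L) :=
    IntermediateField.subset_adjoin _ _ (by simp)
  generalize IntermediateField.adjoin ℚ ({x, y, z} : Set L) = K at hfin hNF mx my mz
  have hinj : Function.Injective (algebraMap K L) := (algebraMap K L).injective
  have hint : ∀ w : K, IsIntegral ℤ (w : L) → IsIntegral ℤ w := fun w hw =>
    (isIntegral_algebraMap_iff (R := ℤ) hinj).1 hw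
  have ex : algebraMap K L ⟨x, mx⟩ = x := rfl
  have ey : algebraMap K L ⟨y, my⟩ = y := rfl
  have ez : algebraMap K L ⟨z, mz⟩ = z := rfl
  obtain ⟨i, hi⟩ := gap_nf (⟨x, mx⟩ : K) ⟨y, my⟩ ⟨z, mz⟩ (hint _ hx) (hint _ hy) (hint _ hz) (by
    intro h0
    apply hnd
    have h1 := nd_map (algebraMap K L) (⟨x, mx⟩ : K) ⟨y, my⟩ ⟨z, mz⟩
    rw [h0, map_zero, ex, ey, ez] at h1
    exact h1.symm)
  refine ⟨i, fun l l' hl hne => ?_⟩
  obtain ⟨j, hj⟩ := hi l l' hl hne
  refine ⟨j, fun h => hj (hinj ?_)⟩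
  rw [co_map, co_map, ex, ey, ez]
  exact h

end AAC
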