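import Pool.Agent.AAC.Defs
import Pool.Agent.Helper72.PF.Coef

/-!
# AAC-PPc (2.0h)
Ping-pong over the complex numbers. PLAN. `ν` or `ν⁻¹` is an eigenvalue; `‖ν‖² ≥ 10`. Conjugate (traces, words are conjugation invariant: `ev (P u P⁻¹) (P v P⁻¹) l = P (ev u v l) P⁻¹`) such that `W = diag(ν, ν⁻¹)` (distinct eigenvalues), `g = !![e, f; h, k]`. `tr (W g W⁻¹ g⁻¹) - 2 = -(ν - ν⁻¹)² f h`, so `f h ≠ 0`; the second hypothesis means
not both `e = 0`, `k = 0` (`tr g = e + k`, `tr (W g) = ν e + ν⁻¹ k`). `W` acts on `P¹` (coordinate `v 0 / v 1`) with attracting point `∞`, repelling point `0`; `W' = g W g⁻¹` has attracting point `p = e / h`, repelling point `r = f / k` (`∞` if `k = 0`). KEY LEMMA: if `U` has fixed points `∞` (attracting), `0`, multiplier `ν²`, and `V` has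
attracting point `q ≠ 0, ∞` and repelling point `s` with `‖s‖ ≤ 2 ‖q‖`, `s ≠ q`, multiplier `ν²`, then positive words of equal length in `U, V` are determined by their value. Proof: rescale to `q = 1` (conjugate by a diagonal matrix), `‖s‖ ≤ 2`. `X = {‖z‖ > 4} ∪ {∞}`, `Y = {‖z - 1‖ < (1/4) ‖z - s‖}`. `z ∈ Y` implies `2/5 ≤ ‖z‖ ≤ 2`, so `X ∩ Y = ∅`,
and `U (X ∪ Y) ⊆ X` since `10 * (2/5) ≥ 4`; in the coordinate `w = (z - 1) / (z - s)` `V` is `w ↦ ν⁻² w`, and `‖w‖ ≤ 5/2` on `X`, so `V (X ∪ Y) ⊆ Y` as `(5/2) / 10 = 1/4`. Take care of strict inequalities (slightly smaller sets, or strict in `X`, weak in `Y`). Two different lists of equal length have different letters after a common prefix; cancel it; the values map a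
point of `X ∪ Y` into disjoint sets. (Use nonzero vectors of `ℂ²` instead of points of `P¹`: `X = {v | 4 ‖v 1‖ < ‖v 0‖}`, `Y = {v ≠ 0 | 4 ‖v 0 - v 1‖ < ‖v 0 - s v 1‖}`, stable under scalars.) MAIN PROOF: if `k ≠ 0`, `e ≠ 0` and `‖r‖ ≤ 2 ‖p‖`: key lemma for `(W, W')` (first alternative). If `k ≠ 0` and (`e = 0` or `‖p‖ ≤ 2 ‖r‖`): `g W⁻¹ g⁻¹` has attracting point `r`,
repelling point `p`: key lemma for `(W, g W⁻¹ g⁻¹)` (second alternative). One of the two holds if `k ≠ 0`. If `k = 0` then `e ≠ 0`, `p ≠ 0, ∞`, `r = ∞`: second alternative: the inverses `W⁻¹` (`z ↦ ν⁻² z`) and `g W g⁻¹` (`z ↦ p + ν⁻² (z - p)`) are affine contractions with ratio `≤ 1/10` and different fixed points `0, p`: positive words in them are determined by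
their value (the images of the disc `‖z‖ ≤ 2 ‖p‖` are disjoint), and `ev u v l = ev u v l'` iff the inverses of the reversed words agree (`List.prod_inv_reverse`, or the lists `l.reverse`).
-/

set_option autoImplicit false

namespace AAC

open Matrix Module Polynomial Pool.Agent.Helper72.TV Pool.Agent.Helper72.PT Pool.Agent.Helper72.PF TRS

private theorem pc_y {p q a b : ℂ} (hp : p ≠ 0) (hq : ‖q‖ ≤ 2 * ‖p‖)
    (h : 4 * ‖p‖ * ‖a - b‖ < ‖p * a - q * b‖) : 2 * ‖b‖ < 5 * ‖a‖ ∧ ‖a‖ < 2 * ‖b‖ := by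
  have hp' : 0 < ‖p‖ := norm_pos_iff.2 hp
  have h1 : ‖p * a - q * b‖ ≤ ‖p‖ * ‖a‖ + ‖q‖ * ‖b‖ := by
    refine (norm_sub_le _ _).trans ?_
    rw [norm_mul, norm_mul]
  have h2 : ‖q‖ * ‖b‖ ≤ 2 * ‖p‖ * ‖b‖ := mul_le_mul_of_nonneg_right hq (norm_nonneg b)
  have h3 : ‖p‖ * (4 * ‖a - b‖) < ‖p‖ * (‖a‖ + 2 * ‖b‖) := by
    calc ‖p‖ * (4 * ‖a - b‖) = 4 * ‖p‖ * ‖a - b‖ := by ring
      _ < ‖p * a - q * b‖ := h
      _ ≤ ‖p‖ * ‖a‖ + ‖q‖ * ‖b‖ := h1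
      _ ≤ ‖p‖ * ‖a‖ + 2 * ‖p‖ * ‖b‖ := by linarith
      _ = ‖p‖ * (‖a‖ + 2 * ‖b‖) := by ring
  have h4 : 4 * ‖a - b‖ < ‖a‖ + 2 * ‖b‖ := lt_of_mul_lt_mul_left h3 hp'.le
  have h5 : ‖a‖ - ‖b‖ ≤ ‖a - b‖ := norm_sub_norm_le a b
  have h6 : ‖b‖ - ‖a‖ ≤ ‖a - b‖ := by
    rw [norm_sub_rev]
    exact norm_sub_norm_le b a
  constructor <;> linarith

private theorem pc_x {p q a b : ℂ} (hp : p ≠ 0) (hq : ‖q‖ ≤ 2 * ‖p‖)
    (h : 4 * ‖b‖ < ‖a‖) : 4 * ‖p‖ * ‖a - b‖ < 10 * ‖p * a - q * b‖ := by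
  have hp' : 0 < ‖p‖ := norm_pos_iff.2 hp
  have h1 : ‖p‖ * ‖a‖ - ‖q‖ * ‖b‖ ≤ ‖p * a - q * b‖ := by
    refine le_trans (le_of_eq ?_) (norm_sub_norm_le (p * a) (q * b))
    rw [norm_mul, norm_mul]
  have h2 : ‖q‖ * ‖b‖ ≤ 2 * ‖p‖ * ‖b‖ := mul_le_mul_of_nonneg_right hq (norm_nonneg b)
  have h3 : ‖a - b‖ ≤ ‖a‖ + ‖b‖ := norm_sub_le a b
  have h4 : ‖p‖ * (4 * ‖a - b‖) ≤ ‖p‖ * (4 * (‖a‖ + ‖b‖)) :=
    mul_le_mul_of_nonneg_left (by linarith) hp'.le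
  have h5 : ‖p‖ * (4 * (‖a‖ + ‖b‖)) < ‖p‖ * (10 * (‖a‖ - 2 * ‖b‖)) :=
    mul_lt_mul_of_pos_left (by linarith) hp'
  calc 4 * ‖p‖ * ‖a - b‖ = ‖p‖ * (4 * ‖a - b‖) := by ring
    _ ≤ ‖p‖ * (4 * (‖a‖ + ‖b‖)) := h4
    _ < ‖p‖ * (10 * (‖a‖ - 2 * ‖b‖)) := h5
    _ = 10 * (‖p‖ * ‖a‖ - 2 * ‖p‖ * ‖b‖) := by ring
    _ ≤ 10 * ‖p * a - q * b‖ := by linarith

/-- expanding by `ν` one side, contracting the other one -/
private theorem pc_exp {ν : ℂ} (hν : ν ≠ 0) (hbig : 10 ≤ ‖ν‖ ^ 2) {c : ℝ} {u w : ℂ}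
    (h : c * ‖u‖ < 10 * ‖w‖) : c * ‖ν⁻¹ * u‖ < ‖ν * w‖ := by
  have hn : 0 < ‖ν‖ := norm_pos_iff.2 hν
  rw [norm_mul, norm_mul, norm_inv]
  have h1 : c * ‖u‖ < ‖ν‖ ^ 2 * ‖w‖ :=
    h.trans_le (mul_le_mul_of_nonneg_right hbig (norm_nonneg w))
  have h2 : c * (‖ν‖⁻¹ * ‖u‖) = ‖ν‖⁻¹ * (c * ‖u‖) := by ring
  have h3 : ‖ν‖ * ‖w‖ = ‖ν‖⁻¹ * (‖ν‖ ^ 2 * ‖w‖) := by
    field_simp
  rw [h2, h3]
  exact mul_lt_mul_of_pos_left h1 (inv_pos.2 hn)

private theorem pc_mulA {ν : ℂ} {A : SL2 ℂ} (hA : (A : Matrix (Fin 2) (Fin 2) ℂ) = !![ν, 0; 0, ν⁻¹])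
    (u : SL2 ℂ) :
    ((A * u : SL2 ℂ) : Matrix (Fin 2) (Fin 2) ℂ) 0 0 = ν * (u : Matrix (Fin 2) (Fin 2) ℂ) 0 0 ∧
    ((A * u : SL2 ℂ) : Matrix (Fin 2) (Fin 2) ℂ) 1 0 = ν⁻¹ * (u : Matrix (Fin 2) (Fin 2) ℂ) 1 0 := by
  rw [Matrix.SpecialLinearGroup.coe_mul, hA]
  constructor
  · simp [Matrix.mul_apply, Fin.sum_univ_two]
  · simp [Matrix.mul_apply, Fin.sum_univ_two]

private theorem pc_mulB {ν : ℂ} {A B : SL2 ℂ}
    (hA : (A : Matrix (Fin 2) (Fin 2) ℂ) = !![ν, 0; 0, ν⁻¹]) (u : SL2 ℂ) (α β γ δ : ℂ)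
    (hB : (B : Matrix (Fin 2) (Fin 2) ℂ) = !![α, β; γ, δ]) :
    ((B * A * B⁻¹ * u : SL2 ℂ) : Matrix (Fin 2) (Fin 2) ℂ) 0 0 =
        α * (ν * (δ * (u : Matrix (Fin 2) (Fin 2) ℂ) 0 0 -
          β * (u : Matrix (Fin 2) (Fin 2) ℂ) 1 0)) +
        β * (ν⁻¹ * (α * (u : Matrix (Fin 2) (Fin 2) ℂ) 1 0 -
          γ * (u : Matrix (Fin 2) (Fin 2) ℂ) 0 0)) ∧
      ((B * A * B⁻¹ * u : SL2 ℂ) : Matrix (Fin 2) (Fin 2) ℂ) 1 0 =
        γ * (ν * (δ * (u : Matrix (Fin 2) (Fin 2) ℂ) 0 0 -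
          β * (u : Matrix (Fin 2) (Fin 2) ℂ) 1 0)) +
        δ * (ν⁻¹ * (α * (u : Matrix (Fin 2) (Fin 2) ℂ) 1 0 -
          γ * (u : Matrix (Fin 2) (Fin 2) ℂ) 0 0)) := by
  rw [Matrix.SpecialLinearGroup.coe_mul, Matrix.SpecialLinearGroup.coe_mul,
    Matrix.SpecialLinearGroup.coe_mul, Matrix.SpecialLinearGroup.coe_inv, hA, hB,
    Matrix.adjugate_fin_two_of]
  constructor
  · simp [Matrix.mul_apply, Fin.sum_univ_two]
    ring
  · simp [Matrix.mul_apply, Fin.sum_univ_two]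
    ring

/-- the key lemma, generic case -/
private theorem pc1 (ν : ℂ) (hν : ν ≠ 0) (hbig : 10 ≤ ‖ν‖ ^ 2) (A B : SL2 ℂ)
    (hA : (A : Matrix (Fin 2) (Fin 2) ℂ) = !![ν, 0; 0, ν⁻¹])
    (h1 : ‖(B : Matrix (Fin 2) (Fin 2) ℂ) 0 1 * (B : Matrix (Fin 2) (Fin 2) ℂ) 1 0‖ ≤
      2 * ‖(B : Matrix (Fin 2) (Fin 2) ℂ) 0 0 * (B : Matrix (Fin 2) (Fin 2) ℂ) 1 1‖)
    (h2 : (B : Matrix (Fin 2) (Fin 2) ℂ) 1 0 ≠ 0) :
    ∀ l l' : List Bool, l.length = l'.length →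
      ev A (B * A * B⁻¹) l = ev A (B * A * B⁻¹) l' → l = l' := by
  have hdet := det_eq B
  obtain ⟨α, hα⟩ : ∃ α, α = (B : Matrix (Fin 2) (Fin 2) ℂ) 0 0 := ⟨_, rfl⟩
  obtain ⟨β, hβ⟩ : ∃ β, β = (B : Matrix (Fin 2) (Fin 2) ℂ) 0 1 := ⟨_, rfl⟩
  obtain ⟨γ, hγ⟩ : ∃ γ, γ = (B : Matrix (Fin 2) (Fin 2) ℂ) 1 0 := ⟨_, rfl⟩
  obtain ⟨δ, hδ⟩ : ∃ δ, δ = (B : Matrix (Fin 2) (Fin 2) ℂ) 1 1 := ⟨_, rfl⟩
  have hB : (B : Matrix (Fin 2) (Fin 2) ℂ) = !![α, β; γ, δ] := by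
    rw [hα, hβ, hγ, hδ]
    ext i j
    fin_cases i <;> fin_cases j <;> rfl
  rw [← hα, ← hβ, ← hγ, ← hδ] at hdet
  rw [← hα, ← hβ, ← hγ, ← hδ] at h1
  rw [← hγ] at h2
  have hp : α * δ ≠ 0 := by
    intro h
    rw [h, norm_zero, mul_zero] at h1
    have h3 : β * γ = 0 := norm_le_zero_iff.1 h1
    rw [h, h3, sub_zero] at hdet
    exact zero_ne_one hdet
  have hα0 : α ≠ 0 := left_ne_zero_of_mul hp
  -- the sets
  obtain ⟨PX, hPX⟩ : ∃ PX : ℂ → ℂ → Prop, ∀ x y, PX x y ↔ 4 * ‖α * y‖ < ‖γ * x‖ :=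
    ⟨fun x y => 4 * ‖α * y‖ < ‖γ * x‖, fun x y => Iff.rfl⟩
  obtain ⟨PY, hPY⟩ : ∃ PY : ℂ → ℂ → Prop, ∀ x y, PY x y ↔
      4 * ‖α * δ‖ * ‖γ * x - α * y‖ < ‖α * δ * (γ * x) - β * γ * (α * y)‖ :=
    ⟨fun x y => 4 * ‖α * δ‖ * ‖γ * x - α * y‖ < ‖α * δ * (γ * x) - β * γ * (α * y)‖,
      fun x y => Iff.rfl⟩
  have hXY : ∀ x y, PX x y → ¬ PY x y := by
    intro x y hx hy
    rw [hPX] at hx
    rw [hPY] at hy
    have h3 := (pc_y hp h1 hy).2
    have h4 := norm_nonneg (α * y)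
    linarith
  have hUX : ∀ x y, PX x y ∨ PY x y → PX (ν * x) (ν⁻¹ * y) := by
    intro x y h
    rw [hPX]
    have h3 : 4 * ‖α * y‖ < 10 * ‖γ * x‖ := by
      rcases h with h | h
      · rw [hPX] at h
        have h4 := norm_nonneg (γ * x)
        linarith
      · rw [hPY] at h
        have h4 := (pc_y hp h1 h).1
        linarith
    have h5 := pc_exp hν hbig h3
    have e1 : α * (ν⁻¹ * y) = ν⁻¹ * (α * y) := by ring
    have e2 : γ * (ν * x) = ν * (γ * x) := by ring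
    rw [e1, e2]
    exact h5
  have hVY : ∀ x y, PX x y ∨ PY x y →
      PY (α * (ν * (δ * x - β * y)) + β * (ν⁻¹ * (α * y - γ * x)))
        (γ * (ν * (δ * x - β * y)) + δ * (ν⁻¹ * (α * y - γ * x))) := by
    intro x y h
    rw [hPY]
    have h3 : 4 * ‖α * δ‖ * ‖γ * x - α * y‖ <
        10 * ‖α * δ * (γ * x) - β * γ * (α * y)‖ := by
      rcases h with h | h
      · rw [hPX] at h
        exact pc_x hp h1 h
      · rw [hPY] at h
        have h4 := norm_nonneg (α * δ * (γ * x) - β * γ * (α * y))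
        linarith
    have h5 := pc_exp hν hbig h3
    have e1 : γ * (α * (ν * (δ * x - β * y)) + β * (ν⁻¹ * (α * y - γ * x))) -
        α * (γ * (ν * (δ * x - β * y)) + δ * (ν⁻¹ * (α * y - γ * x))) =
        ν⁻¹ * (γ * x - α * y) := by
      linear_combination (ν⁻¹ * (γ * x - α * y)) * hdet
    have e2 : α * δ * (γ * (α * (ν * (δ * x - β * y)) + β * (ν⁻¹ * (α * y - γ * x)))) -
        β * γ * (α * (γ * (ν * (δ * x - β * y)) + δ * (ν⁻¹ * (α * y - γ * x)))) =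
        ν * (α * δ * (γ * x) - β * γ * (α * y)) := by
      linear_combination (ν * (α * δ * (γ * x) - β * γ * (α * y))) * hdet
    rw [e1, e2]
    exact h5
  -- all words
  have hD : ∀ l : List Bool,
      PX (((ev A (B * A * B⁻¹) l : SL2 ℂ) : Matrix (Fin 2) (Fin 2) ℂ) 0 0)
        (((ev A (B * A * B⁻¹) l : SL2 ℂ) : Matrix (Fin 2) (Fin 2) ℂ) 1 0) ∨
      PY (((ev A (B * A * B⁻¹) l : SL2 ℂ) : Matrix (Fin 2) (Fin 2) ℂ) 0 0)
        (((ev A (B * A * B⁻¹) l : SL2 ℂ) : Matrix (Fin 2) (Fin 2) ℂ) 1 0) := by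
    intro l
    induction l with
    | nil =>
      left
      rw [ev_nil, Matrix.SpecialLinearGroup.coe_one, hPX]
      simpa using h2
    | cons s l ih =>
      rw [ev_cons]
      cases s with
      | true =>
        left
        have h3 := pc_mulA hA (ev A (B * A * B⁻¹) l)
        rw [cond_true, h3.1, h3.2]
        exact hUX _ _ ih
      | false =>
        right
        have h3 := pc_mulB hA (ev A (B * A * B⁻¹) l) α β γ δ hB
        rw [cond_false, h3.1, h3.2]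
        exact hVY _ _ ih
  have hne : ∀ l l' : List Bool, A * ev A (B * A * B⁻¹) l ≠
      (B * A * B⁻¹) * ev A (B * A * B⁻¹) l' := by
    intro l l' heq
    have h3 := pc_mulA hA (ev A (B * A * B⁻¹) l)
    have h4 := pc_mulB hA (ev A (B * A * B⁻¹) l') α β γ δ hB
    have h5 := hUX _ _ (hD l)
    have h6 := hVY _ _ (hD l')
    rw [← h3.1, ← h3.2] at h5
    rw [← h4.1, ← h4.2, ← heq] at h6
    exact hXY _ _ h5 h6
  intro l
  induction l with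
  | nil =>
    intro l' hl _
    symm at hl
    rw [List.length_nil, List.length_eq_zero_iff] at hl
    exact hl.symm
  | cons s l ih =>
    intro l' hl he
    cases l' with
    | nil => simp at hl
    | cons s' l' =>
      rw [ev_cons, ev_cons] at he
      have hl2 : l.length = l'.length := by simpa using hl
      cases s with
      | true =>
        cases s' with
        | true =>
          rw [ih l' hl2 (mul_left_cancel he)]
        | false => exact absurd he (hne l l')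
      | false =>
        cases s' with
        | true => exact absurd he.symm (hne l' l)
        | false =>
          rw [ih l' hl2 (mul_left_cancel he)]

private theorem pc_ev_append (u w : SL2 ℂ) (l l' : List Bool) :
    ev u w (l ++ l') = ev u w l * ev u w l' := by
  unfold ev
  rw [List.map_append, List.prod_append]

private theorem pc_tr_mul (a b : SL2 ℂ) : (a * b).transpose = b.transpose * a.transpose := by
  apply Subtype.ext
  show ((a * b : SL2 ℂ) : Matrix (Fin 2) (Fin 2) ℂ).transpose =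
    (b : Matrix (Fin 2) (Fin 2) ℂ).transpose * (a : Matrix (Fin 2) (Fin 2) ℂ).transpose
  rw [Matrix.SpecialLinearGroup.coe_mul, Matrix.transpose_mul]

private theorem pc_tr_one : (1 : SL2 ℂ).transpose = 1 := by
  apply Subtype.ext
  show (1 : Matrix (Fin 2) (Fin 2) ℂ).transpose = 1
  exact Matrix.transpose_one

private theorem pc_ev_tr (u w : SL2 ℂ) (l : List Bool) :
    (ev u w l).transpose = ev u.transpose w.transpose l.reverse := by
  induction l with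
  | nil => exact pc_tr_one
  | cons s l ih =>
    rw [ev_cons, pc_tr_mul, ih, List.reverse_cons, pc_ev_append]
    congr 1
    cases s
    · show w.transpose = ev u.transpose w.transpose [false]
      rw [ev_cons, ev_nil, mul_one]
      rfl
    · show u.transpose = ev u.transpose w.transpose [true]
      rw [ev_cons, ev_nil, mul_one]
      rfl

/-- the key lemma -/
private theorem pc2 (ν : ℂ) (hν : ν ≠ 0) (hbig : 10 ≤ ‖ν‖ ^ 2) (A B : SL2 ℂ)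
    (hA : (A : Matrix (Fin 2) (Fin 2) ℂ) = !![ν, 0; 0, ν⁻¹])
    (h1 : ‖(B : Matrix (Fin 2) (Fin 2) ℂ) 0 1 * (B : Matrix (Fin 2) (Fin 2) ℂ) 1 0‖ ≤
      2 * ‖(B : Matrix (Fin 2) (Fin 2) ℂ) 0 0 * (B : Matrix (Fin 2) (Fin 2) ℂ) 1 1‖)
    (h2 : ¬((B : Matrix (Fin 2) (Fin 2) ℂ) 0 1 = 0 ∧ (B : Matrix (Fin 2) (Fin 2) ℂ) 1 0 = 0)) :
    ∀ l l' : List Bool, l.length = l'.length →
      ev A (B * A * B⁻¹) l = ev A (B * A * B⁻¹) l' → l = l' := by
  by_cases hγ : (B : Matrix (Fin 2) (Fin 2) ℂ) 1 0 = 0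
  · have hβ : (B : Matrix (Fin 2) (Fin 2) ℂ) 0 1 ≠ 0 := fun h => h2 ⟨h, hγ⟩
    set B₂ : SL2 ℂ := (B⁻¹).transpose with hB₂
    have hcoe : (B₂ : Matrix (Fin 2) (Fin 2) ℂ) =
        ((B : Matrix (Fin 2) (Fin 2) ℂ).adjugate).transpose := by
      rw [hB₂, ← Matrix.SpecialLinearGroup.coe_inv]
      rfl
    have e00 : (B₂ : Matrix (Fin 2) (Fin 2) ℂ) 0 0 = (B : Matrix (Fin 2) (Fin 2) ℂ) 1 1 := by
      rw [hcoe, Matrix.transpose_apply, Matrix.adjugate_fin_two]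
      rfl
    have e11 : (B₂ : Matrix (Fin 2) (Fin 2) ℂ) 1 1 = (B : Matrix (Fin 2) (Fin 2) ℂ) 0 0 := by
      rw [hcoe, Matrix.transpose_apply, Matrix.adjugate_fin_two]
      rfl
    have e10 : (B₂ : Matrix (Fin 2) (Fin 2) ℂ) 1 0 = -(B : Matrix (Fin 2) (Fin 2) ℂ) 0 1 := by
      rw [hcoe, Matrix.transpose_apply, Matrix.adjugate_fin_two]
      rfl
    have e01 : (B₂ : Matrix (Fin 2) (Fin 2) ℂ) 0 1 = -(B : Matrix (Fin 2) (Fin 2) ℂ) 1 0 := by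
      rw [hcoe, Matrix.transpose_apply, Matrix.adjugate_fin_two]
      rfl
    have hAt : A.transpose = A := by
      apply Subtype.ext
      show (A : Matrix (Fin 2) (Fin 2) ℂ).transpose = (A : Matrix (Fin 2) (Fin 2) ℂ)
      rw [hA]
      ext i j
      fin_cases i <;> fin_cases j <;> rfl
    have hBB : B.transpose = B₂⁻¹ := by
      rw [eq_inv_iff_mul_eq_one, hB₂, ← pc_tr_mul, inv_mul_cancel, pc_tr_one]
    have hconj : (B * A * B⁻¹).transpose = B₂ * A * B₂⁻¹ := by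
      rw [pc_tr_mul, pc_tr_mul, hAt, hBB, mul_assoc]
    have key := pc1 ν hν hbig A B₂ hA
      (by
        rw [e00, e11, e10, e01, neg_mul_neg]
        rw [mul_comm ((B : Matrix (Fin 2) (Fin 2) ℂ) 1 0), mul_comm
          ((B : Matrix (Fin 2) (Fin 2) ℂ) 1 1)]
        exact h1)
      (by rw [e10]; exact neg_ne_zero.2 hβ)
    intro l l' hl he
    have h3 := congrArg Matrix.SpecialLinearGroup.transpose he
    rw [pc_ev_tr, pc_ev_tr, hAt, hconj] at h3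
    have h4 := key l.reverse l'.reverse (by rw [List.length_reverse, List.length_reverse, hl]) h3
    exact List.reverse_injective h4
  · exact pc1 ν hν hbig A B hA h1 hγ

private theorem pc_ev_conj {G : Type*} [Group G] (g u w : G) (l : List Bool) :
    ev (g * u * g⁻¹) (g * w * g⁻¹) l = g * ev u w l * g⁻¹ := by
  induction l with
  | nil => rw [ev_nil, ev_nil, mul_one, mul_inv_cancel]
  | cons s l ih =>
    rw [ev_cons, ev_cons, ih]
    cases s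
    · show g * w * g⁻¹ * (g * ev u w l * g⁻¹) = g * (w * ev u w l) * g⁻¹
      group
    · show g * u * g⁻¹ * (g * ev u w l * g⁻¹) = g * (u * ev u w l) * g⁻¹
      group

private theorem pc_free_conj {G : Type*} [Group G] (g u w : G)
    (h : ∀ l l' : List Bool, l.length = l'.length →
      ev (g * u * g⁻¹) (g * w * g⁻¹) l = ev (g * u * g⁻¹) (g * w * g⁻¹) l' → l = l') :
    ∀ l l' : List Bool, l.length = l'.length → ev u w l = ev u w l' → l = l' := by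
  intro l l' hl he
  apply h l l' hl
  rw [pc_ev_conj, pc_ev_conj, he]

private theorem pc_eig {L : Type*} [Field L] (A : SL2 L) (lam : L)
    (h : lam ^ 2 - tr A * lam + 1 = 0) : ∃ x : Fin 2 → L, x ≠ 0 ∧ act A x = lam • x := by
  have hdet : ((A : Matrix (Fin 2) (Fin 2) L) - lam • (1 : Matrix (Fin 2) (Fin 2) L)).det = 0 := by
    rw [Matrix.det_fin_two]
    have h1 := det_eq A
    rw [tr_eq] at h
    simp only [Matrix.sub_apply, Matrix.smul_apply, Matrix.one_apply_eq, smul_eq_mul, mul_one,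
      Matrix.one_apply_ne (show (0 : Fin 2) ≠ 1 by decide),
      Matrix.one_apply_ne (show (1 : Fin 2) ≠ 0 by decide), mul_zero, sub_zero]
    linear_combination h + h1
  obtain ⟨x, hx, hx2⟩ := Matrix.exists_mulVec_eq_zero_iff.2 hdet
  refine ⟨x, hx, ?_⟩
  rw [Matrix.sub_mulVec, Matrix.smul_mulVec, Matrix.one_mulVec] at hx2
  exact sub_eq_zero.1 hx2

/-- the diagonal element -/
private def pcD {L : Type*} [Field L] (lam : L) (h : lam ≠ 0) : SL2 L :=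
  ⟨!![lam, 0; 0, lam⁻¹], by rw [Matrix.det_fin_two_of]; simp [h]⟩

private theorem pc_diag {L : Type*} [Field L] (A : SL2 L) (lam : L) (h0 : lam ≠ 0)
    (h : lam ^ 2 - tr A * lam + 1 = 0) (hne : lam ≠ lam⁻¹) :
    ∃ g : SL2 L, g * A * g⁻¹ = pcD lam h0 := by
  obtain ⟨x, hx, hx2⟩ := pc_eig A lam h
  have h' : lam⁻¹ ^ 2 - tr A * lam⁻¹ + 1 = 0 := by
    have e : lam⁻¹ ^ 2 - tr A * lam⁻¹ + 1 = lam⁻¹ ^ 2 * (lam ^ 2 - tr A * lam + 1) := by
      field_simp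
      ring
    rw [e, h, mul_zero]
  obtain ⟨y, hy, hy2⟩ := pc_eig A lam⁻¹ h'
  have hD : om x y ≠ 0 := by
    intro hom
    obtain ⟨c, hc⟩ := exists_smul_of_om hy hom
    have h1 : act A x = lam⁻¹ • x := by
      rw [hc, act_smul, hy2, smul_comm]
    rw [hx2] at h1
    have h2 : (lam - lam⁻¹) • x = 0 := by
      rw [sub_smul, h1, sub_self]
    rcases smul_eq_zero.1 h2 with h3 | h3
    · exact hne (sub_eq_zero.1 h3)
    · exact hx h3
  have hD' : x 0 * y 1 - x 1 * y 0 ≠ 0 := hD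
  set D := om x y with hDd
  have hDe : D = x 0 * y 1 - x 1 * y 0 := rfl
  have hdet : (!![x 0 / D, y 0; x 1 / D, y 1] : Matrix (Fin 2) (Fin 2) L).det = 1 := by
    rw [Matrix.det_fin_two_of]
    have e : x 0 / D * y 1 - y 0 * (x 1 / D) = (x 0 * y 1 - x 1 * y 0) / D := by ring
    rw [e, ← hDe, div_self hD]
  have hx0 := congrFun hx2 0
  have hx1 := congrFun hx2 1
  have hy0 := congrFun hy2 0
  have hy1 := congrFun hy2 1
  rw [act_apply_zero] at hx0 hy0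
  rw [act_apply_one] at hx1 hy1
  simp only [Pi.smul_apply, smul_eq_mul] at hx0 hx1 hy0 hy1
  set P : SL2 L := ⟨!![x 0 / D, y 0; x 1 / D, y 1], hdet⟩ with hP
  have hAP : A * P = P * pcD lam h0 := by
    apply Subtype.ext
    rw [Matrix.SpecialLinearGroup.coe_mul, Matrix.SpecialLinearGroup.coe_mul]
    have eP : (P : Matrix (Fin 2) (Fin 2) L) = !![x 0 / D, y 0; x 1 / D, y 1] := rfl
    have eD : ((pcD lam h0 : SL2 L) : Matrix (Fin 2) (Fin 2) L) = !![lam, 0; 0, lam⁻¹] := rfl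
    rw [eP, eD]
    ext i j
    rw [Matrix.mul_apply, Matrix.mul_apply, Fin.sum_univ_two, Fin.sum_univ_two]
    fin_cases i <;> fin_cases j
    · simp
      linear_combination (1 / D) * hx0
    · simp
      linear_combination hy0
    · simp
      linear_combination (1 / D) * hx1
    · simp
      linear_combination hy1
  refine ⟨P⁻¹, ?_⟩
  rw [inv_inv, mul_assoc, hAP, inv_mul_cancel_left]

private theorem pc_main (lam : ℂ) (h0 : lam ≠ 0) (hbig : 10 ≤ ‖lam‖ ^ 2) (B : SL2 ℂ)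
    (h1 : tr (pcD lam h0 * B * (pcD lam h0)⁻¹ * B⁻¹) ≠ 2)
    (h2 : ¬(tr B = 0 ∧ tr (pcD lam h0 * B) = 0)) :
    (∀ l l' : List Bool, l.length = l'.length →
      ev (pcD lam h0) (B * pcD lam h0 * B⁻¹) l = ev (pcD lam h0) (B * pcD lam h0 * B⁻¹) l' →
        l = l') ∨
    (∀ l l' : List Bool, l.length = l'.length →
      ev (pcD lam h0) (B * (pcD lam h0)⁻¹ * B⁻¹) l =
        ev (pcD lam h0) (B * (pcD lam h0)⁻¹ * B⁻¹) l' → l = l') := by
  have eD : ((pcD lam h0 : SL2 ℂ) : Matrix (Fin 2) (Fin 2) ℂ) = !![lam, 0; 0, lam⁻¹] := rfl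
  have hdet := det_eq B
  obtain ⟨α, hα⟩ : ∃ α, α = (B : Matrix (Fin 2) (Fin 2) ℂ) 0 0 := ⟨_, rfl⟩
  obtain ⟨β, hβ⟩ : ∃ β, β = (B : Matrix (Fin 2) (Fin 2) ℂ) 0 1 := ⟨_, rfl⟩
  obtain ⟨γ, hγ⟩ : ∃ γ, γ = (B : Matrix (Fin 2) (Fin 2) ℂ) 1 0 := ⟨_, rfl⟩
  obtain ⟨δ, hδ⟩ : ∃ δ, δ = (B : Matrix (Fin 2) (Fin 2) ℂ) 1 1 := ⟨_, rfl⟩
  rw [← hα, ← hβ, ← hγ, ← hδ] at hdet
  have htr : tr (pcD lam h0 * B * (pcD lam h0)⁻¹ * B⁻¹) = 2 - β * γ * (lam - lam⁻¹) ^ 2 := by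
    rw [tr_eq]
    simp only [Matrix.SpecialLinearGroup.coe_mul, inv_coe, eD, Matrix.mul_apply,
      Fin.sum_univ_two, ← hα, ← hβ, ← hγ, ← hδ]
    simp
    have hl : lam * lam⁻¹ = 1 := mul_inv_cancel₀ h0
    linear_combination (2 * α * δ) * hl + 2 * hdet - 2 * (β * γ) * hl
  have hbc : β * γ ≠ 0 := by
    intro h
    apply h1
    rw [htr, h, zero_mul, sub_zero]
  have had : ¬(α = 0 ∧ δ = 0) := by
    rintro ⟨ha, hd⟩
    apply h2
    refine ⟨?_, ?_⟩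
    · rw [tr_eq, ← hα, ← hδ, ha, hd, add_zero]
    · rw [tr_eq]
      simp only [Matrix.SpecialLinearGroup.coe_mul, eD, Matrix.mul_apply,
        Fin.sum_univ_two, ← hα, ← hβ, ← hγ, ← hδ, ha, hd]
      simp
  rcases le_or_gt ‖β * γ‖ (2 * ‖α * δ‖) with hv | hv
  · left
    refine pc2 lam h0 hbig (pcD lam h0) B eD ?_ ?_
    · rw [← hα, ← hβ, ← hγ, ← hδ]
      exact hv
    · rw [← hβ, ← hγ]
      rintro ⟨h3, -⟩
      exact hbc (by rw [h3, zero_mul])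
  · right
    have hv1 : ‖α * δ‖ ≤ 2 * ‖β * γ‖ := by
      have h3 := norm_nonneg (α * δ)
      linarith
    set J : SL2 ℂ := ⟨!![0, 1; -1, 0], by rw [Matrix.det_fin_two_of]; ring⟩ with hJ
    have eJ : (J : Matrix (Fin 2) (Fin 2) ℂ) = !![0, 1; -1, 0] := rfl
    have hJD : J * pcD lam h0 = (pcD lam h0)⁻¹ * J := by
      apply Subtype.ext
      rw [Matrix.SpecialLinearGroup.coe_mul, Matrix.SpecialLinearGroup.coe_mul, inv_coe, eD, eJ]
      ext i j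
      rw [Matrix.mul_apply, Matrix.mul_apply, Fin.sum_univ_two, Fin.sum_univ_two]
      fin_cases i <;> fin_cases j <;> simp
    have hconj : B * J * pcD lam h0 * (B * J)⁻¹ = B * (pcD lam h0)⁻¹ * B⁻¹ := by
      rw [mul_assoc B J, hJD]
      group
    have e00 : ((B * J : SL2 ℂ) : Matrix (Fin 2) (Fin 2) ℂ) 0 0 = -β := by
      rw [Matrix.SpecialLinearGroup.coe_mul, Matrix.mul_apply, Fin.sum_univ_two, eJ, ← hα, ← hβ]
      simp
    have e11 : ((B * J : SL2 ℂ) : Matrix (Fin 2) (Fin 2) ℂ) 1 1 = γ := by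
      rw [Matrix.SpecialLinearGroup.coe_mul, Matrix.mul_apply, Fin.sum_univ_two, eJ, ← hγ, ← hδ]
      simp
    have e01 : ((B * J : SL2 ℂ) : Matrix (Fin 2) (Fin 2) ℂ) 0 1 = α := by
      rw [Matrix.SpecialLinearGroup.coe_mul, Matrix.mul_apply, Fin.sum_univ_two, eJ, ← hα, ← hβ]
      simp
    have e10 : ((B * J : SL2 ℂ) : Matrix (Fin 2) (Fin 2) ℂ) 1 0 = -δ := by
      rw [Matrix.SpecialLinearGroup.coe_mul, Matrix.mul_apply, Fin.sum_univ_two, eJ, ← hγ, ← hδ]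
      simp
    have hpp := pc2 lam h0 hbig (pcD lam h0) (B * J) eD ?_ ?_
    · rw [hconj] at hpp
      exact hpp
    · rw [e00, e01, e10, e11, neg_mul, mul_neg, norm_neg, norm_neg]
      exact hv1
    · rw [e01, e10]
      rintro ⟨h3, h4⟩
      exact had ⟨h3, neg_eq_zero.1 h4⟩

theorem ppc (W g : SL2 ℂ) (ν : ℂ) (hν : ν ≠ 0) (htr : tr W = ν + ν⁻¹) (hbig : 10 ≤ ‖ν‖ ^ 2)
    (hk : tr (W * g * W⁻¹ * g⁻¹) ≠ 2) (hz : ¬(tr g = 0 ∧ tr (W * g) = 0)) :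
    (∀ l l' : List Bool, l.length = l'.length →
      ev W (g * W * g⁻¹) l = ev W (g * W * g⁻¹) l' → l = l') ∨
    (∀ l l' : List Bool, l.length = l'.length →
      ev W (g * W⁻¹ * g⁻¹) l = ev W (g * W⁻¹ * g⁻¹) l' → l = l') := by
  have hroot : ν ^ 2 - tr W * ν + 1 = 0 := by
    rw [htr]
    have hl : ν⁻¹ * ν = 1 := inv_mul_cancel₀ hν
    linear_combination (-1 : ℂ) * hl
  have hne : ν ≠ ν⁻¹ := by
    intro h
    have e : ν * ν = 1 := by
      nth_rewrite 2 [h]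
      exact mul_inv_cancel₀ hν
    have e2 := congrArg norm e
    rw [norm_mul, norm_one] at e2
    rw [pow_two, e2] at hbig
    norm_num at hbig
  obtain ⟨P, hP⟩ := pc_diag W ν hν hroot hne
  have key := pc_main ν hν hbig (P * g * P⁻¹) ?_ ?_
  · rw [← hP] at key
    have e1 : P * g * P⁻¹ * (P * W * P⁻¹) * (P * g * P⁻¹)⁻¹ = P * (g * W * g⁻¹) * P⁻¹ := by
      group
    have e2 : P * g * P⁻¹ * (P * W * P⁻¹)⁻¹ * (P * g * P⁻¹)⁻¹ = P * (g * W⁻¹ * g⁻¹) * P⁻¹ := by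
      group
    rw [e1, e2] at key
    rcases key with h | h
    · exact Or.inl (pc_free_conj P _ _ h)
    · exact Or.inr (pc_free_conj P _ _ h)
  · rw [← hP]
    have e : P * W * P⁻¹ * (P * g * P⁻¹) * (P * W * P⁻¹)⁻¹ * (P * g * P⁻¹)⁻¹ =
        P * (W * g * W⁻¹ * g⁻¹) * P⁻¹ := by
      group
    rw [e, tr_conj]
    exact hk
  · rw [← hP]
    have e : P * W * P⁻¹ * (P * g * P⁻¹) = P * (W * g) * P⁻¹ := by
      group
    rw [e, tr_conj, tr_conj]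
    exact hz

end AAC
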