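import Pool.Agent.AAC.Defs
import Pool.Agent.Helper72.PF.Coef

/-!
# AAC-Tri
Trace identities in `SL_2` of a field, from the product formula `tr X tr Y = tr (X Y) + tr (X Y⁻¹)` and the commutator formula.
-/

set_option autoImplicit false

namespace AAC

open Matrix Module Polynomial Pool.Agent.Helper72.TV Pool.Agent.Helper72.PT Pool.Agent.Helper72.PF TRS

private theorem tri_cyc {L : Type*} [Field L] (A B : SL2 L) : tr (A * B) = tr (B * A) := by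
  unfold tr
  rw [Matrix.SpecialLinearGroup.coe_mul, Matrix.SpecialLinearGroup.coe_mul, Matrix.trace_mul_comm]

private theorem tri_mul {L : Type*} [Field L] (A B : SL2 L) :
    tr (A * B) + tr (A * B⁻¹) = tr A * tr B := by
  rw [tr_eq, tr_eq (A * B⁻¹), tr_eq A, tr_eq B]
  simp only [Matrix.SpecialLinearGroup.coe_mul, inv_coe]
  simp only [Matrix.mul_apply, Fin.sum_univ_two, Matrix.of_apply, Matrix.cons_val',
    Matrix.cons_val_zero, Matrix.cons_val_one, Matrix.cons_val_fin_one]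
  ring

private theorem tri_inv {L : Type*} [Field L] (A : SL2 L) : tr A⁻¹ = tr A := by
  rw [tr_eq, tr_eq A, inv_coe]
  simp
  ring

private theorem tri_conj {L : Type*} [Field L] (A B : SL2 L) : tr (B * A * B⁻¹) = tr A := by
  rw [tri_cyc, ← mul_assoc, inv_mul_cancel, one_mul]

theorem tr_c {L : Type*} [Field L] (A B : SL2 L) :
    tr (A * B * A⁻¹ * B⁻¹) = kp (tr A) (tr B) (tr (A * B)) + 2 := by
  rw [tr_comm]
  unfold kp
  ring

theorem tr_d {L : Type*} [Field L] (A B : SL2 L) :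
    tr (A * B * A * B⁻¹) = tr A ^ 2 - kp (tr A) (tr B) (tr (A * B)) - 2 := by
  have h := tri_mul A (B * A * B⁻¹)
  rw [tri_conj] at h
  have e1 : A * (B * A * B⁻¹) = A * B * A * B⁻¹ := by group
  have e2 : A * (B * A * B⁻¹)⁻¹ = A * B * A⁻¹ * B⁻¹ := by group
  rw [e1, e2, tr_c] at h
  linear_combination h

/-- the common part of `tr_cA` and `tr_dA` -/
private theorem tri_aux {L : Type*} [Field L] (A X : SL2 L) (hX : tr X = tr A) :
    tr ((A * X) * A * (A * X)⁻¹ * A⁻¹) = 2 * tr A ^ 2 + tr (A * X) ^ 2 -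
      tr A ^ 2 * tr (A * X) - 2 := by
  have e : (A * X) * A * (A * X)⁻¹ * A⁻¹ = A * (X * A * X⁻¹ * A⁻¹) * A⁻¹ := by group
  rw [e, tri_conj, tr_comm, hX, tri_cyc X A]
  ring

theorem tr_cA {L : Type*} [Field L] (A B : SL2 L) :
    tr ((A * B * A⁻¹ * B⁻¹) * A * (A * B * A⁻¹ * B⁻¹)⁻¹ * A⁻¹) =
      2 + kp (tr A) (tr B) (tr (A * B)) *
        (4 - tr A ^ 2 + kp (tr A) (tr B) (tr (A * B))) := by
  have h := tri_aux A (B * A⁻¹ * B⁻¹) (by rw [tri_conj, tri_inv])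
  have e : A * (B * A⁻¹ * B⁻¹) = A * B * A⁻¹ * B⁻¹ := by group
  rw [e] at h
  rw [h, tr_c]
  ring

theorem tr_dA {L : Type*} [Field L] (A B : SL2 L) :
    tr ((A * B * A * B⁻¹) * A * (A * B * A * B⁻¹)⁻¹ * A⁻¹) =
      2 + kp (tr A) (tr B) (tr (A * B)) *
        (4 - tr A ^ 2 + kp (tr A) (tr B) (tr (A * B))) := by
  have h := tri_aux A (B * A * B⁻¹) (by rw [tri_conj])
  have e : A * (B * A * B⁻¹) = A * B * A * B⁻¹ := by group
  rw [e] at h
  rw [h, tr_d]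
  ring

/-- the recursion of the traces `tr (w ^ k g)` -/
private theorem tri_rec {L : Type*} [Field L] (w g : SL2 L) (k : ℕ) :
    tr (w ^ (k + 2) * g) = tr w * tr (w ^ (k + 1) * g) - tr (w ^ k * g) := by
  have h := tri_mul (w ^ (k + 1) * g) w
  have e1 : tr (w ^ (k + 1) * g * w) = tr (w ^ (k + 2) * g) := by
    rw [tri_cyc, ← mul_assoc, ← pow_succ']
  have e2 : tr (w ^ (k + 1) * g * w⁻¹) = tr (w ^ k * g) := by
    rw [tri_cyc, ← mul_assoc, pow_succ', inv_mul_cancel_left]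
  rw [e1, e2] at h
  linear_combination h

private theorem tri_one {L : Type*} [Field L] : tr (1 : SL2 L) = 2 := by
  rw [tr_eq, Matrix.SpecialLinearGroup.coe_one]
  simp
  norm_num

theorem tr_pow {L : Type*} [Field L] (w : SL2 L) (ν : L) (hν : ν ≠ 0) (h : tr w = ν + ν⁻¹)
    (k : ℕ) : tr (w ^ k) = ν ^ k + (ν⁻¹) ^ k := by
  have key : ∀ k : ℕ, tr (w ^ k) = ν ^ k + (ν⁻¹) ^ k ∧
      tr (w ^ (k + 1)) = ν ^ (k + 1) + (ν⁻¹) ^ (k + 1) := by
    intro k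
    induction k with
    | zero =>
      refine ⟨?_, ?_⟩
      · rw [pow_zero, tri_one, pow_zero, pow_zero]
        norm_num
      · rw [zero_add, pow_one, pow_one, pow_one, h]
    | succ k ih =>
      refine ⟨ih.2, ?_⟩
      have hr := tri_rec w 1 k
      rw [mul_one, mul_one, mul_one, ih.1, ih.2, h] at hr
      rw [show k + 1 + 1 = k + 2 by ring, hr]
      have hn : ν * ν⁻¹ = 1 := mul_inv_cancel₀ hν
      rw [pow_succ ν (k + 1), pow_succ ν k, pow_succ ν⁻¹ (k + 1), pow_succ ν⁻¹ k]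
      linear_combination (ν ^ k + ν⁻¹ ^ k) * hn
  exact (key k).1

/-- the closed form of the traces `tr (w ^ k g)` -/
private theorem tri_U {L : Type*} [Field L] (w g : SL2 L) (ν : L) (hν : ν ≠ 0)
    (h : tr w = ν + ν⁻¹) (k : ℕ) : (ν - ν⁻¹) * tr (w ^ k * g) =
      (ν ^ k - (ν⁻¹) ^ k) * tr (w * g) - (ν⁻¹ * ν ^ k - ν * (ν⁻¹) ^ k) * tr g := by
  have hn : ν * ν⁻¹ = 1 := mul_inv_cancel₀ hν
  have key : ∀ k : ℕ, ((ν - ν⁻¹) * tr (w ^ k * g) =
      (ν ^ k - (ν⁻¹) ^ k) * tr (w * g) - (ν⁻¹ * ν ^ k - ν * (ν⁻¹) ^ k) * tr g) ∧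
      ((ν - ν⁻¹) * tr (w ^ (k + 1) * g) = (ν ^ (k + 1) - (ν⁻¹) ^ (k + 1)) * tr (w * g) -
        (ν⁻¹ * ν ^ (k + 1) - ν * (ν⁻¹) ^ (k + 1)) * tr g) := by
    intro k
    induction k with
    | zero =>
      refine ⟨?_, ?_⟩
      · rw [pow_zero, one_mul, pow_zero, pow_zero]
        ring
      · rw [zero_add, pow_one, pow_one, pow_one]
        ring
    | succ k ih =>
      refine ⟨ih.2, ?_⟩
      have hr := tri_rec w g k
      have e1 : (ν - ν⁻¹) * tr (w ^ (k + 1 + 1) * g) =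
          tr w * ((ν - ν⁻¹) * tr (w ^ (k + 1) * g)) - (ν - ν⁻¹) * tr (w ^ k * g) := by
        rw [show k + 1 + 1 = k + 2 by ring, hr]
        ring
      rw [e1, ih.1, ih.2, h]
      rw [pow_succ ν (k + 1), pow_succ ν k, pow_succ ν⁻¹ (k + 1), pow_succ ν⁻¹ k]
      linear_combination ((ν ^ k - ν⁻¹ ^ k) * tr (w * g) -
        (ν⁻¹ * ν ^ k - ν * ν⁻¹ ^ k) * tr g) * hn
  exact (key k).1

theorem pow_comm {L : Type*} [Field L] (w g : SL2 L) (ν : L) (hν : ν ≠ 0) (h : tr w = ν + ν⁻¹)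
    (k : ℕ) : (ν - ν⁻¹) ^ 2 * (tr (w ^ k * g * (w ^ k)⁻¹ * g⁻¹) - 2) =
      (ν ^ k - (ν⁻¹) ^ k) ^ 2 * (tr (w * g * w⁻¹ * g⁻¹) - 2) := by
  have hn : ν * ν⁻¹ = 1 := mul_inv_cancel₀ hν
  have hT := tr_pow w ν hν h k
  have hU := tri_U w g ν hν h k
  have hab : ν ^ k * ν⁻¹ ^ k = 1 := by rw [← mul_pow, hn, one_pow]
  rw [tr_comm, tr_comm, hT, h]
  generalize tr (w ^ k * g) = U at hU ⊢
  generalize tr (w * g) = z at hU ⊢
  generalize tr g = y at hU ⊢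
  have hν' : ν⁻¹ ≠ 0 := inv_ne_zero hν
  generalize ν⁻¹ = m at hn hU hab hν' ⊢
  generalize hA : ν ^ k = a at hU hab ⊢
  generalize hB : m ^ k = b at hU hab ⊢
  have e1 : (ν - m) ^ 2 * ((a + b) ^ 2 + y ^ 2 + U ^ 2 - (a + b) * y * U - 2 - 2) =
      (ν - m) ^ 2 * ((a + b) ^ 2 + y ^ 2 - 4) + ((ν - m) * U) ^ 2 -
        (a + b) * y * (ν - m) * ((ν - m) * U) := by ring
  rw [e1, hU]
  have ha : a ≠ 0 := left_ne_zero_of_mul (hab ▸ one_ne_zero)
  have hm : m = ν⁻¹ := eq_inv_of_mul_eq_one_right hn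
  have hb : b = a⁻¹ := eq_inv_of_mul_eq_one_right hab
  rw [hm, hb]
  field_simp
  ring

end AAC
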