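import Pool.Agent.AAC.Wv
import Pool.Agent.AAC.Tri
import Pool.Agent.AAC.Far
import Pool.Agent.AAC.PPc

/-!
# AAC-GapC (1.4h)
Over the complex numbers: one of the new types is free if one of the three numbers is far from `[0, 4]`. PLAN. `x = tr A`, `κ = kp ..`. From `nd ≠ 0`: `x ≠ 0`, `tr B ≠ 0`, `κ ≠ 0`, `x² - κ - 4 ≠ 0`. Case 1 (`x²`): `x² - 2` is far from `[-2, 2]`, `far` gives `μ` with `x² - 2 = μ + μ⁻¹`, `‖μ‖ ≥ 1 + 1/200`; `x = ν + ν⁻¹` for some `ν` with `‖ν‖ ≥ 1`, and `ν² + ν⁻² = μ + μ⁻¹`,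
so `ν² = μ` or `ν² = μ⁻¹`, and `‖ν‖² ≥ 1 + 1/200`. `W = A ^ KK`, `g = B`, eigenvalue `ν ^ KK`: `‖ν ^ KK‖² = (‖ν‖²)^800 ≥ (1 + 1/200)^800 ≥ 2^4 ≥ 10` (Bernoulli `(1 + 1/200)^200 ≥ 2`). Condition `tr (W g W⁻¹ g⁻¹) ≠ 2` by `pow_comm` (`ν^KK ≠ ν⁻¹^KK` by norms, `tr [A, B] - 2 = κ ≠ 0`); `tr g = tr B ≠ 0`. `ppc` and `evw_wdt, evw_tw_true, evw_tw_false`
give the type `(0, true)` or `(0, false)`. Case 2: `4 - x² + κ` far: `tr (A B A B⁻¹) = x² - κ - 2 = 2 - (4 - x² + κ)` is far from `[-2, 2]` (`u ↦ 2 - u`); `far` gives `ν`; `W = (A B A B⁻¹)^KK`, `g = A`, `tr g = x ≠ 0`, commutator condition by `pow_comm`, `tr_dA` (`κ (4 - x² + κ) ≠ 0`). Case 3: `-κ` far: the same with `A B A⁻¹ B⁻¹`, trace `κ + 2`, `tr_cA`.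
-/

set_option autoImplicit false

namespace AAC

open Matrix Module Polynomial Pool.Agent.Helper72.TV Pool.Agent.Helper72.PT Pool.Agent.Helper72.PF TRS

private theorem gc_big {r : ℝ} (h : 1 + 1 / 200 ≤ r) : 10 ≤ r ^ KK := by
  have h1 : (2 : ℝ) ≤ (1 + 1 / 200) ^ 200 := by
    have := one_add_mul_le_pow (a := (1 / 200 : ℝ)) (by norm_num) 200
    norm_num at this ⊢
  rw [KK_eq]
  calc (10 : ℝ) ≤ 2 ^ 4 := by norm_num
    _ ≤ ((1 + 1 / 200) ^ 200) ^ 4 := pow_le_pow_left₀ (by norm_num) h1 4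
    _ = (1 + 1 / 200) ^ 800 := by rw [← pow_mul]
    _ ≤ r ^ 800 := pow_le_pow_left₀ (by norm_num) h 800

private theorem gc_core (A B : SL2 ℂ) (k : Fin 3) (ν : ℂ) (hν : ν ≠ 0) (w g : SL2 ℂ)
    (hw : evw A B (ww k) = w) (hg : evw A B (gg k) = g) (htr : tr w = ν + ν⁻¹)
    (h10 : 10 ≤ ‖ν ^ KK‖ ^ 2) (hc : tr (w * g * w⁻¹ * g⁻¹) ≠ 2) (htg : tr g ≠ 0) :
    ∃ p : Fin 3 × Bool, ∀ l l' : List Bool, l.length = l'.length →
      evw A B (wdt (Sum.inr p) l) = evw A B (wdt (Sum.inr p) l') → l = l' := by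
  have htW : tr (w ^ KK) = ν ^ KK + (ν ^ KK)⁻¹ := by
    rw [tr_pow w ν hν htr KK, inv_pow]
  have hkW : tr (w ^ KK * g * (w ^ KK)⁻¹ * g⁻¹) ≠ 2 := by
    intro h
    have h1 := pow_comm w g ν hν htr KK
    rw [h, sub_self, mul_zero] at h1
    rcases mul_eq_zero.1 h1.symm with h2 | h2
    · have h3 : ν ^ KK = (ν ^ KK)⁻¹ := by
        rw [← inv_pow]
        exact sub_eq_zero.1 (pow_eq_zero_iff (two_ne_zero)|>.1 h2)
      have h4 : ν ^ KK * ν ^ KK = 1 := by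
        have h5 : ν ^ KK ≠ 0 := pow_ne_zero _ hν
        calc ν ^ KK * ν ^ KK = ν ^ KK * (ν ^ KK)⁻¹ := by rw [← h3]
          _ = 1 := mul_inv_cancel₀ h5
      have h6 : ‖ν ^ KK‖ ^ 2 = 1 := by
        rw [pow_two, ← norm_mul, h4, norm_one]
      rw [h6] at h10
      norm_num at h10
    · exact hc (sub_eq_zero.1 h2)
  rcases ppc (w ^ KK) g (ν ^ KK) (pow_ne_zero _ hν) htW h10 hkW (fun h => htg h.1) with h | h
  · refine ⟨(k, true), fun l l' hl he => h l l' hl ?_⟩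
    rw [evw_wdt, evw_wdt, evw_tw_true, (evw_tw_false A B k).1, hw, hg] at he
    exact he
  · refine ⟨(k, false), fun l l' hl he => h l l' hl ?_⟩
    rw [evw_wdt, evw_wdt, evw_tw_true, (evw_tw_false A B k).2, hw, hg] at he
    exact he

private theorem gc_core' (A B : SL2 ℂ) (k : Fin 3) (w g : SL2 ℂ)
    (hw : evw A B (ww k) = w) (hg : evw A B (gg k) = g)
    (hf : ∀ u : ℝ, -2 ≤ u → u ≤ 2 → 1 / 50 < ‖tr w - u‖)
    (hc : tr (w * g * w⁻¹ * g⁻¹) ≠ 2) (htg : tr g ≠ 0) :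
    ∃ p : Fin 3 × Bool, ∀ l l' : List Bool, l.length = l'.length →
      evw A B (wdt (Sum.inr p) l) = evw A B (wdt (Sum.inr p) l') → l = l' := by
  obtain ⟨ν, hν, h1, h2⟩ := far (tr w) hf
  refine gc_core A B k ν hν w g hw hg h1 ?_ hc htg
  rw [norm_pow]
  have h3 := gc_big h2
  nlinarith

private theorem gc_root (x : ℂ) : ∃ ν : ℂ, ν ≠ 0 ∧ x = ν + ν⁻¹ := by
  obtain ⟨s, hs⟩ := IsAlgClosed.exists_pow_nat_eq (x ^ 2 - 4) (n := 2) (by norm_num)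
  have h1 : (x + s) / 2 * ((x - s) / 2) = 1 := by
    linear_combination (-1 / 4 : ℂ) * hs
  have h2 : (x + s) / 2 ≠ 0 := left_ne_zero_of_mul_eq_one h1
  refine ⟨(x + s) / 2, h2, ?_⟩
  rw [← eq_inv_of_mul_eq_one_right h1]
  ring

theorem gapC (A B : SL2 ℂ) (hnd : nd (tr A) (tr B) (tr (A * B)) ≠ 0)
    (hfar : (∀ u : ℝ, 0 ≤ u → u ≤ 4 → 1 / 50 < ‖tr A ^ 2 - u‖) ∨
      (∀ u : ℝ, 0 ≤ u → u ≤ 4 →
        1 / 50 < ‖4 - tr A ^ 2 + kp (tr A) (tr B) (tr (A * B)) - u‖) ∨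
      (∀ u : ℝ, 0 ≤ u → u ≤ 4 → 1 / 50 < ‖-kp (tr A) (tr B) (tr (A * B)) - u‖)) :
    ∃ p : Fin 3 × Bool, ∀ l l' : List Bool, l.length = l'.length →
      evw A B (wdt (Sum.inr p) l) = evw A B (wdt (Sum.inr p) l') → l = l' := by
  have hx : tr A ≠ 0 := by
    rintro h
    apply hnd
    unfold nd
    rw [h]
    ring
  have hy : tr B ≠ 0 := by
    rintro h
    apply hnd
    unfold nd
    rw [h]
    ring
  have hk : kp (tr A) (tr B) (tr (A * B)) ≠ 0 := by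
    rintro h
    apply hnd
    unfold nd
    rw [h]
    ring
  have hk4 : 4 - tr A ^ 2 + kp (tr A) (tr B) (tr (A * B)) ≠ 0 := by
    rintro h
    apply hnd
    unfold nd
    have h1 : tr A ^ 2 - kp (tr A) (tr B) (tr (A * B)) - 4 = 0 := by
      linear_combination -h
    rw [h1, mul_zero]
  have h0 : evw A B (gg 0) = B := by
    show ([2].map (lt A B)).prod = B
    simp [lt]
  have h1 : evw A B (gg 1) = A := by
    show ([0].map (lt A B)).prod = A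
    simp [lt]
  have h2 : evw A B (gg 2) = A := by
    show ([0].map (lt A B)).prod = A
    simp [lt]
  have h3 : evw A B (ww 0) = A := by
    show ([0].map (lt A B)).prod = A
    simp [lt]
  have h4 : evw A B (ww 1) = A * B * A⁻¹ * B⁻¹ := by
    show ([0, 2, 1, 3].map (lt A B)).prod = _
    simp [lt, mul_assoc]
  have h5 : evw A B (ww 2) = A * B * A * B⁻¹ := by
    show ([0, 2, 0, 3].map (lt A B)).prod = _
    simp [lt, mul_assoc]
  rcases hfar with hf | hf | hf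
  · obtain ⟨μ, hμ, h6, h7⟩ := far (tr A ^ 2 - 2) (by
      intro u hu1 hu2
      have h8 := hf (u + 2) (by linarith) (by linarith)
      rw [show tr A ^ 2 - 2 - (u : ℂ) = tr A ^ 2 - ((u + 2 : ℝ) : ℂ) by push_cast; ring]
      exact h8)
    have hc : tr (A * B * A⁻¹ * B⁻¹) ≠ 2 := by
      rw [tr_c]
      intro h
      apply hk
      linear_combination h
    have key : ∃ ν : ℂ, ν ≠ 0 ∧ tr A = ν + ν⁻¹ ∧ ν ^ 2 = μ := by
      obtain ⟨ν, hν, h8⟩ := gc_root (tr A)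
      have h9 : (ν ^ 2 - μ) * (ν ^ 2 * μ - 1) = 0 := by
        rw [h8] at h6
        have h10 : ν * ν⁻¹ = 1 := mul_inv_cancel₀ hν
        have h11 : μ * μ⁻¹ = 1 := mul_inv_cancel₀ hμ
        have h12 : ν ^ 2 + (ν⁻¹) ^ 2 = μ + μ⁻¹ := by linear_combination h6 - 2 * h10
        have h13 : ν ^ 4 + 1 = (μ + μ⁻¹) * ν ^ 2 := by
          linear_combination ν ^ 2 * h12 - (ν * ν⁻¹ + 1) * h10
        linear_combination μ * h13 + ν ^ 2 * h11
      rcases mul_eq_zero.1 h9 with h10 | h10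
      · exact ⟨ν, hν, h8, sub_eq_zero.1 h10⟩
      · refine ⟨ν⁻¹, inv_ne_zero hν, ?_, ?_⟩
        · rw [inv_inv, h8, add_comm]
        · have h11 : ν ^ 2 * μ = 1 := sub_eq_zero.1 h10
          rw [inv_pow]
          exact (eq_inv_of_mul_eq_one_right h11).symm
    obtain ⟨ν, hν, h8, h9⟩ := key
    refine gc_core A B 0 ν hν A B h3 h0 h8 ?_ hc hy
    rw [← norm_pow, ← pow_mul, mul_comm, pow_mul, h9, norm_pow]
    exact gc_big h7
  · refine gc_core' A B 2 (A * B * A * B⁻¹) A h5 h2 ?_ ?_ hx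
    · intro u hu1 hu2
      have h8 := hf (2 - u) (by linarith) (by linarith)
      rw [tr_d, show tr A ^ 2 - kp (tr A) (tr B) (tr (A * B)) - 2 - (u : ℂ) =
        -(4 - tr A ^ 2 + kp (tr A) (tr B) (tr (A * B)) - ((2 - u : ℝ) : ℂ)) by
          push_cast; ring, norm_neg]
      exact h8
    · rw [tr_dA]
      intro h
      rcases mul_eq_zero.1 (add_eq_left.1 h) with h6 | h6
      · exact hk h6
      · exact hk4 h6
  · refine gc_core' A B 1 (A * B * A⁻¹ * B⁻¹) A h4 h1 ?_ ?_ hx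
    · intro u hu1 hu2
      have h8 := hf (2 - u) (by linarith) (by linarith)
      rw [tr_c, show kp (tr A) (tr B) (tr (A * B)) + 2 - (u : ℂ) =
        -(-kp (tr A) (tr B) (tr (A * B)) - ((2 - u : ℝ) : ℂ)) by
          push_cast; ring, norm_neg]
      exact h8
    · rw [tr_cA]
      intro h
      rcases mul_eq_zero.1 (add_eq_left.1 h) with h6 | h6
      · exact hk h6
      · exact hk4 h6

end AAC
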