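import Pool.Agent.AAC.L1

/-!
# AAC-Hom (1.6h)
Homogenisation. `r(α/a, β/b)` multiplied by `a^E b^E` is an algebraic integer. PLAN. `φ r = ∑ i, ∑ j, c i j ξ^j η^i` with `ξ = α / a` (inner variable), `η = β / b` (outer variable), `c i j = (r.coeff i).coeff j`, `i, j ≤ E`. Take `ω = ∑ i, ∑ j, c i j α^j a^(E-j) β^i b^(E-i) : ZB`. `φ` is determined by its values at `C X`, `X` (`Polynomial.sum_over_range`, `map_sum`; integers go to integers), so
is `ψ`. Bound: `‖σ ω‖ ≤ ∑ |c i j| (‖σ ξ‖ |a|)^j |a|^(E-j) ... ≤ l2 r * (|a| |b| X Y)^E` with `X, Y ≥ 1` bounds for `‖σ ξ‖, ‖σ η‖`. Degree: `ω ∈ ℚ(ξ, η)` and `[ℚ(ξ, η) : ℚ] ≤ d₁ d₂` (`IntermediateField.adjoin`, degree of a simple extension is the degree of the minimal polynomial, which divides `R`, `R₂`; tower law/compositum `IntermediateField.finrank_sup_le`), and the degree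
of the minimal polynomial of an element divides, so is at most, the degree of the field.
-/

set_option autoImplicit false

namespace AAC

open Matrix Module Polynomial Pool.Agent.Helper72.TV Pool.Agent.Helper72.PT Pool.Agent.Helper72.PF TRS

private theorem hcoeff_swap (p : ℤ[X][X]) (i j : ℕ) :
    ((Bivariate.swap p).coeff j).coeff i = (p.coeff i).coeff j := by
  induction p using Polynomial.induction_on' with
  | add p q hp hq => rw [map_add, coeff_add, coeff_add, coeff_add, coeff_add, hp, hq]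
  | monomial n a =>
    induction a using Polynomial.induction_on' with
    | add a b ha hb =>
      rw [map_add (monomial n), map_add, coeff_add, coeff_add, coeff_add, coeff_add, ha, hb]
    | monomial m r =>
      rw [Bivariate.swap_monomial_monomial, coeff_monomial, coeff_monomial]
      by_cases h1 : m = j <;> by_cases h2 : n = i <;> simp [h1, h2, coeff_monomial]

private theorem hcoeff_le (p : ℤ[X][X]) (E : ℕ) (h2 : (Bivariate.swap p).natDegree ≤ E) (i : ℕ) :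
    (p.coeff i).natDegree ≤ E := by
  refine le_trans ?_ h2
  rw [natDegree_le_iff_coeff_eq_zero]
  intro j hj
  rw [← hcoeff_swap, coeff_eq_zero_of_natDegree_lt hj, coeff_zero]

private theorem hexpand {S : Type*} [CommRing S] (χ : ℤ[X][X] →+* S) (r : ℤ[X][X]) (E : ℕ)
    (h1 : r.natDegree ≤ E) (h2 : (Bivariate.swap r).natDegree ≤ E) :
    χ r = ∑ i ∈ Finset.range (E + 1), ∑ j ∈ Finset.range (E + 1),
      (((r.coeff i).coeff j : ℤ) : S) * χ (C X) ^ j * χ X ^ i := by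
  have e : ∀ i, r.coeff i = ∑ j ∈ Finset.range (E + 1), monomial j ((r.coeff i).coeff j) := fun i =>
    as_sum_range' _ _ (Nat.lt_succ_of_le (hcoeff_le r E h2 i))
  conv_lhs => rw [as_sum_range' r (E + 1) (Nat.lt_succ_of_le h1)]
  rw [map_sum]
  refine Finset.sum_congr rfl fun i _ => ?_
  conv_lhs => rw [e i]
  rw [← C_mul_X_pow_eq_monomial, map_mul, map_pow, map_sum, map_sum, Finset.sum_mul]
  refine Finset.sum_congr rfl fun j _ => ?_
  congr 1
  rw [← C_mul_X_pow_eq_monomial, C_mul, C_pow, map_mul, map_pow]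
  congr 1
  rw [show (C (C ((r.coeff i).coeff j)) : ℤ[X][X]) = (((r.coeff i).coeff j : ℤ) : ℤ[X][X]) by
    rw [← map_intCast (C : ℤ[X] →+* ℤ[X][X]), ← map_intCast (C : ℤ →+* ℤ[X])]
    simp]
  rw [map_intCast]

private theorem hl2_eq (r : ℤ[X][X]) (E : ℕ) (h1 : r.natDegree ≤ E)
    (h2 : (Bivariate.swap r).natDegree ≤ E) :
    l2 r = ∑ i ∈ Finset.range (E + 1), ∑ j ∈ Finset.range (E + 1), ((r.coeff i).coeff j).natAbs := by
  have h0 : l1 0 = 0 := by
    unfold l1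
    exact sum_zero_index _
  unfold l2
  rw [sum_over_range' r (fun _ => h0) (E + 1) (Nat.lt_succ_of_le h1)]
  refine Finset.sum_congr rfl fun i _ => ?_
  unfold l1
  exact sum_over_range' _ (fun _ => Int.natAbs_zero) (E + 1) (Nat.lt_succ_of_le (hcoeff_le r E h2 i))

private theorem hpow {S : Type*} [CommRing S] (a x y : S) (E j : ℕ) (hj : j ≤ E) (h : y = a * x) :
    y ^ j * a ^ (E - j) = a ^ E * x ^ j := by
  rw [h, mul_pow]
  calc a ^ j * x ^ j * a ^ (E - j) = a ^ (j + (E - j)) * x ^ j := by rw [pow_add]; ring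
    _ = a ^ E * x ^ j := by rw [Nat.add_sub_cancel' hj]

theorem homg (a b : ℤ) (ha : a ≠ 0) (hb : b ≠ 0) (α β : ZB) (r : ℤ[X][X]) (E : ℕ)
    (h1 : r.natDegree ≤ E) (h2 : (Bivariate.swap r).natDegree ≤ E)
    (φ : ℤ[X][X] →+* AlgebraicClosure ℚ)
    (hφ1 : φ (C X) = (α : AlgebraicClosure ℚ) / a) (hφ2 : φ X = (β : AlgebraicClosure ℚ) / b) :
    ∃ ω : ZB, (ω : AlgebraicClosure ℚ) = (a : AlgebraicClosure ℚ) ^ E * b ^ E * φ r ∧
      (∀ {K : Type} [Field K] (θ : ZB →+* K) (ψ : ℤ[X][X] →+* K), θ α = a * ψ (C X) →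
        θ β = b * ψ X → θ ω = (a : K) ^ E * b ^ E * ψ r) := by
  have key : ∀ {S : Type} [CommRing S] (ϑ : ZB →+* S) (χ : ℤ[X][X] →+* S), ϑ α = a * χ (C X) →
      ϑ β = b * χ X → ϑ (∑ i ∈ Finset.range (E + 1), ∑ j ∈ Finset.range (E + 1),
        (((r.coeff i).coeff j : ℤ) : ZB) * (α ^ j * (a : ZB) ^ (E - j)) *
          (β ^ i * (b : ZB) ^ (E - i))) = (a : S) ^ E * b ^ E * χ r := by
    intro S _ ϑ χ hα hβ
    rw [hexpand χ r E h1 h2, map_sum, Finset.mul_sum]
    refine Finset.sum_congr rfl fun i hi => ?_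
    rw [map_sum, Finset.mul_sum]
    refine Finset.sum_congr rfl fun j hj => ?_
    rw [Finset.mem_range] at hi hj
    simp only [map_mul, map_pow, map_intCast]
    rw [hpow (a : S) (χ (C X)) (ϑ α) E j (by omega) hα, hpow (b : S) (χ X) (ϑ β) E i (by omega) hβ]
    ring
  have ha' : (a : AlgebraicClosure ℚ) ≠ 0 := Int.cast_ne_zero.2 ha
  have hb' : (b : AlgebraicClosure ℚ) ≠ 0 := Int.cast_ne_zero.2 hb
  refine ⟨∑ i ∈ Finset.range (E + 1), ∑ j ∈ Finset.range (E + 1),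
        (((r.coeff i).coeff j : ℤ) : ZB) * (α ^ j * (a : ZB) ^ (E - j)) *
          (β ^ i * (b : ZB) ^ (E - i)), ?_, fun θ ψ hα hβ => key θ ψ hα hβ⟩
  refine key (ZB.subtype : ZB →+* AlgebraicClosure ℚ) φ ?_ ?_
  · rw [hφ1, mul_div_cancel₀ _ ha']
    rfl
  · rw [hφ2, mul_div_cancel₀ _ hb']
    rfl

theorem homg_norm (a b : ℤ) (r : ℤ[X][X]) (E : ℕ) (h1 : r.natDegree ≤ E)
    (h2 : (Bivariate.swap r).natDegree ≤ E) (χ : ℤ[X][X] →+* ℂ) (X1 Y1 : ℝ) (hX : 1 ≤ X1)
    (hY : 1 ≤ Y1) (hx : ‖χ (C X)‖ ≤ X1) (hy : ‖χ X‖ ≤ Y1) :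
    ‖(a : ℂ) ^ E * b ^ E * χ r‖ ≤ l2 r * (|(a : ℝ)| * |(b : ℝ)| * X1 * Y1) ^ E := by
  have h3 : ‖χ r‖ ≤ l2 r * (X1 ^ E * Y1 ^ E) := by
    rw [hexpand χ r E h1 h2, hl2_eq r E h1 h2]
    push_cast
    rw [Finset.sum_mul]
    refine (norm_sum_le _ _).trans (Finset.sum_le_sum fun i hi => ?_)
    rw [Finset.sum_mul]
    refine (norm_sum_le _ _).trans (Finset.sum_le_sum fun j hj => ?_)
    rw [Finset.mem_range] at hi hj
    rw [norm_mul, norm_mul, norm_pow, norm_pow, mul_assoc, Complex.norm_intCast, Nat.cast_natAbs,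
      Int.cast_abs]
    refine mul_le_mul_of_nonneg_left ?_ (abs_nonneg _)
    refine mul_le_mul ?_ ?_ (by positivity) (by positivity)
    · exact (pow_le_pow_left₀ (norm_nonneg _) hx j).trans (pow_le_pow_right₀ hX (by omega))
    · exact (pow_le_pow_left₀ (norm_nonneg _) hy i).trans (pow_le_pow_right₀ hY (by omega))
  rw [norm_mul, norm_mul, norm_pow, norm_pow, Complex.norm_intCast, Complex.norm_intCast]
  calc |(a : ℝ)| ^ E * |(b : ℝ)| ^ E * ‖χ r‖
      ≤ |(a : ℝ)| ^ E * |(b : ℝ)| ^ E * (l2 r * (X1 ^ E * Y1 ^ E)) :=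
        mul_le_mul_of_nonneg_left h3 (by positivity)
    _ = l2 r * (|(a : ℝ)| * |(b : ℝ)| * X1 * Y1) ^ E := by ring

private theorem hdeg_gen {k L : Type*} [Field k] [Field L] [Algebra k L] {ξ η x : L}
    (hξ : IsIntegral k ξ) (hη : IsIntegral k η)
    (hx : x ∈ IntermediateField.adjoin k {ξ} ⊔ IntermediateField.adjoin k {η}) :
    (minpoly k x).natDegree ≤ (minpoly k ξ).natDegree * (minpoly k η).natDegree := by
  have hf1 := IntermediateField.adjoin.finiteDimensional hξ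
  have hf2 := IntermediateField.adjoin.finiteDimensional hη
  have h3 := IntermediateField.minpoly_eq (K := k)
    (S := IntermediateField.adjoin k {ξ} ⊔ IntermediateField.adjoin k {η}) ⟨x, hx⟩
  have h4 := minpoly.natDegree_le (A := k)
    (⟨x, hx⟩ : ↥(IntermediateField.adjoin k {ξ} ⊔ IntermediateField.adjoin k {η}))
  rw [h3] at h4
  refine h4.trans ((IntermediateField.finrank_sup_le _ _).trans ?_)
  rw [IntermediateField.adjoin.finrank hξ, IntermediateField.adjoin.finrank hη]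

private theorem hroot (R : ℤ[X]) (hR : R ≠ 0) (ξ : AlgebraicClosure ℚ)
    (h1 : R.eval₂ (Int.castRingHom (AlgebraicClosure ℚ)) ξ = 0) :
    IsIntegral ℚ ξ ∧ (minpoly ℚ ξ).natDegree ≤ R.natDegree := by
  have hinj : Function.Injective (Int.castRingHom ℚ) := Int.cast_injective
  have h2 : R.map (Int.castRingHom ℚ) ≠ 0 := (Polynomial.map_ne_zero_iff hinj).2 hR
  have h3 : aeval ξ (R.map (Int.castRingHom ℚ)) = 0 := by
    rw [aeval_def, eval₂_map]
    rw [show (algebraMap ℚ (AlgebraicClosure ℚ)).comp (Int.castRingHom ℚ) =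
      Int.castRingHom (AlgebraicClosure ℚ) from RingHom.ext_int _ _]
    exact h1
  have hint : IsAlgebraic ℚ ξ := ⟨_, h2, h3⟩
  refine ⟨hint.isIntegral, ?_⟩
  have h4 := natDegree_le_natDegree (minpoly.degree_le_of_ne_zero ℚ ξ h2 h3)
  rwa [natDegree_map_eq_of_injective hinj] at h4

theorem homg_deg (R R2 : ℤ[X]) (hR : R ≠ 0) (hR2 : R2 ≠ 0) (ξ η : AlgebraicClosure ℚ)
    (h1 : R.eval₂ (Int.castRingHom (AlgebraicClosure ℚ)) ξ = 0)
    (h2 : R2.eval₂ (Int.castRingHom (AlgebraicClosure ℚ)) η = 0)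
    (φ : ℤ[X][X] →+* AlgebraicClosure ℚ) (hφ1 : φ (C X) = ξ) (hφ2 : φ X = η) (r : ℤ[X][X])
    (c : ℚ) : (minpoly ℚ (algebraMap ℚ (AlgebraicClosure ℚ) c * φ r)).natDegree ≤
      R.natDegree * R2.natDegree := by
  obtain ⟨hi1, hd1⟩ := hroot R hR ξ h1
  obtain ⟨hi2, hd2⟩ := hroot R2 hR2 η h2
  refine (hdeg_gen hi1 hi2 ?_).trans (Nat.mul_le_mul hd1 hd2)
  have hξ : ξ ∈ IntermediateField.adjoin ℚ {ξ} ⊔ IntermediateField.adjoin ℚ {η} :=
    (le_sup_left : IntermediateField.adjoin ℚ {ξ} ≤ _) (IntermediateField.mem_adjoin_simple_self ℚ ξ)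
  have hη : η ∈ IntermediateField.adjoin ℚ {ξ} ⊔ IntermediateField.adjoin ℚ {η} :=
    (le_sup_right : IntermediateField.adjoin ℚ {η} ≤ _) (IntermediateField.mem_adjoin_simple_self ℚ η)
  refine mul_mem (IntermediateField.algebraMap_mem _ c) ?_
  rw [hexpand φ r (max r.natDegree (Bivariate.swap r).natDegree) (le_max_left _ _)
    (le_max_right _ _), hφ1, hφ2]
  exact sum_mem fun i _ => sum_mem fun j _ =>
    mul_mem (mul_mem (intCast_mem _ _) (pow_mem hξ j)) (pow_mem hη i)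

end AAC
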