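import Pool.Agent.AAC.L1

/-!
# AAC-Hou (0.6h)
Bound for complex roots. PLAN. If `‖ξ‖ ≤ 1` use `l1_pos`. Otherwise with `d = natDegree R`, `a` the leading coefficient, `|a| ≥ 1`: `‖ξ‖ ^ d ≤ |a| ‖ξ‖ ^ d = ‖∑ i < d, c i ξ ^ i‖ ≤ (∑ |c i|) ‖ξ‖ ^ (d - 1)`, so `‖ξ‖ ≤ l1 R` (`d ≥ 1` because `R` has a root and is nonzero).
-/

set_option autoImplicit false

namespace AAC

open Matrix Module Polynomial Pool.Agent.Helper72.TV Pool.Agent.Helper72.PT Pool.Agent.Helper72.PF TRS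

theorem house (R : ℤ[X]) (hR : R ≠ 0) (ξ : ℂ) (h : R.eval₂ (Int.castRingHom ℂ) ξ = 0) :
    ‖ξ‖ ≤ l1 R := by
  have hpos : (1 : ℝ) ≤ (l1 R : ℝ) := by exact_mod_cast l1_pos hR
  rcases le_or_gt ‖ξ‖ 1 with hle | hgt
  · exact hle.trans hpos
  have hξ0 : (0 : ℝ) < ‖ξ‖ := one_pos.trans hgt
  obtain ⟨n, hn⟩ : ∃ n, n = R.natDegree := ⟨_, rfl⟩
  have hlc : R.coeff n ≠ 0 := by
    rw [hn]
    exact leadingCoeff_ne_zero.2 hR
  rw [eval₂_eq_sum_range, ← hn, Finset.sum_range_succ] at h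
  have hl1 : l1 R = ∑ i ∈ Finset.range (n + 1), (R.coeff i).natAbs := by
    rw [hn]
    exact Polynomial.sum_over_range R (fun _ => Int.natAbs_zero)
  have hla : (1 : ℝ) ≤ ‖(Int.castRingHom ℂ) (R.coeff n)‖ := by
    rw [eq_intCast, Complex.norm_intCast]
    exact_mod_cast Int.one_le_abs hlc
  have h1 : (Int.castRingHom ℂ) (R.coeff n) * ξ ^ n =
      -∑ i ∈ Finset.range n, (Int.castRingHom ℂ) (R.coeff i) * ξ ^ i :=
    eq_neg_of_add_eq_zero_right h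
  have h2 : ‖ξ‖ ^ n ≤ ∑ i ∈ Finset.range n, ((R.coeff i).natAbs : ℝ) * ‖ξ‖ ^ i := by
    calc ‖ξ‖ ^ n = 1 * ‖ξ‖ ^ n := (one_mul _).symm
      _ ≤ ‖(Int.castRingHom ℂ) (R.coeff n)‖ * ‖ξ‖ ^ n :=
          mul_le_mul_of_nonneg_right hla (pow_nonneg hξ0.le _)
      _ = ‖(Int.castRingHom ℂ) (R.coeff n) * ξ ^ n‖ := by rw [norm_mul, norm_pow]
      _ = ‖∑ i ∈ Finset.range n, (Int.castRingHom ℂ) (R.coeff i) * ξ ^ i‖ := by rw [h1, norm_neg]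
      _ ≤ ∑ i ∈ Finset.range n, ‖(Int.castRingHom ℂ) (R.coeff i) * ξ ^ i‖ := norm_sum_le _ _
      _ = ∑ i ∈ Finset.range n, ((R.coeff i).natAbs : ℝ) * ‖ξ‖ ^ i := by
          refine Finset.sum_congr rfl fun i _ => ?_
          rw [norm_mul, norm_pow, eq_intCast, Complex.norm_intCast, Nat.cast_natAbs, Int.cast_abs]
  rcases Nat.eq_zero_or_pos n with h0 | h0
  · rw [h0, pow_zero, Finset.range_zero, Finset.sum_empty] at h2
    linarith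
  obtain ⟨m, rfl⟩ : ∃ m, n = m + 1 := ⟨n - 1, by omega⟩
  have h3 : ‖ξ‖ ^ (m + 1) ≤ (l1 R : ℝ) * ‖ξ‖ ^ m := by
    refine h2.trans ?_
    have h4 : (∑ i ∈ Finset.range (m + 1), ((R.coeff i).natAbs : ℝ)) ≤ (l1 R : ℝ) := by
      rw [hl1, Finset.sum_range_succ _ (m + 1)]
      push_cast
      have : (0 : ℝ) ≤ ((R.coeff (m + 1)).natAbs : ℝ) := Nat.cast_nonneg _
      have h5 : (0 : ℝ) ≤ |((R.coeff (m + 1) : ℤ) : ℝ)| := abs_nonneg _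
      simp only [Nat.cast_natAbs, Int.cast_abs] at *
      linarith
    calc ∑ i ∈ Finset.range (m + 1), ((R.coeff i).natAbs : ℝ) * ‖ξ‖ ^ i
        ≤ ∑ i ∈ Finset.range (m + 1), ((R.coeff i).natAbs : ℝ) * ‖ξ‖ ^ m := by
          refine Finset.sum_le_sum fun i hi => ?_
          rw [Finset.mem_range] at hi
          exact mul_le_mul_of_nonneg_left (pow_le_pow_right₀ hgt.le (by omega)) (Nat.cast_nonneg _)
      _ = (∑ i ∈ Finset.range (m + 1), ((R.coeff i).natAbs : ℝ)) * ‖ξ‖ ^ m := by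
          rw [Finset.sum_mul]
      _ ≤ (l1 R : ℝ) * ‖ξ‖ ^ m := mul_le_mul_of_nonneg_right h4 (pow_nonneg hξ0.le _)
  rw [pow_succ'] at h3
  exact le_of_mul_le_mul_right h3 (pow_pos hξ0 _)

end AAC
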