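import Mathlib

/-!
# AAC-PidE (0.5h)
Copy of the finished `Pool/Agent/TRS/Pid.lean` with the degree bound `e` instead of `2` for `s`: the coefficient `c i0` satisfies `c i0 * f i0 = s ^ D - ∑ ..` of degree `≤ max (e D) (2 D) = e D`.
-/

set_option autoImplicit false

namespace AAC

open Polynomial

private theorem prod_dvd_pow {K : Type*} [Field K] (s : K[X]) (m : Multiset K)
    (h : ∀ a ∈ m, (X - C a) ∣ s) : (m.map (fun a => X - C a)).prod ∣ s ^ Multiset.card m := by
  induction m using Multiset.induction_on with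
  | empty => simp
  | cons a m ih =>
    rw [Multiset.map_cons, Multiset.prod_cons, Multiset.card_cons, pow_succ']
    exact mul_dvd_mul (h a (Multiset.mem_cons_self a m)) (ih fun b hb => h b (Multiset.mem_cons_of_mem hb))

private theorem dvd_pow_natDegree {L : Type*} [Field L] {G s : L[X]} (hG : G ≠ 0)
    (h : ∀ ζ : AlgebraicClosure L, aeval ζ G = 0 → aeval ζ s = 0) : G ∣ s ^ G.natDegree := by
  rw [← map_dvd_map' (algebraMap L (AlgebraicClosure L)), Polynomial.map_pow]
  have hG' : G.map (algebraMap L (AlgebraicClosure L)) ≠ 0 :=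
    (Polynomial.map_ne_zero_iff (algebraMap L (AlgebraicClosure L)).injective).2 hG
  have hsp := IsAlgClosed.splits (G.map (algebraMap L (AlgebraicClosure L)))
  have h1 := prod_dvd_pow (s.map (algebraMap L (AlgebraicClosure L)))
    (G.map (algebraMap L (AlgebraicClosure L))).roots (fun a ha => by
      rw [dvd_iff_isRoot, IsRoot, eval_map_algebraMap]
      refine h a ?_
      rw [← eval_map_algebraMap]
      exact (mem_roots hG').1 ha)
  rw [← hsp.natDegree_eq_card_roots, natDegree_map] at h1
  refine dvd_trans ?_ h1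
  conv_lhs => rw [hsp.eq_prod_roots]
  have hu : IsUnit (C (G.map (algebraMap L (AlgebraicClosure L))).leadingCoeff) :=
    (isUnit_iff_ne_zero.2 (leadingCoeff_ne_zero.2 hG')).map C
  exact (hu.mul_left_dvd).2 dvd_rfl

theorem pidE {L : Type*} [Field L] {ι : Type*} [Fintype ι] [DecidableEq ι] (f : ι → L[X])
    (s : L[X]) (D e : ℕ) (hD : 1 ≤ D) (he : 2 ≤ e) (hf : ∀ i, (f i).natDegree ≤ D)
    (hne : ∃ i, f i ≠ 0) (hs : s.natDegree ≤ e)
    (hroot : ∀ ζ : AlgebraicClosure L, (∀ i, aeval ζ (f i) = 0) → aeval ζ s = 0) :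
    ∃ c : ι → L[X], (∀ i, (c i).natDegree ≤ e * D) ∧ ∑ i, c i * f i = s ^ D := by
  obtain ⟨i0, hi0⟩ := hne
  obtain ⟨I, hI⟩ : ∃ I : Ideal L[X], I = Ideal.span (Set.range f) := ⟨_, rfl⟩
  have hprin : Submodule.IsPrincipal I := inferInstance
  obtain ⟨G, hG⟩ := hprin
  have hG2 : ∀ x, x ∈ I ↔ G ∣ x := by
    intro x
    rw [hG]
    exact Ideal.mem_span_singleton
  have hGf : ∀ i, G ∣ f i := fun i => (hG2 _).1 (by rw [hI]; exact Ideal.subset_span ⟨i, rfl⟩)
  have hG0 : G ≠ 0 := by
    rintro rfl
    exact hi0 (zero_dvd_iff.1 (hGf i0))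
  have hGD : G.natDegree ≤ D := (natDegree_le_of_dvd (hGf i0) hi0).trans (hf i0)
  have hGs : G ∣ s ^ D := by
    refine (dvd_pow_natDegree hG0 fun ζ hζ => hroot ζ fun i => ?_).trans (pow_dvd_pow s hGD)
    obtain ⟨q, hq⟩ := hGf i
    rw [hq, map_mul, hζ, zero_mul]
  obtain ⟨a, ha⟩ : ∃ a : ι → L[X], ∑ i, a i * f i = s ^ D := by
    have h1 := (hG2 _).2 hGs
    rw [hI] at h1
    exact (Ideal.mem_span_range_iff_exists_fun).1 h1
  obtain ⟨c0, hc0⟩ : ∃ c0, c0 = a i0 + ∑ j ∈ Finset.univ.erase i0, (a j / f i0) * f j := ⟨_, rfl⟩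
  have hsum : c0 * f i0 + ∑ i ∈ Finset.univ.erase i0, (a i % f i0) * f i = s ^ D := by
    rw [← ha, ← Finset.add_sum_erase _ _ (Finset.mem_univ i0), hc0, add_mul, Finset.sum_mul, add_assoc,
      ← Finset.sum_add_distrib]
    congr 1
    refine Finset.sum_congr rfl fun i _ => ?_
    have h1 := EuclideanDomain.div_add_mod (a i) (f i0)
    calc a i / f i0 * f i * f i0 + a i % f i0 * f i = (f i0 * (a i / f i0) + a i % f i0) * f i := by ring
      _ = a i * f i := by rw [h1]
  have hb : ∀ i, (a i % f i0).natDegree ≤ D := by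
    intro i
    have h1 : (a i % f i0).degree < (f i0).degree := EuclideanDomain.mod_lt (a i) hi0
    exact (natDegree_le_natDegree h1.le).trans (hf i0)
  refine ⟨fun i => if i = i0 then c0 else a i % f i0, fun i => ?_, ?_⟩
  · by_cases h : i = i0
    · show (if i = i0 then c0 else a i % f i0).natDegree ≤ e * D
      rw [if_pos h]
      by_cases hc : c0 = 0
      · rw [hc, natDegree_zero]
        exact Nat.zero_le _
      · have h1 : (c0 * f i0).natDegree ≤ e * D := by
          have h2 : c0 * f i0 = s ^ D - ∑ i ∈ Finset.univ.erase i0, (a i % f i0) * f i := by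
            rw [← hsum]
            ring
          rw [h2]
          refine (natDegree_sub_le _ _).trans (max_le ?_ ?_)
          · refine natDegree_pow_le.trans ?_
            calc D * s.natDegree ≤ D * e := Nat.mul_le_mul_left D hs
              _ = e * D := Nat.mul_comm _ _
          · refine natDegree_sum_le_of_forall_le _ _ fun i _ => ?_
            refine natDegree_mul_le.trans ?_
            have h3 := hb i
            have h4 := hf i
            have h5 : 2 * D ≤ e * D := Nat.mul_le_mul_right D he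
            omega
        rw [natDegree_mul hc hi0] at h1
        omega
    · show (if i = i0 then c0 else a i % f i0).natDegree ≤ e * D
      rw [if_neg h]
      have h3 := hb i
      have h5 : 2 * D ≤ e * D := Nat.mul_le_mul_right D he
      omega
  · rw [← hsum, ← Finset.add_sum_erase _ _ (Finset.mem_univ i0)]
    congr 1
    · simp
    · refine Finset.sum_congr rfl fun i hi => ?_
      show (if i = i0 then c0 else a i % f i0) * f i = a i % f i0 * f i
      rw [if_neg (Finset.ne_of_mem_erase hi)]

end AAC
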