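import Pool.Agent.AAC.PolZ
import Pool.Agent.AAC.PidE
import Pool.Agent.AAC.Gap

/-!
# AAC-IdZ (1.0h)
A power of the saturating polynomial is in the ideal of the coincidence polynomials over every field of characteristic zero. PLAN. As `TRS/CutA.lean` (finished), simpler: `pidE` with `D = 3210 n`, `e = 8`, `s = satZ.map φ`. hroot: for `ζ` in the algebraic closure (characteristic zero) a common root of all `(fZ T p).map φ`; if `nd x y ζ ≠ 0` (`x, y` the images of `φ (C X)`, `φ X`) then `gap` gives a type `i`,
for the pair `T i` an index `j` with different coefficients, contradiction with `fZ_eval`; so `nd x y ζ = 0`, i.e. `aeval ζ s = 0` (`satZ_eval`). hne: otherwise every `ζ` would be a root of `s ≠ 0`, an infinite field.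
-/

set_option autoImplicit false

namespace AAC

open Matrix Module Polynomial Pool.Agent.Helper72.TV Pool.Agent.Helper72.PT Pool.Agent.Helper72.PF TRS

/-- vanishing at all common roots, from a point of view of an algebraically closed extension -/
private theorem idZ_root {L K : Type} [Field L] [Field K] [IsAlgClosed K] [CharZero K]
    (φ : ℤ[X][X] →+* L) (n : ℕ) (T : Ty → List Bool × List Bool) (hT : GoodT n T) (j : L →+* K)
    (ζ : K) (h : ∀ p, (fZ T p).eval₂ (j.comp φ) ζ = 0) : satZ.eval₂ (j.comp φ) ζ = 0 := by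
  rw [satZ_eval]
  by_contra hne
  obtain ⟨i, hi⟩ := gap _ _ ζ hne
  obtain ⟨hl1, hl2, hl3⟩ := hT i
  obtain ⟨t, ht⟩ := hi (T i).1 (T i).2 (hl1.trans hl2.symm) hl3
  have := h (i, t)
  rw [fZ_eval] at this
  exact ht (sub_eq_zero.1 this)

theorem idZ {L : Type} [Field L] [CharZero L] (φ : ℤ[X][X] →+* L) (n : ℕ) (hn : 1 ≤ n)
    (T : Ty → List Bool × List Bool) (hT : GoodT n T) (hs : satZ.map φ ≠ 0) :
    ∃ c : Ty × Fin 4 → L[X], (∀ p, (c p).natDegree ≤ 8 * (3210 * n)) ∧
      ∑ p, c p * (fZ T p).map φ = (satZ ^ (3210 * n)).map φ := by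
  haveI : CharZero (AlgebraicClosure L) :=
    charZero_of_injective_algebraMap (algebraMap L (AlgebraicClosure L)).injective
  have hroot : ∀ ζ : AlgebraicClosure L, (∀ p, aeval ζ ((fZ T p).map φ) = 0) →
      aeval ζ (satZ.map φ) = 0 := by
    intro ζ h
    rw [aeval_def, eval₂_map]
    refine idZ_root φ n T hT (algebraMap L (AlgebraicClosure L)) ζ ?_
    intro p
    have := h p
    rw [aeval_def, eval₂_map] at this
    exact this
  have hne : ∃ p, (fZ T p).map φ ≠ 0 := by
    by_contra hcon
    push Not at hcon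
    have h1 : ∀ ζ : AlgebraicClosure L, aeval ζ (satZ.map φ) = 0 := by
      intro ζ
      apply hroot
      intro p
      rw [hcon p, map_zero]
    have h2 : (satZ.map φ).map (algebraMap L (AlgebraicClosure L)) = 0 := by
      apply Polynomial.funext
      intro ζ
      rw [eval_map_algebraMap, h1 ζ, eval_zero]
    exact hs ((Polynomial.map_eq_zero_iff (algebraMap L (AlgebraicClosure L)).injective).1 h2)
  obtain ⟨c, hc1, hc2⟩ := pidE (fun p => (fZ T p).map φ) (satZ.map φ) (3210 * n) 8 (by omega)
    (by norm_num) (fun p => (natDegree_map_le).trans (fZ_natDegree n T hT p)) hne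
    ((natDegree_map_le).trans satZ_natDegree) hroot
  refine ⟨c, hc1, ?_⟩
  rw [hc2, Polynomial.map_pow]

end AAC
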