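import Mathlib

/-!
# AAC-Ineq (1.2h)
An inequality of Schur-Siegel-Smyth type. PLAN. `realIneq`: put `e = 1/50`. (1) `-e ≤ u ≤ 0`: left side `≤ (1/25) * (26/25)`, right side `≥ exp (-2) ≥ 0.13`. (2) `0 ≤ u ≤ 1`: with `v = u - 0.35` the left side is
`0.2479 + 0.30 v - v²`, the right side `exp (-1.3244..) * exp (4 v / 3) ≥ 0.265 * (1 + 4 v / 3)` (`Real.add_one_le_exp`), and `0.265 + 0.3533 v - 0.2479 - 0.30 v + v² > 0` (negative discriminant). (3) `1 ≤ u ≤ 5`: with `v = u - 2` the left side is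
`2.0604 + 3.04 v + v²`, the right side `exp (0.8755..) * exp (4 v / 3) ≥ 2.39 * (1 + s + s² / 2 + s³ / 6)`, `s = 4 v / 3` (for `s ≥ 0` even without the cubic term: `Real.quadratic_le_exp_of_nonneg`, for `s < 0`: prove `1 + s + s² / 2 + s³ / 6 ≤ exp s` by monotonicity or `Real.exp_bound`-type
lemmas; or split `[1, 2]` into small intervals using `exp (4 v / 3) = exp(-4/3 * ..)`, tangent lines at several points, whatever is easiest: the relative margin is 13 percent at `u = 1.8`, larger elsewhere). The numerical margins: at `u = 0.35` left 0.2479, right 0.2659. `cplxIneq`: `‖z‖ ≤ |re z| + |im z| ≤ |re z| + e`, `‖z - 1‖ ≤ |re z - 1| + e`,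
`-e ≤ re z ≤ 4 + e`; take logarithms in `realIneq` (`Real.log_mul`, `Real.log_exp`, `Real.log_le_log`).
-/

set_option autoImplicit false

namespace AAC

private theorem tang (u0 c u : ℝ) (hc0 : 0 ≤ c) (hc : c ≤ Real.exp (4 / 3 * (u0 - 4 / 3 - 1 / 100))) :
    c * (1 + 4 / 3 * (u - u0)) ≤ Real.exp (4 / 3 * (u - 4 / 3 - 1 / 100)) := by
  have h1 : 4 / 3 * (u - 4 / 3 - 1 / 100) = 4 / 3 * (u0 - 4 / 3 - 1 / 100) + 4 / 3 * (u - u0) := by ring
  rw [h1, Real.exp_add]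
  have h2 := Real.add_one_le_exp (4 / 3 * (u - u0))
  have h3 := Real.exp_pos (4 / 3 * (u - u0))
  calc c * (1 + 4 / 3 * (u - u0)) ≤ c * Real.exp (4 / 3 * (u - u0)) := by
        apply mul_le_mul_of_nonneg_left _ hc0
        linarith
    _ ≤ _ := mul_le_mul_of_nonneg_right hc h3.le

private theorem pw (x : ℝ) (n : ℕ) (hn : n ≠ 0) (h : 0 ≤ 1 + x / n) : (1 + x / n) ^ n ≤ Real.exp x := by
  have h1 : x = n * (x / n) := by field_simp
  conv_rhs => rw [h1]
  rw [Real.exp_nat_mul]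
  apply pow_le_pow_left₀ h
  have := Real.add_one_le_exp (x / n)
  linarith

theorem realIneq (u : ℝ) (hu : -(1 / 50) ≤ u) (hu5 : u ≤ 5) :
    (|u| + 1 / 50) * (|u - 1| + 1 / 50) ≤ Real.exp (4 / 3 * (u - 4 / 3 - 1 / 100)) := by
  rcases le_or_gt u 0 with h0 | h0
  · rw [abs_of_nonpos h0, abs_of_nonpos (by linarith)]
    have h1 : (1 / 10 : ℝ) ≤ Real.exp (4 / 3 * (-(1 / 50) - 4 / 3 - 1 / 100)) := by
      refine le_trans ?_ (pw _ 16 (by norm_num) (by norm_num))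
      norm_num
    have h2 := tang (-(1 / 50)) (1 / 10) u (by norm_num) h1
    nlinarith
  rw [abs_of_pos h0]
  rcases le_or_gt u 1 with h1 | h1
  · rw [abs_of_nonpos (by linarith)]
    have h2 : (1 / 4 : ℝ) ≤ Real.exp (4 / 3 * (7 / 20 - 4 / 3 - 1 / 100)) := by
      refine le_trans ?_ (pw _ 32 (by norm_num) (by norm_num))
      norm_num
    have h3 := tang (7 / 20) (1 / 4) u (by norm_num) h2
    nlinarith [sq_nonneg (u - 7 / 20 + 1 / 60)]
  rw [abs_of_pos (by linarith)]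
  rcases le_or_gt u (9 / 5) with h2 | h2
  · have h3 : (6 / 5 : ℝ) ≤ Real.exp (4 / 3 * (3 / 2 - 4 / 3 - 1 / 100)) := by
      refine le_trans ?_ (pw _ 1 (by norm_num) (by norm_num))
      norm_num
    have h4 := tang (3 / 2) (6 / 5) u (by norm_num) h3
    nlinarith [mul_nonneg (sub_nonneg.2 h1.le) (sub_nonneg.2 h2)]
  have h3 : (23 / 10 : ℝ) ≤ Real.exp (4 / 3 * (2 - 4 / 3 - 1 / 100)) := by
    refine le_trans ?_ (pw _ 16 (by norm_num) (by norm_num))
    norm_num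
  rcases le_or_gt u 2 with h4 | h4
  · have h5 := tang 2 (23 / 10) u (by norm_num) h3
    nlinarith [mul_nonneg (sub_nonneg.2 h2.le) (sub_nonneg.2 h4)]
  · have h5 : 4 / 3 * (u - 4 / 3 - 1 / 100) = 4 / 3 * (2 - 4 / 3 - 1 / 100) + 4 / 3 * (u - 2) := by ring
    rw [h5, Real.exp_add]
    have h6 := Real.quadratic_le_exp_of_nonneg (x := 4 / 3 * (u - 2)) (by linarith)
    have h7 := Real.exp_pos (4 / 3 * (u - 2))
    calc (u + 1 / 50) * (u - 1 + 1 / 50)
        ≤ 23 / 10 * (1 + 4 / 3 * (u - 2) + (4 / 3 * (u - 2)) ^ 2 / 2) := by nlinarith [sq_nonneg (u - 2)]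
      _ ≤ 23 / 10 * Real.exp (4 / 3 * (u - 2)) := by linarith
      _ ≤ _ := mul_le_mul_of_nonneg_right h3 h7.le

theorem cplxIneq (z : ℂ) (hz0 : z ≠ 0) (hz1 : z ≠ 1)
    (h : ∃ u : ℝ, 0 ≤ u ∧ u ≤ 4 ∧ ‖z - u‖ ≤ 1 / 50) :
    4 / 3 + 1 / 100 ≤ z.re - 3 / 4 * Real.log ‖z‖ - 3 / 4 * Real.log ‖z - 1‖ := by
  obtain ⟨u, hu0, hu4, hu⟩ := h
  have him : |z.im| ≤ 1 / 50 := by
    have := Complex.abs_im_le_norm (z - u)
    rw [Complex.sub_im, Complex.ofReal_im, sub_zero] at this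
    exact this.trans hu
  have hre : |z.re - u| ≤ 1 / 50 := by
    have := Complex.abs_re_le_norm (z - u)
    rw [Complex.sub_re, Complex.ofReal_re] at this
    exact this.trans hu
  rw [abs_le] at hre
  have h1 : ‖z‖ ≤ |z.re| + 1 / 50 := (Complex.norm_le_abs_re_add_abs_im z).trans (by linarith)
  have h2 : ‖z - 1‖ ≤ |z.re - 1| + 1 / 50 := by
    have := Complex.norm_le_abs_re_add_abs_im (z - 1)
    rw [Complex.sub_re, Complex.sub_im, Complex.one_re, Complex.one_im, sub_zero] at this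
    exact this.trans (by linarith)
  have h3 := realIneq z.re (by linarith) (by linarith)
  have h4 : 0 < ‖z‖ := norm_pos_iff.2 hz0
  have h5 : 0 < ‖z - 1‖ := norm_pos_iff.2 (sub_ne_zero.2 hz1)
  have h6 : ‖z‖ * ‖z - 1‖ ≤ Real.exp (4 / 3 * (z.re - 4 / 3 - 1 / 100)) :=
    (mul_le_mul h1 h2 h5.le (by positivity)).trans h3
  have h7 := Real.log_le_log (mul_pos h4 h5) h6
  rw [Real.log_exp, Real.log_mul h4.ne' h5.ne'] at h7
  linarith

end AAC
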