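import Pool.Agent.AAC.Defs
import Pool.Agent.Helper72.PF.SwapDeg

/-!
# AAC-L1
Elementary properties of the norms `l1`, `l2` (sums of the absolute values of the coefficients).
-/

set_option autoImplicit false

namespace AAC

open Matrix Module Polynomial Pool.Agent.Helper72.TV Pool.Agent.Helper72.PT Pool.Agent.Helper72.PF TRS

/-- a submultiplicative seminorm with natural values -/
private structure Nu {R : Type} [CommRing R] (ν : R → ℕ) : Prop where
  zero : ν 0 = 0
  add : ∀ a b, ν (a + b) ≤ ν a + ν b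
  mul : ∀ a b, ν (a * b) ≤ ν a * ν b
  neg : ∀ a, ν (-a) = ν a

/-- the sum of the seminorms of the coefficients -/
private noncomputable def LL {R : Type} [CommRing R] (ν : R → ℕ) (p : R[X]) : ℕ :=
  p.sum fun _ a => ν a

private theorem LL_range {R : Type} [CommRing R] {ν : R → ℕ} (h : Nu ν) (p : R[X]) (N : ℕ)
    (hN : p.natDegree < N) : LL ν p = ∑ i ∈ Finset.range N, ν (p.coeff i) :=
  Polynomial.sum_over_range' p (fun _ => h.zero) N hN

private theorem LL_zero {R : Type} [CommRing R] {ν : R → ℕ} : LL ν (0 : R[X]) = 0 := by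
  unfold LL
  rw [Polynomial.sum_zero_index]

private theorem LL_monomial {R : Type} [CommRing R] {ν : R → ℕ} (h : Nu ν) (n : ℕ) (a : R) :
    LL ν (monomial n a) = ν a := by
  unfold LL
  rw [Polynomial.sum_monomial_index _ _ h.zero]

private theorem LL_add {R : Type} [CommRing R] {ν : R → ℕ} (h : Nu ν) (p q : R[X]) :
    LL ν (p + q) ≤ LL ν p + LL ν q := by
  obtain ⟨N, hN⟩ : ∃ N, N = max p.natDegree q.natDegree + 1 := ⟨_, rfl⟩
  have h1 : p.natDegree < N := by omega
  have h2 : q.natDegree < N := by omega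
  have h3 : (p + q).natDegree < N := by
    have := natDegree_add_le p q
    omega
  rw [LL_range h p N h1, LL_range h q N h2, LL_range h (p + q) N h3, ← Finset.sum_add_distrib]
  apply Finset.sum_le_sum
  intro i _
  rw [coeff_add]
  exact h.add _ _

private theorem LL_sum {R : Type} [CommRing R] {ν : R → ℕ} (h : Nu ν) {ι : Type} (s : Finset ι)
    (f : ι → R[X]) : LL ν (∑ i ∈ s, f i) ≤ ∑ i ∈ s, LL ν (f i) := by
  classical
  induction s using Finset.induction_on with
  | empty => simp [LL_zero]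
  | insert a s ha ih =>
    rw [Finset.sum_insert ha, Finset.sum_insert ha]
    exact (LL_add h _ _).trans (Nat.add_le_add_left ih _)

private theorem LL_mul {R : Type} [CommRing R] {ν : R → ℕ} (h : Nu ν) (p q : R[X]) :
    LL ν (p * q) ≤ LL ν p * LL ν q := by
  rw [Polynomial.mul_eq_sum_sum]
  refine (LL_sum h _ _).trans ?_
  have h1 : LL ν p = ∑ i ∈ p.support, ν (p.coeff i) := rfl
  have h2 : LL ν q = ∑ j ∈ q.support, ν (q.coeff j) := rfl
  rw [h1, Finset.sum_mul]
  apply Finset.sum_le_sum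
  intro i _
  rw [Polynomial.sum_def]
  refine (LL_sum h _ _).trans ?_
  rw [h2, Finset.mul_sum]
  apply Finset.sum_le_sum
  intro j _
  rw [LL_monomial h]
  exact h.mul _ _

private theorem LL_neg {R : Type} [CommRing R] {ν : R → ℕ} (h : Nu ν) (p : R[X]) :
    LL ν (-p) = LL ν p := by
  rw [LL_range h p (p.natDegree + 1) (Nat.lt_succ_self _),
    LL_range h (-p) (p.natDegree + 1) (by rw [natDegree_neg]; exact Nat.lt_succ_self _)]
  apply Finset.sum_congr rfl
  intro i _
  rw [coeff_neg, h.neg]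

private theorem LL_coeff {R : Type} [CommRing R] {ν : R → ℕ} (h : Nu ν) (p : R[X]) (i : ℕ) :
    ν (p.coeff i) ≤ LL ν p := by
  rw [LL_range h p (p.natDegree + i + 1) (by omega)]
  exact Finset.single_le_sum (f := fun i => ν (p.coeff i)) (fun _ _ => Nat.zero_le _)
    (Finset.mem_range.2 (by omega))

private theorem LL_nu {R : Type} [CommRing R] {ν : R → ℕ} (h : Nu ν) : Nu (LL ν) :=
  ⟨LL_zero, LL_add h, LL_mul h, LL_neg h⟩

private theorem nu0 : Nu (Int.natAbs) :=
  ⟨rfl, Int.natAbs_add_le, fun a b => (Int.natAbs_mul a b).le, Int.natAbs_neg⟩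

private theorem l1_eq (p : ℤ[X]) : l1 p = LL Int.natAbs p := rfl

private theorem l1_fun : l1 = LL Int.natAbs := rfl

private theorem l2_eq (p : ℤ[X][X]) : l2 p = LL (LL Int.natAbs) p := rfl

private theorem nu1 : Nu (LL Int.natAbs) := LL_nu nu0

theorem l1_zero : l1 0 = 0 := by
  rw [l1_eq, LL_zero]

theorem l1_one : l1 1 = 1 := by
  have h : (1 : ℤ[X]) = monomial 0 1 := rfl
  rw [l1_eq, h, LL_monomial nu0]
  rfl

theorem l1_add (p q : ℤ[X]) : l1 (p + q) ≤ l1 p + l1 q := LL_add nu0 p q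

theorem l1_mul (p q : ℤ[X]) : l1 (p * q) ≤ l1 p * l1 q := LL_mul nu0 p q

theorem l1_neg (p : ℤ[X]) : l1 (-p) = l1 p := LL_neg nu0 p

theorem natAbs_coeff_le (p : ℤ[X]) (i : ℕ) : (p.coeff i).natAbs ≤ l1 p := LL_coeff nu0 p i

theorem l1_pos {p : ℤ[X]} (hp : p ≠ 0) : 1 ≤ l1 p := by
  refine le_trans ?_ (natAbs_coeff_le p p.natDegree)
  exact Nat.one_le_iff_ne_zero.2 (Int.natAbs_ne_zero.2 (leadingCoeff_ne_zero.2 hp))

theorem l2_zero : l2 0 = 0 := by
  rw [l2_eq, LL_zero]

theorem l2_C (p : ℤ[X]) : l2 (C p) = l1 p := by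
  rw [l2_eq, l1_eq]
  exact LL_monomial nu1 0 p

theorem l2_one : l2 1 = 1 := by
  have h : (1 : ℤ[X][X]) = C 1 := rfl
  rw [h, l2_C, l1_one]

theorem l2_CX : l2 (C X) = 1 := by
  rw [l2_C, l1_eq, ← monomial_one_one_eq_X, LL_monomial nu0]
  rfl

theorem l2_X : l2 X = 1 := by
  rw [l2_eq, ← monomial_one_one_eq_X, LL_monomial nu1]
  exact l1_one

theorem l2_add (p q : ℤ[X][X]) : l2 (p + q) ≤ l2 p + l2 q := LL_add nu1 p q

theorem l2_mul (p q : ℤ[X][X]) : l2 (p * q) ≤ l2 p * l2 q := LL_mul nu1 p q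

theorem l2_neg (p : ℤ[X][X]) : l2 (-p) = l2 p := LL_neg nu1 p

theorem l1_coeff_le (p : ℤ[X][X]) (i : ℕ) : l1 (p.coeff i) ≤ l2 p := LL_coeff nu1 p i

theorem l2_pos {p : ℤ[X][X]} (hp : p ≠ 0) : 1 ≤ l2 p :=
  (l1_pos (leadingCoeff_ne_zero.2 hp)).trans (l1_coeff_le p p.natDegree)

private theorem coeff_swapZ (p : ℤ[X][X]) (i j : ℕ) :
    ((Bivariate.swap p).coeff j).coeff i = (p.coeff i).coeff j := by
  induction p using Polynomial.induction_on' with
  | add p q hp hq => rw [map_add, coeff_add, coeff_add, coeff_add, coeff_add, hp, hq]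
  | monomial n a =>
    induction a using Polynomial.induction_on' with
    | add a b ha hb =>
      rw [map_add (monomial n), map_add, coeff_add, coeff_add, coeff_add, coeff_add, ha, hb]
    | monomial m r =>
      rw [Bivariate.swap_monomial_monomial, coeff_monomial, coeff_monomial]
      by_cases h1 : m = j <;> by_cases h2 : n = i <;> simp [h1, h2, coeff_monomial]

private theorem coeff_deg (p : ℤ[X][X]) (i : ℕ) :
    (p.coeff i).natDegree ≤ (Bivariate.swap p).natDegree := by
  rw [natDegree_le_iff_coeff_eq_zero]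
  intro j hj
  rw [← coeff_swapZ, coeff_eq_zero_of_natDegree_lt hj, coeff_zero]

private theorem l2_square (p : ℤ[X][X]) (N : ℕ) (h1 : p.natDegree < N)
    (h2 : (Bivariate.swap p).natDegree < N) :
    l2 p = ∑ i ∈ Finset.range N, ∑ j ∈ Finset.range N, ((p.coeff i).coeff j).natAbs := by
  rw [l2_eq, LL_range nu1 p N h1]
  apply Finset.sum_congr rfl
  intro i _
  exact LL_range nu0 (p.coeff i) N (lt_of_le_of_lt (coeff_deg p i) h2)

theorem l2_swap (p : ℤ[X][X]) : l2 (Bivariate.swap p) = l2 p := by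
  obtain ⟨N, hN⟩ : ∃ N, N = max p.natDegree (Bivariate.swap p).natDegree + 1 := ⟨_, rfl⟩
  have h1 : p.natDegree < N := by omega
  have h2 : (Bivariate.swap p).natDegree < N := by omega
  rw [l2_square p N h1 h2, l2_square (Bivariate.swap p) N h2
    (by rw [Bivariate.swap_swap_apply]; exact h1), Finset.sum_comm]
  apply Finset.sum_congr rfl
  intro i _
  apply Finset.sum_congr rfl
  intro j _
  rw [coeff_swapZ]

theorem l2_le_of_coeff (D B : ℕ) (p : ℤ[X][X]) (h1 : p.natDegree ≤ D)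
    (h2 : (Bivariate.swap p).natDegree ≤ D)
    (h3 : ∀ i j, ((p.coeff i).coeff j).natAbs ≤ B) : l2 p ≤ (D + 1) ^ 2 * B := by
  rw [l2_square p (D + 1) (by omega) (by omega)]
  calc ∑ i ∈ Finset.range (D + 1), ∑ j ∈ Finset.range (D + 1), ((p.coeff i).coeff j).natAbs
      ≤ ∑ _i ∈ Finset.range (D + 1), ∑ _j ∈ Finset.range (D + 1), B :=
        Finset.sum_le_sum fun i _ => Finset.sum_le_sum fun j _ => h3 i j
    _ = (D + 1) ^ 2 * B := by
        rw [Finset.sum_const, Finset.sum_const, Finset.card_range, smul_eq_mul, smul_eq_mul]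
        ring

end AAC
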