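import Pool.Agent.AAC.Defs

/-!
# AAC-Omg (1.2h)
Primes dividing an algebraic integer. PLAN. `m` = constant coefficient of `minpoly ℤ (ω : ZB)` (equivalently of the minimal polynomial over `ℤ` of the algebraic number; `minpoly.isIntegrallyClosed_eq_field_fractions'` relates it to `minpoly ℚ`, same degree); `m ≠ 0` since `ω ≠ 0` (`minpoly.coeff_zero_ne_zero`). Over `ℂ` the minimal polynomial is the product of `X - C r` over its `≤ d` roots `r`; every complex root is `σ ω`
for some `σ : AlgebraicClosure ℚ →+* ℂ` (`IsAlgClosed.lift` from `ℚ(ω)`, or `Algebra.IsAlgebraic.range_eval_eq_rootSet_minpoly`), so `|m| = ∏ ‖r‖ ≤ B ^ d` (`B ≥ 1`). If `θ ω = 0`, apply `θ` to `aeval ω (minpoly ℤ ω) = 0`: all terms but the constant one vanish: `(m : K) = 0`.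
-/

set_option autoImplicit false

namespace AAC

open Matrix Module Polynomial Pool.Agent.Helper72.TV Pool.Agent.Helper72.PT Pool.Agent.Helper72.PF TRS

private theorem om_prod {B : ℝ} (hB : 0 ≤ B) (s : Multiset ℂ) (h : ∀ x ∈ s, ‖x‖ ≤ B) :
    ‖s.prod‖ ≤ B ^ (Multiset.card s) := by
  induction s using Multiset.induction_on with
  | empty => rw [Multiset.prod_zero, Multiset.card_zero, pow_zero, norm_one]
  | cons a s ih =>
    rw [Multiset.prod_cons, Multiset.card_cons, norm_mul, pow_succ, mul_comm]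
    exact mul_le_mul (ih fun x hx => h x (Multiset.mem_cons_of_mem hx))
      (h a (Multiset.mem_cons_self a s)) (norm_nonneg _) (pow_nonneg hB _)

private theorem om_eval {K : Type} [Field K] (θ : ZB →+* K) (ω : ZB) (hω : θ ω = 0) (P : ℤ[X])
    (hP : Polynomial.aeval ω P = 0) : ((P.coeff 0 : ℤ) : K) = 0 := by
  have h1 : θ (Polynomial.aeval ω P) = 0 := by rw [hP, map_zero]
  rw [Polynomial.aeval_def, Polynomial.hom_eval₂, hω] at h1
  have h2 := Polynomial.eval₂_at_apply (p := P) (θ.comp (algebraMap ℤ ZB)) 0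
  rw [map_zero, h1, ← Polynomial.coeff_zero_eq_eval_zero, eq_intCast] at h2
  exact h2.symm

theorem omg (ω : ZB) (hω : ω ≠ 0) (d : ℕ) (B : ℝ) (hB1 : 1 ≤ B)
    (hd : (minpoly ℚ (ω : AlgebraicClosure ℚ)).natDegree ≤ d)
    (hB : ∀ σ : AlgebraicClosure ℚ →+* ℂ, ‖σ (ω : AlgebraicClosure ℚ)‖ ≤ B) :
    ∃ m : ℤ, m ≠ 0 ∧ (m.natAbs : ℝ) ≤ B ^ d ∧
      ∀ {K : Type} [Field K] (θ : ZB →+* K), θ ω = 0 → (m : K) = 0 := by
  have hB0 : 0 ≤ B := by linarith
  obtain ⟨a, ha⟩ : ∃ a : AlgebraicClosure ℚ, a = (ω : AlgebraicClosure ℚ) := ⟨_, rfl⟩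
  have hint : IsIntegral ℤ a := by
    rw [ha]
    exact ω.2
  have halg : Algebra.IsAlgebraic ℚ (AlgebraicClosure ℚ) := AlgebraicClosure.isAlgebraic ℚ
  have hintQ : IsIntegral ℚ a := hint.tower_top
  have ha0 : a ≠ 0 := by
    rw [ha]
    intro h
    exact hω (Subtype.ext h)
  rw [← ha] at hd hB
  have hmap : minpoly ℚ a = (minpoly ℤ a).map (algebraMap ℤ ℚ) :=
    minpoly.isIntegrallyClosed_eq_field_fractions' ℚ hint
  have hmon : (minpoly ℤ a).Monic := minpoly.monic hint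
  refine ⟨(minpoly ℤ a).coeff 0, ?_, ?_, ?_⟩
  · have h1 := minpoly.coeff_zero_ne_zero hintQ ha0
    rw [hmap, Polynomial.coeff_map] at h1
    intro h2
    rw [h2, map_zero] at h1
    exact h1 rfl
  · obtain ⟨Q, hQ⟩ : ∃ Q : Polynomial ℂ, Q = (minpoly ℤ a).map (Int.castRingHom ℂ) := ⟨_, rfl⟩
    have hQ2 : Q = (minpoly ℚ a).map (algebraMap ℚ ℂ) := by
      rw [hQ, hmap, Polynomial.map_map]
      congr 1
    have hQm : Q.Monic := by
      rw [hQ]
      exact hmon.map _
    have hQs : Q.Splits := IsAlgClosed.splits Q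
    have hc := hQs.coeff_zero_eq_prod_roots_of_monic hQm
    have hdeg : Q.natDegree ≤ d := by
      rw [hQ2, Polynomial.natDegree_map]
      exact hd
    have hroots : ∀ x ∈ Q.roots, ‖x‖ ≤ B := by
      intro x hx
      have h1 : x ∈ (minpoly ℚ a).rootSet ℂ := by
        rw [Polynomial.mem_rootSet]
        refine ⟨minpoly.ne_zero hintQ, ?_⟩
        have h2 := Polynomial.isRoot_of_mem_roots hx
        rw [hQ2, Polynomial.IsRoot.def, Polynomial.eval_map_algebraMap] at h2
        exact h2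
      rw [← Algebra.IsAlgebraic.range_eval_eq_rootSet_minpoly] at h1
      obtain ⟨ψ, hψ⟩ := h1
      have h3 := hB (ψ : AlgebraicClosure ℚ →+* ℂ)
      have h4 : (ψ : AlgebraicClosure ℚ →+* ℂ) a = x := hψ
      rwa [h4] at h3
    have h5 : ‖Q.coeff 0‖ ≤ B ^ d := by
      rw [hc, norm_mul, norm_pow, norm_neg, norm_one, one_pow, one_mul]
      refine (om_prod hB0 _ hroots).trans (pow_le_pow_right₀ hB1 ?_)
      exact (Polynomial.card_roots' Q).trans hdeg
    have h6 : ‖Q.coeff 0‖ = (((minpoly ℤ a).coeff 0).natAbs : ℝ) := by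
      rw [hQ, Polynomial.coeff_map, eq_intCast, Complex.norm_intCast, Nat.cast_natAbs,
        Int.cast_abs]
    rw [← h6]
    exact h5
  · intro K _ θ hθ
    refine om_eval θ ω hθ _ ?_
    have h1 : Polynomial.aeval a (minpoly ℤ a) = 0 := minpoly.aeval ℤ a
    have h2 : Polynomial.aeval ((integralClosure ℤ (AlgebraicClosure ℚ)).val ω) (minpoly ℤ a) =
        (integralClosure ℤ (AlgebraicClosure ℚ)).val (Polynomial.aeval ω (minpoly ℤ a)) :=
      Polynomial.aeval_algHom_apply _ _ _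
    have h3 : (integralClosure ℤ (AlgebraicClosure ℚ)).val ω = a := ha.symm
    rw [h3, h1] at h2
    exact Subtype.ext h2.symm

end AAC
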