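import Pool.Agent.AAC.Chn
import Pool.Agent.AAC.FacZ
import Pool.Agent.AAC.Facs

/-!
# AAC-OneT (1.2h)
All characteristics with a bad point, for given coincidences `T`. PLAN. `φ₀ : ℤ[X][X] → FractionRing ℤ[X][X]` injective, characteristic zero. `cutZ`: `Δ₀ ≠ 0`, which vanishes at ALL bad points. `facs` with `D = n ^ 36`: `S`, `m₀`, `|m₀| ≤ 2 ^ n ^ 36`. For `h ∈ S`: `facZ`: `Bd (n^36) (4 ^ (n^36+1)^2 * 2 ^ n^36) h`, at most `2 ^ n ^ 80`; `chn` gives `m_h`. `m = m₀ * ∏ h ∈ S, m_h`, `|m| ≤ 2 ^ n^36 * (2 ^ n^460) ^ (2 n^36) ≤ 2 ^ n ^ 500`.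
For a point `x, y, z` of `K` use `ψ = eval₂RingHom (eval₂RingHom (Int.castRingHom K) x) y` (`ψ (C X) = x`, `ψ X = y`). So `(m : K) = 0`, i.e. `p ∣ m`. `primes`: the set of prime divisors of `m` has at most `log₂ |m| ≤ n ^ 500` elements (`Nat.primeFactors`, `2 ^ card ≤ ∏ p ≤ |m|`).
-/

set_option autoImplicit false

namespace AAC

open Matrix Module Polynomial Pool.Agent.Helper72.TV Pool.Agent.Helper72.PT Pool.Agent.Helper72.PF TRS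

private theorem oneT_card (k : ℕ) (m : ℤ) (hm : m ≠ 0) (hb : m.natAbs ≤ 2 ^ k) :
    m.natAbs.primeFactors.card ≤ k := by
  have h0 : m.natAbs ≠ 0 := Int.natAbs_ne_zero.2 hm
  have h1 : 2 ^ m.natAbs.primeFactors.card ≤ ∏ q ∈ m.natAbs.primeFactors, q := by
    rw [← Finset.prod_const]
    exact Finset.prod_le_prod' fun q hq => (Nat.prime_of_mem_primeFactors hq).two_le
  have h2 : ∏ q ∈ m.natAbs.primeFactors, q ≤ m.natAbs :=
    Nat.le_of_dvd (Nat.pos_of_ne_zero h0) (Nat.prod_primeFactors_dvd _)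
  exact (Nat.pow_le_pow_iff_right (by norm_num)).1 (h1.trans (h2.trans hb))

private theorem oneT_prod (S : Finset ℤ[X][X]) (f : ℤ[X][X] → ℤ) (B : ℕ)
    (h : ∀ x ∈ S, (f x).natAbs ≤ B) : (∏ x ∈ S, f x).natAbs ≤ B ^ S.card := by
  classical
  induction S using Finset.induction_on with
  | empty => simp
  | insert a s ha ih =>
    rw [Finset.prod_insert ha, Finset.card_insert_of_notMem ha, Int.natAbs_mul, pow_succ,
      mul_comm]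
    exact Nat.mul_le_mul (ih fun x hx => h x (Finset.mem_insert_of_mem hx))
      (h a (Finset.mem_insert_self a s))

private theorem oneT_num1 (n : ℕ) (hn : 2 ≤ n) :
    4 ^ (n ^ 36 + 1) ^ 2 * 2 ^ n ^ 36 ≤ 2 ^ n ^ 80 := by
  have h1 : (4 : ℕ) ^ (n ^ 36 + 1) ^ 2 = 2 ^ (2 * (n ^ 36 + 1) ^ 2) := by
    rw [pow_mul]
    norm_num
  rw [h1, ← pow_add]
  refine Nat.pow_le_pow_right (by norm_num) ?_
  obtain ⟨N, hN⟩ : ∃ N, N = n ^ 36 := ⟨_, rfl⟩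
  have hN1 : 1 ≤ N := by
    rw [hN]
    exact Nat.one_le_pow _ _ (by omega)
  have h2 : n ^ 80 = n ^ 8 * N ^ 2 := by
    rw [hN, ← pow_mul, ← pow_add]
  have h3 : 2 ^ 8 ≤ n ^ 8 := Nat.pow_le_pow_left hn 8
  rw [h2, ← hN]
  have h4 : 2 ^ 8 * N ^ 2 ≤ n ^ 8 * N ^ 2 := Nat.mul_le_mul_right _ h3
  nlinarith

private theorem oneT_num2 (n : ℕ) (hn : 2 ≤ n) :
    n ^ 36 + n ^ 460 * (2 * n ^ 36) ≤ n ^ 500 := by
  have h1 : n ^ 500 = n ^ 4 * n ^ 496 := by rw [← pow_add]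
  have h2 : n ^ 460 * (2 * n ^ 36) = 2 * n ^ 496 := by
    rw [show n ^ 496 = n ^ 460 * n ^ 36 by rw [← pow_add]]
    ring
  have h3 : n ^ 36 ≤ n ^ 496 := Nat.pow_le_pow_right (by omega) (by norm_num)
  have h4 : 2 ^ 4 ≤ n ^ 4 := Nat.pow_le_pow_left hn 4
  have h5 : 2 ^ 4 * n ^ 496 ≤ n ^ 4 * n ^ 496 := Nat.mul_le_mul_right _ h4
  rw [h1, h2]
  omega

theorem oneT (n : ℕ) (hn : 2 ≤ n) (T : Ty → List Bool × List Bool) (hT : GoodT n T) :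
    ∃ P : Finset ℕ, P.card ≤ n ^ 500 ∧
      ∀ {K : Type} [Field K] [IsAlgClosed K] (p : ℕ) [Fact p.Prime] [CharP K p], p ∉ P →
        ∀ x y z : K, nd x y z ≠ 0 →
        ¬∀ i j, co x y z (wdt i (T i).1) j = co x y z (wdt i (T i).2) j := by
  classical
  have hinj : Function.Injective (algebraMap ℤ[X][X] (FractionRing ℤ[X][X])) :=
    IsFractionRing.injective _ _
  have hc0 : CharZero (FractionRing ℤ[X][X]) := charZero_of_injective_algebraMap hinj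
  obtain ⟨Δ, hb, hΔ, hvan⟩ := cutZ (algebraMap ℤ[X][X] (FractionRing ℤ[X][X])) n hn T hT
  have hΔ0 : Δ ≠ 0 := by
    rintro rfl
    exact hΔ (map_zero _)
  obtain ⟨S, hS, hSi, m0, hm0, hm0b, hψ⟩ := facs (n ^ 36) Δ hΔ0 hb.1 hb.2.1
  have hch : ∀ h : ℤ[X][X], ∃ m : ℤ, h ∈ S → (m ≠ 0 ∧ m.natAbs ≤ 2 ^ n ^ 460 ∧
      ∀ {K : Type} [Field K] [IsAlgClosed K] (p : ℕ) [Fact p.Prime] [CharP K p]
        (ψ : ℤ[X][X] →+* K) (z : K), ψ h = 0 → nd (ψ (C X)) (ψ X) z ≠ 0 →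
        (∀ i j, co (ψ (C X)) (ψ X) z (wdt i (T i).1) j =
          co (ψ (C X)) (ψ X) z (wdt i (T i).2) j) → (m : K) = 0) := by
    intro h
    by_cases hh : h ∈ S
    · obtain ⟨hirr, hdvd, hnc⟩ := hSi h hh
      obtain ⟨b1, b2, b3⟩ := facZ (n ^ 36) (2 ^ n ^ 36) Δ h hΔ0 hdvd hb
      obtain ⟨m, h1, h2, h3⟩ := chn n hn T hT h hirr hnc ⟨b1, b2, b3.trans (oneT_num1 n hn)⟩
      exact ⟨m, fun _ => ⟨h1, h2, h3⟩⟩
    · exact ⟨0, fun h' => absurd h' hh⟩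
  choose mh hmh using hch
  obtain ⟨m, hm⟩ : ∃ m, m = m0 * ∏ h ∈ S, mh h := ⟨_, rfl⟩
  have hmne : m ≠ 0 := by
    rw [hm]
    refine mul_ne_zero hm0 (Finset.prod_ne_zero_iff.2 fun h hh => (hmh h hh).1)
  have hmb : m.natAbs ≤ 2 ^ n ^ 500 := by
    have e1 : (∏ h ∈ S, mh h).natAbs ≤ (2 ^ n ^ 460) ^ S.card :=
      oneT_prod S mh _ fun h hh => (hmh h hh).2.1
    have e2 : (2 ^ n ^ 460) ^ S.card ≤ (2 ^ n ^ 460) ^ (2 * n ^ 36) :=
      Nat.pow_le_pow_right (Nat.one_le_pow _ _ (by norm_num)) hS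
    have e3 : m0.natAbs ≤ 2 ^ n ^ 36 := hm0b.trans hb.2.2
    rw [hm, Int.natAbs_mul]
    calc m0.natAbs * (∏ h ∈ S, mh h).natAbs
        ≤ 2 ^ n ^ 36 * (2 ^ n ^ 460) ^ (2 * n ^ 36) := Nat.mul_le_mul e3 (e1.trans e2)
      _ = 2 ^ (n ^ 36 + n ^ 460 * (2 * n ^ 36)) := by rw [← pow_mul, ← pow_add]
      _ ≤ 2 ^ n ^ 500 := Nat.pow_le_pow_right (by norm_num) (oneT_num2 n hn)
  refine ⟨m.natAbs.primeFactors, oneT_card _ m hmne hmb, ?_⟩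
  intro K _ _ p hp _ hpP x y z hnd hbad
  have hprime : p.Prime := Fact.out
  obtain ⟨ψ, hψ1, hψ2⟩ : ∃ ψ : ℤ[X][X] →+* K, ψ (C X) = x ∧ ψ X = y := by
    refine ⟨eval₂RingHom (eval₂RingHom (Int.castRingHom K) x) y, ?_, ?_⟩
    · simp
    · simp
  have hΔψ : ψ Δ = 0 := by
    refine hvan ψ (fun r hr => ?_) z ?_ ?_
    · have : r = 0 := hinj (by rw [hr, map_zero])
      rw [this, map_zero]
    · rw [hψ1, hψ2]
      exact hnd
    · rw [hψ1, hψ2]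
      exact hbad
  have hmK : (m : K) = 0 := by
    rw [hm]
    rcases hψ ψ hΔψ with h1 | ⟨h, hh, h1⟩
    · rw [Int.cast_mul, h1, zero_mul]
    · have h2 : ((mh h : ℤ) : K) = 0 := by
        refine (hmh h hh).2.2 p ψ z h1 ?_ ?_
        · rw [hψ1, hψ2]
          exact hnd
        · rw [hψ1, hψ2]
          exact hbad
      rw [Int.cast_mul, Int.cast_prod, Finset.prod_eq_zero hh h2, mul_zero]
  have hdvd : (p : ℤ) ∣ m := (CharP.intCast_eq_zero_iff K p m).1 hmK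
  exact hpP (Nat.mem_primeFactors.2 ⟨hprime, Int.natCast_dvd.1 hdvd, Int.natAbs_ne_zero.2 hmne⟩)

end AAC
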