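import Pool.Agent.AAC.BdZ
import Pool.Agent.AAC.Wv
import Pool.Agent.Helper72.PF.Coef

/-!
# AAC-PolZ (1.3h)
Degrees, norms and values of the coincidence polynomials. PLAN. As `TRS/Cof.lean` (finished), over `ℤ`. Claim by induction on `l`: for all `j`, `(polZ l j).natDegree ≤ l.length` and for all `t`, `Bd l.length (5 ^ l.length) ((polZ l j).coeff t)`. In `step` every entry is a sum of at most 5 terms `± c`, `± x c`, `± y c`, `± z c`, `± x y c` with entries `c` of the previous vector: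
multiplication by `x = C (C X)`, `y = C X` multiplies the coefficients by `C X`, `X` (`coeff_C_mul`, `l2_CX`, `l2_X`), by `x y` one gets both partial degrees `+ 1` (NOT `+ 2`) and norm factor 1; multiplication by `z = X` shifts the coefficients. `fZ_*`: differences, `wdt_length`, `2 * 5 ^ m ≤ 2 * 6 ^ m`, monotone. `fZ_eval`, `satZ_eval`: `co_map`, `nd_map` for `eval₂RingHom ψ z`.
`satZ_natDegree`: `kp` has degree `≤ 2` in `z` and occurs four times. `satZ_map`: from `satZ_eval` for `ψ`: if `satZ.map φ = 0` then every coefficient of `satZ` is in the kernel of `φ`, so of `ψ`, and `satZ.eval₂ ψ z = 0`.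
-/

set_option autoImplicit false

namespace AAC

open Matrix Module Polynomial Pool.Agent.Helper72.TV Pool.Agent.Helper72.PT Pool.Agent.Helper72.PF TRS

/-- degree and partial degrees of the coefficients at most `k`, norms at most `H` -/
private def CQ (k H : ℕ) (p : Polynomial ℤ[X][X]) : Prop :=
  p.natDegree ≤ k ∧ ∀ t, Bd k H (p.coeff t)

private theorem CQ.mono {k m H H' : ℕ} {p : Polynomial ℤ[X][X]} (h : CQ k H p) (hkm : k ≤ m)
    (hH : H ≤ H') : CQ m H' p := ⟨h.1.trans hkm, fun t => (h.2 t).mono hkm hH⟩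

private theorem CQ.add {k H H' : ℕ} {p q : Polynomial ℤ[X][X]} (h : CQ k H p) (h' : CQ k H' q) :
    CQ k (H + H') (p + q) := by
  refine ⟨natDegree_add_le_of_degree_le h.1 h'.1, fun t => ?_⟩
  rw [coeff_add]
  exact (h.2 t).add (h'.2 t)

private theorem CQ.neg {k H : ℕ} {p : Polynomial ℤ[X][X]} (h : CQ k H p) : CQ k H (-p) := by
  refine ⟨by rw [natDegree_neg]; exact h.1, fun t => ?_⟩
  rw [coeff_neg]
  exact (h.2 t).neg

private theorem CQ.sub {k H H' : ℕ} {p q : Polynomial ℤ[X][X]} (h : CQ k H p) (h' : CQ k H' q) :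
    CQ k (H + H') (p - q) := by
  have e : p - q = p + -q := _root_.sub_eq_add_neg p q
  rw [e]
  exact h.add h'.neg

private theorem CQ.Cmul {k H : ℕ} {p : Polynomial ℤ[X][X]} (h : CQ k H p) {r : ℤ[X][X]}
    (hr : Bd 1 1 r) : CQ (k + 1) H (C r * p) := by
  refine ⟨(natDegree_C_mul_le _ _).trans (h.1.trans (Nat.le_succ k)), fun t => ?_⟩
  rw [coeff_C_mul]
  have h1 := hr.mul (h.2 t)
  rw [one_mul, add_comm 1 k] at h1
  exact h1

private theorem CQ.Xmul {k H : ℕ} {p : Polynomial ℤ[X][X]} (h : CQ k H p) :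
    CQ (k + 1) H (X * p) := by
  refine ⟨?_, fun t => ?_⟩
  · refine natDegree_mul_le.trans ?_
    have h1 : (X : Polynomial ℤ[X][X]).natDegree ≤ 1 := natDegree_X_le
    have h2 := h.1
    omega
  · cases t with
    | zero =>
      rw [coeff_X_mul_zero]
      exact bd_zero _ _
    | succ t =>
      rw [coeff_X_mul]
      exact (h.2 t).mono (Nat.le_succ k) le_rfl

private theorem bd_CX : Bd 1 1 (C X : ℤ[X][X]) := by
  refine ⟨?_, ?_, ?_⟩
  · rw [natDegree_C]
    exact Nat.zero_le 1
  · rw [Bivariate.swap_X]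
    exact natDegree_X_le
  · rw [l2_CX]

private theorem bd_X : Bd 1 1 (X : ℤ[X][X]) := by
  refine ⟨natDegree_X_le, ?_, ?_⟩
  · rw [Bivariate.swap_Y, natDegree_C]
    exact Nat.zero_le 1
  · rw [l2_X]

private theorem bd_xy : Bd 1 1 (C X * X : ℤ[X][X]) := by
  refine ⟨?_, ?_, ?_⟩
  · refine natDegree_mul_le.trans ?_
    rw [natDegree_C, zero_add]
    exact natDegree_X_le
  · rw [map_mul]
    refine natDegree_mul_le.trans ?_
    have h1 : Bivariate.swap (C X : ℤ[X][X]) = X := Bivariate.swap_X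
    have h2 : Bivariate.swap (X : ℤ[X][X]) = C X := Bivariate.swap_Y
    rw [h1, h2, natDegree_C, add_zero]
    exact natDegree_X_le
  · refine (l2_mul _ _).trans ?_
    rw [l2_CX, l2_X]

private theorem polZ_CQ (l : List (Fin 4)) : ∀ j, CQ l.length (5 ^ l.length) (polZ l j) := by
  unfold polZ
  induction l with
  | nil =>
    intro j
    rw [co_nil]
    have h0 : CQ 0 1 (0 : Polynomial ℤ[X][X]) :=
      ⟨by simp, fun t => by rw [coeff_zero]; exact bd_zero _ _⟩
    have h1 : CQ 0 1 (1 : Polynomial ℤ[X][X]) := by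
      refine ⟨by simp, fun t => ?_⟩
      rw [coeff_one]
      split_ifs
      · exact bd_one _ _ le_rfl
      · exact bd_zero _ _
    fin_cases j
    · exact h1
    · exact h0
    · exact h0
    · exact h0
  | cons s l ih =>
    intro j
    rw [co_cons, List.length_cons, pow_succ]
    generalize co (C (C X) : Polynomial ℤ[X][X]) (C X) X l = c at ih
    generalize l.length = k at ih
    generalize 5 ^ k = H at ih
    have hc : ∀ j, CQ (k + 1) H (c j) := fun j => (ih j).mono (Nat.le_succ k) le_rfl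
    have hxc : ∀ j, CQ (k + 1) H ((C (C X) : Polynomial ℤ[X][X]) * c j) :=
      fun j => (ih j).Cmul bd_CX
    have hyc : ∀ j, CQ (k + 1) H ((C X : Polynomial ℤ[X][X]) * c j) := fun j => (ih j).Cmul bd_X
    have hzc : ∀ j, CQ (k + 1) H ((X : Polynomial ℤ[X][X]) * c j) := fun j => (ih j).Xmul
    have hw : CQ (k + 1) (H + H) (c 1 * ((X : Polynomial ℤ[X][X]) - C (C X) * C X)) := by
      have e : c 1 * ((X : Polynomial ℤ[X][X]) - C (C X) * C X) = X * c 1 - C (C X * X) * c 1 := by
        rw [C_mul]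
        ring
      rw [e]
      exact (hzc 1).sub ((ih 1).Cmul bd_xy)
    fin_cases s
    · fin_cases j
      · exact (hc 1).neg.mono le_rfl (by omega)
      · exact ((hc 0).add (hxc 1)).mono le_rfl (by omega)
      · exact (hc 3).neg.mono le_rfl (by omega)
      · exact ((hc 2).add (hxc 3)).mono le_rfl (by omega)
    · fin_cases j
      · exact ((hxc 0).add (hc 1)).mono le_rfl (by omega)
      · exact (hc 0).neg.mono le_rfl (by omega)
      · exact ((hxc 2).add (hc 3)).mono le_rfl (by omega)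
      · exact (hc 2).neg.mono le_rfl (by omega)
    · fin_cases j
      · exact ((hw.sub (hc 2)).sub (hxc 3)).mono le_rfl (by omega)
      · exact ((hyc 1).add (hc 3)).mono le_rfl (by omega)
      · exact ((((hc 0).add (hxc 1)).add (hyc 2)).add (hzc 3)).mono le_rfl (by omega)
      · exact (hc 1).neg.mono le_rfl (by omega)
    · fin_cases j
      · exact ((hyc 0).sub ((hw.sub (hc 2)).sub (hxc 3))).mono le_rfl (by omega)
      · exact (hc 3).neg.mono le_rfl (by omega)
      · exact (((hc 0).add (hxc 1)).add (hzc 3)).neg.mono le_rfl (by omega)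
      · exact ((hyc 3).add (hc 1)).mono le_rfl (by omega)

private theorem fZ_CQ (n : ℕ) (T : Ty → List Bool × List Bool) (hT : GoodT n T)
    (p : Ty × Fin 4) : CQ (3210 * n) (2 * 6 ^ (3210 * n)) (fZ T p) := by
  obtain ⟨h1, h2, -⟩ := hT p.1
  have e1 := wdt_length p.1 (T p.1).1
  have e2 := wdt_length p.1 (T p.1).2
  rw [h1] at e1
  rw [h2] at e2
  have key : ∀ w : List (Fin 4), w.length ≤ 3210 * n →
      CQ (3210 * n) (6 ^ (3210 * n)) (polZ w p.2) := by
    intro w hw
    refine (polZ_CQ w p.2).mono hw ?_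
    exact (Nat.pow_le_pow_left (by norm_num) _).trans (Nat.pow_le_pow_right (by norm_num) hw)
  have h3 := (key _ e1).sub (key _ e2)
  rw [← two_mul] at h3
  exact h3

theorem fZ_natDegree (n : ℕ) (T : Ty → List Bool × List Bool) (hT : GoodT n T)
    (p : Ty × Fin 4) : (fZ T p).natDegree ≤ 3210 * n :=
  (fZ_CQ n T hT p).1

theorem fZ_coeff (n : ℕ) (T : Ty → List Bool × List Bool) (hT : GoodT n T) (p : Ty × Fin 4)
    (t : ℕ) : Bd (3210 * n) (2 * 6 ^ (3210 * n)) ((fZ T p).coeff t) :=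
  (fZ_CQ n T hT p).2 t

private theorem polZ_eval {R : Type*} [CommRing R] (l : List (Fin 4)) (j : Fin 4)
    (ψ : ℤ[X][X] →+* R) (z : R) : (polZ l j).eval₂ ψ z = co (ψ (C X)) (ψ X) z l j := by
  have h := co_map (eval₂RingHom ψ z) (C (C X) : Polynomial ℤ[X][X]) (C X) X l j
  rw [coe_eval₂RingHom, eval₂_C, eval₂_C, eval₂_X] at h
  exact h

theorem fZ_eval {R : Type*} [CommRing R] (T : Ty → List Bool × List Bool) (p : Ty × Fin 4)
    (ψ : ℤ[X][X] →+* R) (z : R) :
    (fZ T p).eval₂ ψ z = co (ψ (C X)) (ψ X) z (wdt p.1 (T p.1).1) p.2 -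
      co (ψ (C X)) (ψ X) z (wdt p.1 (T p.1).2) p.2 := by
  unfold fZ
  rw [eval₂_sub, polZ_eval, polZ_eval]

private theorem kp_natDegree (x y : ℤ[X][X]) :
    (kp (C x : Polynomial ℤ[X][X]) (C y) X).natDegree ≤ 2 := by
  unfold kp
  compute_degree

theorem satZ_natDegree : satZ.natDegree ≤ 8 := by
  have hk := kp_natDegree (C X) X
  have h1 : ((C (C X) : Polynomial ℤ[X][X]) * C X * (C (C X) ^ 2 - 1)).natDegree ≤ 0 := by
    have e : (C (C X) : Polynomial ℤ[X][X]) * C X * (C (C X) ^ 2 - 1) =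
        C (C X * X * (C X ^ 2 - 1)) := by
      simp only [C_mul, C_sub, C_pow, C_1]
    rw [e, natDegree_C]
  have hx : ((C (C X) : Polynomial ℤ[X][X]) ^ 2).natDegree ≤ 2 := by
    rw [← C_pow, natDegree_C]
    exact Nat.zero_le 2
  unfold satZ nd
  generalize kp (C (C X) : Polynomial ℤ[X][X]) (C X) X = κ at hk
  generalize (C (C X) : Polynomial ℤ[X][X]) * C X * (C (C X) ^ 2 - 1) = a at h1
  generalize (C (C X) : Polynomial ℤ[X][X]) ^ 2 = x2 at hx
  have h2 : (κ + 1).natDegree ≤ 2 := natDegree_add_le_of_degree_le hk (by simp)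
  have h3 : (x2 - κ - 3).natDegree ≤ 2 := by
    refine (natDegree_sub_le_of_le (natDegree_sub_le_of_le hx hk) (natDegree_ofNat 3).le).trans ?_
    simp
  have h4 : (x2 - κ - 4).natDegree ≤ 2 := by
    refine (natDegree_sub_le_of_le (natDegree_sub_le_of_le hx hk) (natDegree_ofNat 4).le).trans ?_
    simp
  have h5 := natDegree_mul_le (p := a) (q := κ)
  have h6 := natDegree_mul_le (p := a * κ) (q := κ + 1)
  have h7 := natDegree_mul_le (p := a * κ * (κ + 1)) (q := x2 - κ - 3)
  have h8 := natDegree_mul_le (p := a * κ * (κ + 1) * (x2 - κ - 3)) (q := x2 - κ - 4)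
  omega

theorem satZ_eval {R : Type*} [CommRing R] (ψ : ℤ[X][X] →+* R) (z : R) :
    satZ.eval₂ ψ z = nd (ψ (C X)) (ψ X) z := by
  have h := nd_map (eval₂RingHom ψ z) (C (C X) : Polynomial ℤ[X][X]) (C X) X
  rw [coe_eval₂RingHom, eval₂_C, eval₂_C, eval₂_X] at h
  exact h

theorem satZ_map {L K : Type} [Field L] [Field K] (φ : ℤ[X][X] →+* L) (ψ : ℤ[X][X] →+* K)
    (h : ∀ r, φ r = 0 → ψ r = 0) (h0 : satZ.map φ = 0) (z : K) : nd (ψ (C X)) (ψ X) z = 0 := by
  rw [← satZ_eval, ← eval_map]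
  have h1 : satZ.map ψ = 0 := by
    ext i
    rw [coeff_map, coeff_zero]
    apply h
    rw [← coeff_map, h0, coeff_zero]
  rw [h1, eval_zero]

end AAC
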