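import Pool.Agent.AAC.CutZ
import Pool.Agent.AAC.Omg
import Pool.Agent.AAC.Hom
import Pool.Agent.AAC.Hou

/-!
# AAC-PtO (1.5h)
One closed point. PLAN. `a, b` the leading coefficients of `R, R2`. `φ : ℤ[X][X] →+* AlgebraicClosure ℚ` with `φ (C X) = ξ = α / a`, `φ X = η = β / b` (`eval₂RingHom (eval₂RingHom (Int.castRingHom _) ξ) η`). `cutZ` gives `Δ`, degrees and `log₂ l2` at most `D = n ^ 36`. `homg` with `r = Δ`, `E = n ^ 36` gives `ω ≠ 0` (`a, b, φ Δ ≠ 0`). Bounds: for `σ`, `χ = σ ∘ φ`, `house` for the roots `σ ξ, σ η` of `R, R2`, and `|a| ≤ l1 R`: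
`‖σ ω‖ ≤ 2 ^ (n^36) * (2 ^ (4 n^120)) ^ (n^36) ≤ 2 ^ (n ^ 160)`; degree of `ω` at most `n^74 * n^74 = n^148` (`homg_deg` with `c = a^E b^E`). `omg`: `m ≠ 0`, `|m| ≤ 2 ^ (n^160 * n^148) = 2 ^ n ^ 308`. Final statement: given `K, θ, ψ, z` with `θ α = a ψ (C X)`, `θ β = b ψ X`, `a, b ≠ 0` in `K`: for every `r` with `φ r = 0`, `homg` for `r` (with a large `E`) gives `ω_r = 0` and
`0 = θ ω_r = a^E b^E ψ r`, so `ψ r = 0`. Hence `cutZ` gives `ψ Δ = 0`, so `θ ω = 0` and `(m : K) = 0`.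
-/

set_option autoImplicit false

namespace AAC

open Matrix Module Polynomial Pool.Agent.Helper72.TV Pool.Agent.Helper72.PT Pool.Agent.Helper72.PF TRS

private theorem numb (n : ℕ) (hn : 2 ≤ n) : n ^ 36 + 4 * n ^ 120 * n ^ 36 ≤ n ^ 160 := by
  have h1 : n ^ 36 ≤ n ^ 156 := Nat.pow_le_pow_right (by omega) (by norm_num)
  have h2 : 2 ^ 4 ≤ n ^ 4 := Nat.pow_le_pow_left hn 4
  have h3 : n ^ 160 = n ^ 4 * n ^ 156 := by rw [← pow_add]
  have h4 : 4 * n ^ 120 * n ^ 36 = 4 * n ^ 156 := by rw [mul_assoc, ← pow_add]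
  have h5 : 2 ^ 4 * n ^ 156 ≤ n ^ 4 * n ^ 156 := Nat.mul_le_mul_right _ h2
  omega

theorem ptO (n : ℕ) (hn : 2 ≤ n) (T : Ty → List Bool × List Bool) (hT : GoodT n T)
    (R R2 : ℤ[X]) (hR : R ≠ 0) (hR2 : R2 ≠ 0) (d1 : R.natDegree ≤ n ^ 74)
    (d2 : R2.natDegree ≤ n ^ 74) (e1 : l1 R ≤ 2 ^ n ^ 120) (e2 : l1 R2 ≤ 2 ^ n ^ 120)
    (α β : ZB)
    (h1 : R.eval₂ (Int.castRingHom (AlgebraicClosure ℚ))
      ((α : AlgebraicClosure ℚ) / R.leadingCoeff) = 0)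
    (h2 : R2.eval₂ (Int.castRingHom (AlgebraicClosure ℚ))
      ((β : AlgebraicClosure ℚ) / R2.leadingCoeff) = 0) :
    ∃ m : ℤ, m ≠ 0 ∧ m.natAbs ≤ 2 ^ n ^ 308 ∧
      ∀ {K : Type} [Field K] (θ : ZB →+* K) (ψ : ℤ[X][X] →+* K) (z : K),
        (R.leadingCoeff : K) ≠ 0 → (R2.leadingCoeff : K) ≠ 0 →
        θ α = R.leadingCoeff * ψ (C X) → θ β = R2.leadingCoeff * ψ X →
        nd (ψ (C X)) (ψ X) z ≠ 0 →
        (∀ i j, co (ψ (C X)) (ψ X) z (wdt i (T i).1) j =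
          co (ψ (C X)) (ψ X) z (wdt i (T i).2) j) → (m : K) = 0 := by
  have ha : R.leadingCoeff ≠ 0 := leadingCoeff_ne_zero.2 hR
  have hb : R2.leadingCoeff ≠ 0 := leadingCoeff_ne_zero.2 hR2
  have haL : R.leadingCoeff.natAbs ≤ l1 R := natAbs_coeff_le R _
  have hbL : R2.leadingCoeff.natAbs ≤ l1 R2 := natAbs_coeff_le R2 _
  generalize hag : R.leadingCoeff = a at *
  generalize hbg : R2.leadingCoeff = b at *
  set φ : ℤ[X][X] →+* AlgebraicClosure ℚ :=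
    eval₂RingHom (eval₂RingHom (Int.castRingHom _) ((α : AlgebraicClosure ℚ) / a))
      ((β : AlgebraicClosure ℚ) / b) with hφ
  have hφ1 : φ (C X) = (α : AlgebraicClosure ℚ) / a := by
    simp [hφ]
  have hφ2 : φ X = (β : AlgebraicClosure ℚ) / b := by
    simp [hφ]
  have haQ : (a : AlgebraicClosure ℚ) ≠ 0 := Int.cast_ne_zero.2 ha
  have hbQ : (b : AlgebraicClosure ℚ) ≠ 0 := Int.cast_ne_zero.2 hb
  obtain ⟨Δ, hBd, hφΔ, hlast⟩ := cutZ φ n hn T hT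
  obtain ⟨hB1, hB2, hB3⟩ := hBd
  obtain ⟨ω, hω, hωθ⟩ := homg a b ha hb α β Δ (n ^ 36) hB1 hB2 φ hφ1 hφ2
  have hω0 : ω ≠ 0 := by
    intro h0
    rw [h0] at hω
    have h3 : (a : AlgebraicClosure ℚ) ^ (n ^ 36) * b ^ (n ^ 36) * φ Δ ≠ 0 :=
      mul_ne_zero (mul_ne_zero (pow_ne_zero _ haQ) (pow_ne_zero _ hbQ)) hφΔ
    exact h3 (by rw [← hω]; rfl)
  have hl1 : (1 : ℝ) ≤ (l1 R : ℝ) := by exact_mod_cast l1_pos hR
  have hl2 : (1 : ℝ) ≤ (l1 R2 : ℝ) := by exact_mod_cast l1_pos hR2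
  have hΔ0 : Δ ≠ 0 := by
    rintro rfl
    exact hφΔ (map_zero φ)
  have hlΔ : (1 : ℝ) ≤ (l2 Δ : ℝ) := by exact_mod_cast l2_pos hΔ0
  have haR : (1 : ℝ) ≤ |(a : ℝ)| := by
    have : (1 : ℤ) ≤ |a| := Int.one_le_abs ha
    exact_mod_cast this
  have hbR : (1 : ℝ) ≤ |(b : ℝ)| := by
    have : (1 : ℤ) ≤ |b| := Int.one_le_abs hb
    exact_mod_cast this
  have haR2 : |(a : ℝ)| ≤ (l1 R : ℝ) := by
    have : ((a.natAbs : ℤ) : ℝ) ≤ ((l1 R : ℤ) : ℝ) := by exact_mod_cast haL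
    rw [Int.natCast_natAbs] at this
    exact_mod_cast this
  have hbR2 : |(b : ℝ)| ≤ (l1 R2 : ℝ) := by
    have : ((b.natAbs : ℤ) : ℝ) ≤ ((l1 R2 : ℤ) : ℝ) := by exact_mod_cast hbL
    rw [Int.natCast_natAbs] at this
    exact_mod_cast this
  have hprod : (1 : ℝ) ≤ |(a : ℝ)| * |(b : ℝ)| * (l1 R) * (l1 R2) :=
    one_le_mul_of_one_le_of_one_le (one_le_mul_of_one_le_of_one_le
      (one_le_mul_of_one_le_of_one_le haR hbR) hl1) hl2
  have hBone : (1 : ℝ) ≤ l2 Δ * (|(a : ℝ)| * |(b : ℝ)| * (l1 R) * (l1 R2)) ^ (n ^ 36) :=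
    one_le_mul_of_one_le_of_one_le hlΔ (one_le_pow₀ hprod)
  obtain ⟨m, hm0, hmB, hmK⟩ := omg ω hω0 (R.natDegree * R2.natDegree)
    (l2 Δ * (|(a : ℝ)| * |(b : ℝ)| * (l1 R) * (l1 R2)) ^ (n ^ 36)) hBone
    (by
      have h3 := homg_deg R R2 hR hR2 _ _ h1 h2 φ hφ1 hφ2 Δ ((a : ℚ) ^ (n ^ 36) * (b : ℚ) ^ (n ^ 36))
      rw [map_mul, map_pow, map_pow, map_intCast, map_intCast, ← hω] at h3
      exact h3)
    (by
      intro σ
      rw [hω]
      have h3 : σ ((a : AlgebraicClosure ℚ) ^ (n ^ 36) * b ^ (n ^ 36) * φ Δ) =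
          (a : ℂ) ^ (n ^ 36) * b ^ (n ^ 36) * (σ.comp φ) Δ := by
        rw [map_mul, map_mul, map_pow, map_pow, map_intCast, map_intCast, RingHom.comp_apply]
      rw [h3]
      refine homg_norm a b Δ (n ^ 36) hB1 hB2 (σ.comp φ) _ _ hl1 hl2 ?_ ?_
      · rw [RingHom.comp_apply, hφ1]
        apply house R hR
        have h4 := congrArg σ h1
        rw [hom_eval₂, map_zero] at h4
        rw [← h4]
        congr 1
        exact RingHom.ext_int _ _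
      · rw [RingHom.comp_apply, hφ2]
        apply house R2 hR2
        have h4 := congrArg σ h2
        rw [hom_eval₂, map_zero] at h4
        rw [← h4]
        congr 1
        exact RingHom.ext_int _ _)
  refine ⟨m, hm0, ?_, ?_⟩
  · have hL1 : (l1 R : ℝ) ≤ 2 ^ (n ^ 120) := by exact_mod_cast e1
    have hL2 : (l1 R2 : ℝ) ≤ 2 ^ (n ^ 120) := by exact_mod_cast e2
    have hLD : (l2 Δ : ℝ) ≤ 2 ^ (n ^ 36) := by exact_mod_cast hB3
    have h3 : (l2 Δ : ℝ) * (|(a : ℝ)| * |(b : ℝ)| * (l1 R) * (l1 R2)) ^ (n ^ 36) ≤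
        2 ^ (n ^ 160) := by
      calc (l2 Δ : ℝ) * (|(a : ℝ)| * |(b : ℝ)| * (l1 R) * (l1 R2)) ^ (n ^ 36)
          ≤ 2 ^ (n ^ 36) * (2 ^ (n ^ 120) * 2 ^ (n ^ 120) * 2 ^ (n ^ 120) * 2 ^ (n ^ 120)) ^ (n ^ 36) := by
            have := haR2.trans hL1
            have := hbR2.trans hL2
            gcongr
        _ = 2 ^ (n ^ 36 + 4 * n ^ 120 * n ^ 36) := by
            rw [pow_add, pow_mul]
            congr 2
            rw [← pow_add, ← pow_add, ← pow_add]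
            congr 1
            omega
        _ ≤ 2 ^ (n ^ 160) := pow_le_pow_right₀ (by norm_num) (numb n hn)
    have h4 : ((m.natAbs : ℕ) : ℝ) ≤ 2 ^ n ^ 308 := by
      refine hmB.trans ?_
      refine (pow_le_pow_left₀ (by linarith) h3 _).trans ?_
      rw [← pow_mul]
      apply pow_le_pow_right₀ (by norm_num)
      calc n ^ 160 * (R.natDegree * R2.natDegree) ≤ n ^ 160 * (n ^ 74 * n ^ 74) :=
            Nat.mul_le_mul_left _ (Nat.mul_le_mul d1 d2)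
        _ = n ^ 308 := by rw [← pow_add, ← pow_add]
    exact_mod_cast h4
  · intro K _ θ ψ z haK hbK hα hβ hnd hco
    have hker : ∀ r, φ r = 0 → ψ r = 0 := by
      intro r hr
      obtain ⟨ωr, hωr, hωrθ⟩ := homg a b ha hb α β r (max r.natDegree (Bivariate.swap r).natDegree)
        (le_max_left _ _) (le_max_right _ _) φ hφ1 hφ2
      rw [hr, mul_zero] at hωr
      have hωr0 : ωr = 0 := by
        apply Subtype.ext
        exact hωr
      have h5 := hωrθ θ ψ hα hβ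
      rw [hωr0, map_zero] at h5
      rcases mul_eq_zero.1 h5.symm with h6 | h6
      · rcases mul_eq_zero.1 h6 with h7 | h7
        · exact absurd h7 (pow_ne_zero _ haK)
        · exact absurd h7 (pow_ne_zero _ hbK)
      · exact h6
    have h6 := hlast ψ hker z hnd hco
    apply hmK θ
    rw [hωθ θ ψ hα hβ, h6, mul_zero]

end AAC
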